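import Mathlib
import Pool.Agent.H322R3.HypDefs

/-!
Cannon-Thurston maps, conical limit points and visual metrics.

Word-hyperbolic groups and their Gromov boundaries (sequential model) are defined in
`Pool.Agent.H322R3.HypDefs`: for a group with finite generating set `S`, `wlen S` is the word
length, `gprod S w x y` the Gromov product of `x, y` based at `w`, `IsHyperbolic S` the four point
condition, `ConvInf S x` says that the sequence `x` converges at infinity, `Boundary S` is the
Gromov boundary and `bmk S x` the boundary point defined by `x`.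
-/

set_option autoImplicit false

namespace Pool.Agent.R639.CT

open Filter Topology Pool.Agent.H322R3.Hyp

variable {H G : Type*} [Group H] [Group G]

/-- The sequence `x` of group elements converges to the boundary point `z`. -/
def ConvTo (S : Set G) (x : ℕ → G) (z : Boundary S) : Prop :=
  ∃ y : InfSeq S, y.1 = x ∧ bmk S y = z

/-- `f : ∂H → ∂G` is the Cannon-Thurston map of the homomorphism `ι : H → G`: the map
`H ∪ ∂H → G ∪ ∂G` given by `ι` on `H` and by `f` on `∂H` is continuous at the points of `∂H`, i.e.
`f` is continuous and if a sequence `x` of elements of `H` converges to `ξ ∈ ∂H` then the sequence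
`ι x` converges to `f ξ ∈ ∂G`. -/
structure IsCannonThurston (T : Set H) (S : Set G) (ι : H →* G)
    (f : Boundary T → Boundary S) : Prop where
  continuous : Continuous f
  tendsto : ∀ (x : ℕ → H) (ξ : Boundary T), ConvTo T x ξ → ConvTo S (fun n => ι (x n)) (f ξ)

/-- `z ∈ ∂G` is a limit point of the subset `A` of `G`: some sequence in `A` converges to `z`. -/
def IsLimitPoint (S : Set G) (A : Set G) (z : Boundary S) : Prop :=
  ∃ x : ℕ → G, (∀ n, x n ∈ A) ∧ ConvTo S x z

/-- `z ∈ ∂G` is a conical limit point of the subset `A` of `G` (geometric definition): some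
geodesic ray `γ` in the Cayley graph of `G` converging to `z` passes within a bounded distance of
infinitely many distinct elements of `A`. -/
def IsConical (S : Set G) (A : Set G) (z : Boundary S) : Prop :=
  ∃ γ : ℕ → G, (∀ i j, i ≤ j → wlen S ((γ i)⁻¹ * γ j) = j - i) ∧ ConvTo S γ z ∧
    ∃ R : ℕ, {a ∈ A | ∃ n, wlen S ((γ n)⁻¹ * a) ≤ R}.Infinite

/-- `z ∈ ∂G` is a conical limit point for the action of `H` (via `ι : H → G`) on `∂G` (dynamical
definition): there are `h n ∈ H` and points `a ≠ b` of `∂G` with `h n • z → a` and
`h n • y → b` for all `y ∈ ∂G - {z}`. -/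
def IsConicalDyn {S : Set G} (hS : Subgroup.closure S = ⊤) (ι : H →* G) (z : Boundary S) : Prop :=
  ∃ (h : ℕ → H) (a b : Boundary S), a ≠ b ∧
    Tendsto (fun n => bsmul hS (ι (h n)) z) atTop (𝓝 a) ∧
    ∀ y, y ≠ z → Tendsto (fun n => bsmul hS (ι (h n)) y) atTop (𝓝 b)

/-- The Gromov product of `u, v` based at `x₀` in a metric space. -/
noncomputable def gromovProd {X : Type*} [MetricSpace X] (x₀ u v : X) : ℝ :=
  (dist u x₀ + dist v x₀ - dist u v) / 2

/-- `m` is a visual metric, with parameter `a` and base point `x₀ ∈ X`, on the boundary of a group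
`H` which acts on the hyperbolic metric space `X`. The boundary of `X` is identified with `∂H` by
means of the orbit map `h ↦ h x₀`: up to a multiplicative constant, the distance of `ξ ≠ η` is
`a ^ (-(ξ | η))`, where `(ξ | η)` is the Gromov product of `ξ` and `η`, given by the Gromov products
of `x i • x₀` and `y j • x₀` with large `i, j`, for sequences `x → ξ`, `y → η`. -/
def IsVisual {X : Type*} [MetricSpace X] [MulAction H X] (T : Set H) (x₀ : X) (a : ℝ)
    (m : MetricSpace (Boundary T)) : Prop :=
  ∃ C : ℝ, 0 < C ∧ ∀ (x y : ℕ → H) (ξ η : Boundary T), ConvTo T x ξ → ConvTo T y η → ξ ≠ η →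
    ∃ N : ℕ, ∀ i j, N ≤ i → N ≤ j →
      C⁻¹ * a ^ (-(gromovProd x₀ (x i • x₀) (y j • x₀))) ≤ m.dist ξ η ∧
      m.dist ξ η ≤ C * a ^ (-(gromovProd x₀ (x i • x₀) (y j • x₀)))

/-- `X` is an `ℝ`-tree: a geodesic metric space which satisfies the four point condition with
constant `0`. Metric simplicial trees are `ℝ`-trees. -/
structure IsTree (X : Type*) [MetricSpace X] : Prop where
  geodesic : ∀ x y : X, ∃ c : ℝ → X, c 0 = x ∧ c (dist x y) = y ∧
    ∀ s ∈ Set.Icc 0 (dist x y), ∀ t ∈ Set.Icc 0 (dist x y), dist (c s) (c t) = |s - t|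
  four_point : ∀ w x y z : X, min (gromovProd w x y) (gromovProd w y z) ≤ gromovProd w x z

/-- The action of `H` on `X` is geometric: isometric, (metrically) proper and cobounded. (For a
free action on a metric simplicial tree this says that the quotient is a finite metric graph.) -/
structure IsGeometric (H X : Type*) [Group H] [MetricSpace X] [MulAction H X] : Prop where
  isometric : ∀ (h : H) (x y : X), dist (h • x) (h • y) = dist x y
  proper : ∀ (x : X) (r : ℝ), {h : H | dist x (h • x) ≤ r}.Finite
  cobounded : ∀ x : X, ∃ r : ℝ, ∀ y : X, ∃ h : H, dist y (h • x) ≤ r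

/-- The standard basis of the free group of rank `r`. -/
def basis (r : ℕ) : Set (FreeGroup (Fin r)) := Set.range FreeGroup.of

/-- The Hausdorff dimension of the subset `B` of `Y` with respect to the metric `m` on `Y`. -/
noncomputable def hausdorffDim {Y : Type*} (m : MetricSpace Y) (B : Set Y) : ENNReal :=
  @dimH Y (@MetricSpace.toEMetricSpace Y m) B

end Pool.Agent.R639.CT
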