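import Mathlib
import Pool.Agent.H322R3.HypGeom

/-!
Paths with bounded jumps and linear drift in a word-hyperbolic group that converge to a boundary
point `z` come infinitely often within a bounded distance of the geodesic rays to `z`.
-/

set_option autoImplicit false
set_option linter.unusedSectionVars false

namespace Pool.Agent.R639.CT

open Filter Topology Pool.Agent.H322R3.Hyp

variable {Γ : Type*} [Group Γ] {S : Set Γ}

lemma gprod_nonneg (hS : Subgroup.closure S = ⊤) (x y : Γ) : 0 ≤ gprod S 1 x y := by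
  rw [gprod_one hS]
  have h := wlen_mul_le hS x⁻¹ y
  rw [wlen_inv hS] at h
  have h' : (wlen S (x⁻¹ * y) : ℝ) ≤ wlen S x + wlen S y := by exact_mod_cast h
  linarith

lemma gprod_le_right (hS : Subgroup.closure S = ⊤) (x y : Γ) : gprod S 1 x y ≤ wlen S y := by
  rw [gprod_symm hS]; exact gprod_le_left hS y x

/-- `(x | y) ≥ |x| - d(x, y)` -/
lemma gprod_ge_sub (hS : Subgroup.closure S = ⊤) (x y : Γ) :
    (wlen S x : ℝ) - wlen S (x⁻¹ * y) ≤ gprod S 1 x y := by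
  rw [gprod_one hS]
  have h := wlen_mul_le hS y (y⁻¹ * x)
  have e : y * (y⁻¹ * x) = x := by group
  have e2 : wlen S (y⁻¹ * x) = wlen S (x⁻¹ * y) := by
    rw [← wlen_inv hS (y⁻¹ * x)]; congr 1; group
  rw [e, e2] at h
  have h' : (wlen S x : ℝ) ≤ wlen S y + wlen S (x⁻¹ * y) := by exact_mod_cast h
  linarith

/-- the Gromov product is `1`-Lipschitz in the second variable -/
lemma gprod_lip (hS : Subgroup.closure S = ⊤) (x y z : Γ) :
    gprod S 1 x y ≤ gprod S 1 x z + wlen S (y⁻¹ * z) := by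
  rw [gprod_one hS, gprod_one hS]
  have h1 := wlen_mul_le hS z (z⁻¹ * y)
  have e1 : z * (z⁻¹ * y) = y := by group
  have e2 : wlen S (z⁻¹ * y) = wlen S (y⁻¹ * z) := by
    rw [← wlen_inv hS (z⁻¹ * y)]; congr 1; group
  rw [e1, e2] at h1
  have h2 := wlen_mul_le hS (x⁻¹ * y) (y⁻¹ * z)
  have e3 : x⁻¹ * y * (y⁻¹ * z) = x⁻¹ * z := by group
  rw [e3] at h2
  have h1' : (wlen S y : ℝ) ≤ wlen S z + wlen S (y⁻¹ * z) := by exact_mod_cast h1
  have h2' : (wlen S (x⁻¹ * z) : ℝ) ≤ wlen S (x⁻¹ * y) + wlen S (y⁻¹ * z) := by exact_mod_cast h2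
  linarith

section hyp

variable (hS : Subgroup.closure S = ⊤) {δ : ℝ} (hδ0 : 0 ≤ δ)
  (hδ : ∀ x y z : Γ, min (gprod S 1 x y) (gprod S 1 y z) - δ ≤ gprod S 1 x z)

include hS hδ0 hδ

omit hS in
/-- sequential chain lemma -/
lemma chain (o : Γ) (m : ℕ) : ∀ (P : ℕ → Γ) (M : ℝ),
    (∀ i, i ≤ m → M + (i + 1) * δ ≤ gprod S 1 (o⁻¹ * P i) (o⁻¹ * P (i + 1))) →
    M ≤ gprod S 1 (o⁻¹ * P 0) (o⁻¹ * P (m + 1)) := by
  induction m with
  | zero =>
    intro P M h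
    have := h 0 le_rfl
    push_cast at this
    linarith
  | succ m ih =>
    intro P M h
    have h1 := ih (fun i => P (i + 1)) (M + δ) (by
      intro i hi
      have := h (i + 1) (by omega)
      push_cast at this ⊢
      linarith)
    have h2 := h 0 (by omega)
    push_cast at h2
    have h3 := hyp3 hδ (x := o⁻¹ * P 0) (y := o⁻¹ * P 1) (z := o⁻¹ * P (m + 1 + 1)) (M := M + δ)
      (by simpa using (by linarith : M + δ ≤ gprod S 1 (o⁻¹ * P 0) (o⁻¹ * P (0 + 1)))) (by simpa using h1)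
    linarith

omit hδ0 hδ in
lemma exists_NN (x : InfSeq S) (g : Γ) : ∃ N : ℕ, ∀ i j, N ≤ i → N ≤ j →
    (wlen S g : ℝ) ≤ gprod S 1 (x.1 i) (x.1 j) :=
  (bequiv_def x x).1 x.2 _

end hyp

open Classical in
/-- an approximate value of the Gromov product of `g` and the limit of `x` -/
noncomputable def ff (x : InfSeq S) (g : Γ) : ℝ :=
  if h : ∃ N : ℕ, ∀ i j, N ≤ i → N ≤ j → (wlen S g : ℝ) ≤ gprod S 1 (x.1 i) (x.1 j) then
    gprod S 1 (x.1 h.choose) g else 0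

section hyp

variable (hS : Subgroup.closure S = ⊤) {δ : ℝ} (hδ0 : 0 ≤ δ)
  (hδ : ∀ x y z : Γ, min (gprod S 1 x y) (gprod S 1 y z) - δ ≤ gprod S 1 x z)

include hS hδ0 hδ

lemma ff_spec (x : InfSeq S) (g : Γ) : ∃ N : ℕ, ∀ i, N ≤ i →
    ff x g - δ ≤ gprod S 1 (x.1 i) g ∧ gprod S 1 (x.1 i) g ≤ ff x g + δ := by
  have h := exists_NN hS x g
  have e : ff x g = gprod S 1 (x.1 h.choose) g := by unfold ff; rw [dif_pos h]
  have hs := h.choose_spec
  refine ⟨h.choose, fun i hi => ?_⟩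
  rw [e]
  have h1 := hs i h.choose hi le_rfl
  have h2 := hs h.choose i le_rfl hi
  constructor
  · exact hyp3 hδ ((gprod_le_right hS _ _).trans h1) le_rfl
  · have := hyp3 hδ (x := x.1 h.choose) (y := x.1 i) (z := g) ((gprod_le_right hS _ _).trans h2) le_rfl
    linarith

lemma ff_nonneg (x : InfSeq S) (g : Γ) : 0 ≤ ff x g := by
  unfold ff
  split
  · exact gprod_nonneg hS _ _
  · exact le_rfl

lemma ff_le (x : InfSeq S) (g : Γ) : ff x g ≤ wlen S g := by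
  unfold ff
  split
  · exact gprod_le_right hS _ _
  · positivity

lemma ff_lip (x : InfSeq S) (g h : Γ) : ff x g ≤ ff x h + wlen S (g⁻¹ * h) + 2 * δ := by
  obtain ⟨N1, h1⟩ := ff_spec hS hδ0 hδ x g
  obtain ⟨N2, h2⟩ := ff_spec hS hδ0 hδ x h
  have a1 := (h1 (max N1 N2) (le_max_left _ _)).1
  have a2 := (h2 (max N1 N2) (le_max_right _ _)).2
  have := gprod_lip hS (x.1 (max N1 N2)) g h
  linarith

/-- `(g | h) ≥ min (f g) (f h) - 2 δ` -/
lemma ff_min (x : InfSeq S) (g h : Γ) {M : ℝ} (hg : M ≤ ff x g) (hh : M ≤ ff x h) :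
    M - 2 * δ ≤ gprod S 1 g h := by
  obtain ⟨N1, h1⟩ := ff_spec hS hδ0 hδ x g
  obtain ⟨N2, h2⟩ := ff_spec hS hδ0 hδ x h
  have a1 := (h1 (max N1 N2) (le_max_left _ _)).1
  have a2 := (h2 (max N1 N2) (le_max_right _ _)).1
  have := hyp3 hδ (x := g) (y := x.1 (max N1 N2)) (z := h) (M := M - δ)
    (by rw [gprod_symm hS]; linarith) (by linarith)
  linarith

/-- if `f h > f g + 3 δ` then `(g | h) ≤ f g + 2 δ` -/
lemma gprod_le_ff (x : InfSeq S) (g h : Γ) (hgh : ff x g + 3 * δ < ff x h) :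
    gprod S 1 g h ≤ ff x g + 2 * δ := by
  obtain ⟨N1, h1⟩ := ff_spec hS hδ0 hδ x g
  obtain ⟨N2, h2⟩ := ff_spec hS hδ0 hδ x h
  have a1 := (h1 (max N1 N2) (le_max_left _ _)).2
  have a2 := (h2 (max N1 N2) (le_max_right _ _)).1
  by_contra hcon
  push Not at hcon
  have h3 : min (gprod S 1 g h) (ff x h - δ) - δ ≤ gprod S 1 (x.1 (max N1 N2)) g := by
    apply hyp3 hδ (y := h)
    · exact (min_le_right _ _).trans a2
    · rw [gprod_symm hS]; exact min_le_left _ _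
  have h4 : ff x g + 2 * δ < min (gprod S 1 g h) (ff x h - δ) := lt_min hcon (by linarith)
  linarith

/-- points along the geodesic: `q t` -/
lemma ff_of_approach (x : InfSeq S) (g : Γ) {t : ℝ} (hg : ∃ N : ℕ, ∀ i, N ≤ i → t ≤ gprod S 1 (x.1 i) g) :
    t - δ ≤ ff x g := by
  obtain ⟨N1, h1⟩ := ff_spec hS hδ0 hδ x g
  obtain ⟨N2, h2⟩ := hg
  have a1 := (h1 (max N1 N2) (le_max_left _ _)).2
  have a2 := (h2 (max N1 N2) (le_max_right _ _))
  linarith

lemma exists_q (x : InfSeq S) (t : ℕ) : ∃ q : Γ, wlen S q = t ∧ (t : ℝ) - 2 * δ ≤ ff x q := by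
  obtain ⟨q, hq1, hq2⟩ := approach hS hδ0 hδ x t
  refine ⟨q, hq1, ?_⟩
  have := ff_of_approach hS hδ0 hδ x q hq2
  linarith

/-- `(g | q) ≤ f g + 4 δ` for `q` on the geodesic to the limit -/
lemma gprod_q_le (x : InfSeq S) (g q : Γ) (hq : (wlen S q : ℝ) - 2 * δ ≤ ff x q) :
    gprod S 1 g q ≤ ff x g + 5 * δ := by
  obtain ⟨N1, h1⟩ := ff_spec hS hδ0 hδ x g
  obtain ⟨N2, h2⟩ := ff_spec hS hδ0 hδ x q
  have a1 := (h1 (max N1 N2) (le_max_left _ _)).2
  have a2 := (h2 (max N1 N2) (le_max_right _ _)).1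
  have h3 := gprod_le_right hS g q
  have h4 := hyp3 hδ (x := x.1 (max N1 N2)) (y := q) (z := g) (M := gprod S 1 g q - 3 * δ)
    (by linarith) (by rw [gprod_symm hS q g]; linarith)
  linarith

/-- `d(q, g) ≥ |g| - f g - 5 δ` -/
lemma dist_q (x : InfSeq S) (g q : Γ) (hq : (wlen S q : ℝ) - 2 * δ ≤ ff x q) :
    (wlen S g : ℝ) - ff x g - 5 * δ ≤ wlen S (q⁻¹ * g) := by
  have h1 := gprod_q_le hS hδ0 hδ x g q hq
  have h2 := gprod_le_right hS g q
  rw [gprod_one hS] at h1 h2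
  have e2 : wlen S (g⁻¹ * q) = wlen S (q⁻¹ * g) := by
    rw [← wlen_inv hS (g⁻¹ * q)]; congr 1; group
  rw [e2] at h1 h2
  linarith

/-- `f g ≥ min (f q) (g | q) - 3 δ` -/
lemma ff_ge (x : InfSeq S) (g q : Γ) {M : ℝ} (h1 : M ≤ ff x q) (h2 : M ≤ gprod S 1 g q) :
    M - 3 * δ ≤ ff x g := by
  obtain ⟨N1, hN1⟩ := ff_spec hS hδ0 hδ x g
  obtain ⟨N2, hN2⟩ := ff_spec hS hδ0 hδ x q
  have a1 := (hN1 (max N1 N2) (le_max_left _ _)).2
  have a2 := (hN2 (max N1 N2) (le_max_right _ _)).1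
  have := hyp3 hδ (x := x.1 (max N1 N2)) (y := q) (z := g) (M := M - δ) (by linarith)
    (by rw [gprod_symm hS]; linarith)
  linarith

omit hδ0 hδ in
lemma jump_le {P : ℕ → Γ} {C0 : ℝ} (hC : ∀ k, (wlen S ((P k)⁻¹ * P (k + 1)) : ℝ) ≤ C0)
    (k b : ℕ) : (wlen S ((P k)⁻¹ * P (k + b)) : ℝ) ≤ b * C0 := by
  induction b with
  | zero => simp [wlen_one]
  | succ b ih =>
    have h := wlen_mul_le hS ((P k)⁻¹ * P (k + b)) ((P (k + b))⁻¹ * P (k + b + 1))
    have e : (P k)⁻¹ * P (k + b) * ((P (k + b))⁻¹ * P (k + b + 1)) = (P k)⁻¹ * P (k + (b + 1)) := by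
      rw [← add_assoc]; group
    rw [e] at h
    have h' : (wlen S ((P k)⁻¹ * P (k + (b + 1))) : ℝ) ≤ wlen S ((P k)⁻¹ * P (k + b)) +
      wlen S ((P (k + b))⁻¹ * P (k + b + 1)) := by exact_mod_cast h
    have := hC (k + b)
    push_cast
    linarith

/-- Case II: progress along the ray is slow, contradiction with convergence. -/
lemma caseII (x : InfSeq S) (P : ℕ → Γ) (C0 : ℝ)
    (hC : ∀ k, (wlen S ((P k)⁻¹ * P (k + 1)) : ℝ) ≤ C0)
    (hP : ∀ M : ℝ, ∃ N : ℕ, ∀ i j, N ≤ i → N ≤ j → M ≤ gprod S 1 (P i) (x.1 j))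
    (ε : ℝ) (hε : 0 < ε) (k0 : ℕ)
    (hk0 : ∀ k, k0 ≤ k → ε * k ≤ wlen S (P k) - ff x (P k)) : False := by
  -- block length
  obtain ⟨b, hb⟩ := exists_nat_ge (δ / ε)
  have hbδ : δ ≤ ε * (b + 1) := by
    have := (div_le_iff₀ hε).1 hb
    nlinarith
  obtain ⟨n0, hn0⟩ := exists_nat_ge ((14 * δ + 1 + (b + 1) * C0) / ε)
  set n1 := max n0 k0 with hn1
  have hn1' : 14 * δ + 1 + (b + 1) * C0 ≤ ε * n1 := by
    have h1 := (div_le_iff₀ hε).1 hn0
    have h2 : (n0 : ℝ) ≤ n1 := by exact_mod_cast le_max_left _ _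
    nlinarith
  -- choose t
  obtain ⟨t, ht⟩ := exists_nat_ge ((wlen S (P n1) : ℝ) + 3 * δ)
  obtain ⟨q, hq1, hq2⟩ := exists_q hS hδ0 hδ x t
  have hq3 : (wlen S q : ℝ) - 2 * δ ≤ ff x q := by rw [hq1]; exact hq2
  -- the chain
  have hchain : ∀ m : ℕ, 8 * δ + 1 ≤ gprod S 1 (q⁻¹ * P n1) (q⁻¹ * P (n1 + (m + 1) * (b + 1))) := by
    intro m
    have := chain hδ0 hδ q m (fun j => P (n1 + j * (b + 1))) (8 * δ + 1) (by
      intro i hi
      have h1 := gprod_ge_sub hS (q⁻¹ * P (n1 + i * (b + 1))) (q⁻¹ * P (n1 + (i + 1) * (b + 1)))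
      have e1 : (q⁻¹ * P (n1 + i * (b + 1)))⁻¹ * (q⁻¹ * P (n1 + (i + 1) * (b + 1))) =
        (P (n1 + i * (b + 1)))⁻¹ * P (n1 + i * (b + 1) + (b + 1)) := by
        have : n1 + (i + 1) * (b + 1) = n1 + i * (b + 1) + (b + 1) := by ring
        rw [this]; group
      rw [e1] at h1
      have h2 := jump_le hS hC (n1 + i * (b + 1)) (b + 1)
      have h3 := dist_q hS hδ0 hδ x (P (n1 + i * (b + 1))) q hq3
      have h4 := hk0 (n1 + i * (b + 1)) (le_trans (le_max_right _ _) (Nat.le_add_right _ _))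
      push_cast at h2 h4 ⊢
      have h5 : (i : ℝ) * δ ≤ i * (ε * (b + 1)) := by
        apply mul_le_mul_of_nonneg_left hbδ; positivity
      nlinarith)
    simpa using this
  -- upper bound
  obtain ⟨N, hN⟩ := hP t
  obtain ⟨N2, hN2⟩ := ff_spec hS hδ0 hδ x q
  set m := N with hm
  set Y := P (n1 + (m + 1) * (b + 1)) with hY
  have hYN : N ≤ n1 + (m + 1) * (b + 1) := by nlinarith
  have a1 := hN _ (max N N2) hYN (le_max_left _ _)
  have a2 := (hN2 (max N N2) (le_max_right _ _)).1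
  have hYq : (t : ℝ) - 4 * δ ≤ gprod S 1 Y q := by
    have := hyp3 hδ (x := Y) (y := x.1 (max N N2)) (z := q) (M := (t : ℝ) - 3 * δ) (by linarith)
      (by linarith)
    linarith
  have hPY : gprod S 1 (P n1) Y - 2 * δ ≤ gprod S 1 (P n1) q := by
    have h1 := gprod_le_left hS (P n1) Y
    have := hyp3 hδ (x := P n1) (y := Y) (z := q) (M := gprod S 1 (P n1) Y - δ)
      (by linarith) (by linarith)
    linarith
  have h1 := hchain m
  rw [gprod_change hS, hq1] at h1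
  linarith

/-- There is a block on which the path makes progress along the ray. -/
lemma exists_block (x : InfSeq S) (P : ℕ → Γ) (C0 : ℝ)
    (hC : ∀ k, (wlen S ((P k)⁻¹ * P (k + 1)) : ℝ) ≤ C0)
    (c D : ℝ) (hc : 0 < c) (m : ℕ) (hm : D ≤ c / 2 * m) (hm0 : 0 < m)
    (hfr : ∀ K : ℕ, ∃ k, K ≤ k ∧ c * k ≤ ff x (P k)) (K : ℕ) :
    ∃ u, K ≤ u ∧ ff x (P u) + D ≤ ff x (P (u + m)) := by
  by_contra hcon
  push Not at hcon
  have hC0 : 0 ≤ C0 := le_trans (by positivity) (hC 0)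
  set F : ℝ := ff x (P K) + m * C0 + 2 * δ with hF
  have hFr : ∀ r : ℕ, r ≤ m → ff x (P (K + r)) ≤ F := by
    intro r hr
    have h1 := ff_lip hS hδ0 hδ x (P (K + r)) (P K)
    have h2 := jump_le hS hC K r
    have e2 : wlen S ((P (K + r))⁻¹ * P K) = wlen S ((P K)⁻¹ * P (K + r)) := by
      rw [← wlen_inv hS ((P (K + r))⁻¹ * P K)]; congr 1; group
    rw [e2] at h1
    have h3 : (r : ℝ) * C0 ≤ m * C0 := by
      apply mul_le_mul_of_nonneg_right _ hC0
      exact_mod_cast hr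
    linarith
  have hF0 : 0 ≤ F := (ff_nonneg hS hδ0 hδ x _).trans (hFr 0 (Nat.zero_le _))
  have hall : ∀ n : ℕ, ff x (P (K + n)) ≤ F + c / 2 * n := by
    intro n
    induction n using Nat.strong_induction_on with
    | _ n ih =>
      rcases Nat.lt_or_ge n m with h | h
      · have := hFr n h.le
        have h3 : 0 ≤ c / 2 * (n : ℝ) := by positivity
        linarith
      · obtain ⟨n', rfl⟩ := Nat.exists_eq_add_of_le' h
        have h1 := ih n' (by omega)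
        have h2 := hcon (K + n') (Nat.le_add_right _ _)
        rw [← add_assoc]
        push_cast
        linarith
  obtain ⟨K2, hK2⟩ := exists_nat_gt (2 * F / c)
  obtain ⟨k, hk1, hk2⟩ := hfr (max K K2)
  have hkK : K ≤ k := le_trans (le_max_left _ _) hk1
  obtain ⟨n, rfl⟩ := Nat.exists_eq_add_of_le hkK
  have h1 := hall n
  have h2 : (K2 : ℝ) ≤ ((K + n : ℕ) : ℝ) := by exact_mod_cast le_trans (le_max_right _ _) hk1
  have h3 : 2 * F < c * ((K + n : ℕ) : ℝ) := by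
    have := (div_lt_iff₀ hc).1 (hK2.trans_le h2)
    linarith
  push_cast at h3 hk2
  nlinarith

/-- **Main lemma.** A path with bounded jumps and linear drift converging to the boundary point
`z` comes infinitely often close to the geodesic rays to `z`. -/
theorem near (x : InfSeq S) (P : ℕ → Γ) (C0 : ℝ)
    (hC : ∀ k, (wlen S ((P k)⁻¹ * P (k + 1)) : ℝ) ≤ C0)
    (hP : ∀ M : ℝ, ∃ N : ℕ, ∀ i j, N ≤ i → N ≤ j → M ≤ gprod S 1 (P i) (x.1 j))
    (ε : ℝ) (hε : 0 < ε) (k0 : ℕ) (hk0 : ∀ k, k0 ≤ k → ε * k ≤ wlen S (P k)) :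
    ∃ R : ℝ, ∀ K : ℕ, ∃ k, K ≤ k ∧ (wlen S (P k) : ℝ) - R ≤ ff x (P k) := by
  by_cases hI : ∀ K : ℕ, ∃ k, K ≤ k ∧ ε / 2 * k ≤ ff x (P k)
  · obtain ⟨m, hm⟩ := exists_nat_gt ((3 * δ + 2) / (ε / 2 / 2))
    have hm0 : 0 < m := by
      have : (0 : ℝ) < m := lt_of_le_of_lt (by positivity) hm
      exact_mod_cast this
    have hmD : 3 * δ + 2 ≤ ε / 2 / 2 * m := by
      have := (div_lt_iff₀ (by positivity : (0 : ℝ) < ε / 2 / 2)).1 hm
      linarith
    refine ⟨15 * δ + 1 + m * δ + C0, fun K => ?_⟩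
    obtain ⟨u, hu, hblock⟩ := exists_block hS hδ0 hδ x P C0 hC (ε / 2) (3 * δ + 2)
      (by positivity) m hmD hm0 hI K
    set A := P u with hA
    set B := P (u + m) with hB
    have hfA := ff_nonneg hS hδ0 hδ x A
    obtain ⟨q, hq1, hq2⟩ := exists_q hS hδ0 hδ x ⌈ff x A⌉₊
    have ht1 : ff x A ≤ ⌈ff x A⌉₊ := Nat.le_ceil _
    have ht2 : (⌈ff x A⌉₊ : ℝ) < ff x A + 1 := Nat.ceil_lt_add_one hfA
    set t := ⌈ff x A⌉₊ with ht
    have hAq : ff x A - 4 * δ ≤ gprod S 1 A q := by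
      have := ff_min hS hδ0 hδ x A q (M := ff x A - 2 * δ) (by linarith) (by linarith)
      linarith
    have hBq : (t : ℝ) - 4 * δ ≤ gprod S 1 B q := by
      have := ff_min hS hδ0 hδ x B q (M := (t : ℝ) - 2 * δ) (by linarith) (by linarith)
      linarith
    have hAB : gprod S 1 A B ≤ ff x A + 2 * δ := gprod_le_ff hS hδ0 hδ x A B (by linarith)
    have hABq : gprod S 1 (q⁻¹ * A) (q⁻¹ * B) ≤ 10 * δ := by
      rw [gprod_change hS, hq1]
      linarith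
    -- find a point close to q
    obtain ⟨m', rfl⟩ : ∃ m', m = m' + 1 := ⟨m - 1, by omega⟩
    have hex : ∃ i, i ≤ m' ∧ gprod S 1 (q⁻¹ * P (u + i)) (q⁻¹ * P (u + i + 1)) <
        10 * δ + 1 + (i + 1) * δ := by
      by_contra hno
      push Not at hno
      have := chain hδ0 hδ q m' (fun i => P (u + i)) (10 * δ + 1) hno
      have h2 : gprod S 1 (q⁻¹ * A) (q⁻¹ * B) = gprod S 1 (q⁻¹ * P (u + 0)) (q⁻¹ * P (u + (m' + 1))) := rfl
      rw [h2] at hABq
      linarith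
    obtain ⟨i, hi, hlt⟩ := hex
    refine ⟨u + i, by omega, ?_⟩
    set p := P (u + i) with hp
    have h1 := gprod_ge_sub hS (q⁻¹ * p) (q⁻¹ * P (u + i + 1))
    have e1 : (q⁻¹ * p)⁻¹ * (q⁻¹ * P (u + i + 1)) = p⁻¹ * P (u + i + 1) := by group
    rw [e1] at h1
    have h2 := hC (u + i)
    have h3 : ((i : ℝ) + 1) * δ ≤ ((m' + 1 : ℕ) : ℝ) * δ := by
      apply mul_le_mul_of_nonneg_right _ hδ0
      exact_mod_cast Nat.succ_le_succ hi
    have hd : (wlen S (q⁻¹ * p) : ℝ) ≤ 10 * δ + 1 + ((m' + 1 : ℕ) : ℝ) * δ + C0 := by linarith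
    have h5 := wlen_mul_le hS q (q⁻¹ * p)
    have e5 : q * (q⁻¹ * p) = p := by group
    rw [e5, hq1] at h5
    have h5' : (wlen S p : ℝ) ≤ t + wlen S (q⁻¹ * p) := by exact_mod_cast h5
    have h6 : (wlen S p : ℝ) - wlen S (q⁻¹ * p) ≤ gprod S 1 p q := by
      have := gprod_ge_sub hS p q
      have e6 : wlen S (p⁻¹ * q) = wlen S (q⁻¹ * p) := by
        rw [← wlen_inv hS (p⁻¹ * q)]; congr 1; group
      rwa [e6] at this
    have h7 := ff_ge hS hδ0 hδ x p q (M := (wlen S p : ℝ) - wlen S (q⁻¹ * p) - 2 * δ)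
      (by linarith) (by linarith)
    linarith
  · push Not at hI
    obtain ⟨K, hK⟩ := hI
    exfalso
    apply caseII hS hδ0 hδ x P C0 hC hP (ε / 2) (by positivity) (max K k0)
    intro k hk
    have h1 := hK k (le_trans (le_max_left _ _) hk)
    have h2 := hk0 k (le_trans (le_max_right _ _) hk)
    linarith

end hyp

end Pool.Agent.R639.CT
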