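import Mathlib
import Pool.Agent.R639.CT.Drift

/-!
A covering criterion for Hausdorff dimension zero, and the growth series of a finitely generated
group.
-/

set_option autoImplicit false

namespace Pool.Agent.R639.CT

open Filter Topology MeasureTheory MeasureTheory.Measure ENNReal NNReal Pool.Agent.H322R3.Hyp

/-- If each point of `B` is in shadows `Sh g` with `ℓ g` arbitrarily large and `v g` arbitrarily
small compared to `ℓ g`, where the shadows have exponentially small diameter in `ℓ` and the number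
of `g` with `v g ≤ n` is at most exponential in `n`, then `B` has Hausdorff dimension `0`. -/
theorem dimH_zero_of_cover {Y : Type*} [EMetricSpace Y] {H : Type*} [Countable H]
    (ℓ v : H → ℕ) (Sh : H → Set Y) (C lam : ℝ≥0) (hlam0 : 0 < lam) (hlam : lam < 1)
    (hdiam : ∀ g, Metric.ediam (Sh g) ≤ (C : ℝ≥0∞) * (lam : ℝ≥0∞) ^ ℓ g)
    (q : ℝ≥0) (hq0 : 0 < q) (hq1 : q < 1) (hq : ∑' g, (q : ℝ≥0∞) ^ v g ≠ ∞)
    (B : Set Y) (hB : ∀ p ∈ B, ∀ ε : ℝ, 0 < ε → ∀ K : ℕ, ∃ g, K ≤ ℓ g ∧ (v g : ℝ) ≤ ε * ℓ g ∧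
      p ∈ Sh g) :
    dimH B = 0 := by
  borelize Y
  have key : ∀ d : ℝ≥0, 0 < d → μH[(d : ℝ)] B = 0 := by
    intro d hd
    set μ : ℝ≥0 := lam ^ ((d : ℝ) / 2) with hμ
    have hμ0 : 0 < μ := NNReal.rpow_pos hlam0
    have hμ1 : μ < 1 := NNReal.rpow_lt_one hlam (by positivity)
    set ε : ℝ := Real.log μ / Real.log q with hε
    have hlq : Real.log q < 0 := Real.log_neg (by exact_mod_cast hq0) (by exact_mod_cast hq1)
    have hlμ : Real.log μ < 0 := Real.log_neg (by exact_mod_cast hμ0) (by exact_mod_cast hμ1)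
    have hε0 : 0 < ε := div_pos_of_neg_of_neg hlμ hlq
    have hpow : ∀ g : H, (v g : ℝ) ≤ ε * ℓ g → μ ^ ℓ g ≤ q ^ v g := by
      intro g hg
      have h1 : (ε * ℓ g) * Real.log q ≤ (v g : ℝ) * Real.log q :=
        mul_le_mul_of_nonpos_right hg hlq.le
      have h2 : (ε * ℓ g) * Real.log q = ℓ g * Real.log μ := by
        rw [hε]
        have := hlq.ne
        field_simp
      have h3 : Real.log ((μ : ℝ) ^ ℓ g) ≤ Real.log ((q : ℝ) ^ v g) := by
        rw [Real.log_pow, Real.log_pow]; linarith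
      have h4 := (Real.log_le_log_iff (by positivity) (by positivity)).1 h3
      exact_mod_cast h4
    classical
    set t : ℕ → H → Set Y := fun n g => if n ≤ ℓ g ∧ (v g : ℝ) ≤ ε * ℓ g then Sh g else ∅ with ht
    have hle : μH[(d : ℝ)] B ≤ liminf (fun n => ∑' g, Metric.ediam (t n g) ^ (d : ℝ)) atTop := by
      apply hausdorffMeasure_le_liminf_tsum (ι := fun _ => H) (d : ℝ) B
        (fun n : ℕ => (C : ℝ≥0∞) * (lam : ℝ≥0∞) ^ n) _ t
      · refine Eventually.of_forall fun n g => ?_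
        by_cases h : n ≤ ℓ g ∧ (v g : ℝ) ≤ ε * ℓ g
        · simp only [ht, if_pos h]
          refine (hdiam g).trans (mul_le_mul' le_rfl ?_)
          exact pow_le_pow_right_of_le_one' (by exact_mod_cast hlam.le) h.1
        · simp only [ht, if_neg h]
          simp
      · refine Eventually.of_forall fun n p hp => ?_
        obtain ⟨g, h1, h2, h3⟩ := hB p hp ε hε0 n
        rw [Set.mem_iUnion]
        refine ⟨g, ?_⟩
        simp only [ht, if_pos (And.intro h1 h2)]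
        exact h3
      · have h1 : Tendsto (fun n : ℕ => (lam : ℝ≥0∞) ^ n) atTop (𝓝 0) :=
          ENNReal.tendsto_pow_atTop_nhds_zero_of_lt_one (by exact_mod_cast hlam)
        have h2 := ENNReal.Tendsto.const_mul (a := (C : ℝ≥0∞)) h1 (Or.inr ENNReal.coe_ne_top)
        simpa using h2
    have hbound : ∀ n : ℕ, ∑' g, Metric.ediam (t n g) ^ (d : ℝ) ≤
        ((C : ℝ≥0∞) ^ (d : ℝ) * ∑' g, (q : ℝ≥0∞) ^ v g) * (μ : ℝ≥0∞) ^ n := by
      intro n
      have : ((C : ℝ≥0∞) ^ (d : ℝ) * ∑' g, (q : ℝ≥0∞) ^ v g) * (μ : ℝ≥0∞) ^ n =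
          ∑' g, ((C : ℝ≥0∞) ^ (d : ℝ) * (μ : ℝ≥0∞) ^ n) * (q : ℝ≥0∞) ^ v g := by
        rw [ENNReal.tsum_mul_left]; ring
      rw [this]
      refine ENNReal.tsum_le_tsum fun g => ?_
      by_cases h : n ≤ ℓ g ∧ (v g : ℝ) ≤ ε * ℓ g
      · simp only [ht, if_pos h]
        have h1 : Metric.ediam (Sh g) ^ (d : ℝ) ≤ ((C : ℝ≥0∞) * (lam : ℝ≥0∞) ^ ℓ g) ^ (d : ℝ) :=
          ENNReal.rpow_le_rpow (hdiam g) (by positivity)
        refine h1.trans ?_
        rw [ENNReal.mul_rpow_of_nonneg _ _ (by positivity : (0 : ℝ) ≤ d), mul_assoc]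
        refine mul_le_mul' le_rfl ?_
        have h2 : ((lam : ℝ≥0∞) ^ ℓ g) ^ (d : ℝ) = (μ : ℝ≥0∞) ^ ℓ g * (μ : ℝ≥0∞) ^ ℓ g := by
          have h3 : (μ : ℝ≥0∞) = (lam : ℝ≥0∞) ^ ((d : ℝ) / 2) := by
            rw [hμ, ENNReal.coe_rpow_of_ne_zero hlam0.ne']
          rw [h3, ← ENNReal.rpow_natCast, ← ENNReal.rpow_natCast, ← ENNReal.rpow_mul,
            ← ENNReal.rpow_mul, ← ENNReal.rpow_add _ _ (by exact_mod_cast hlam0.ne')
              ENNReal.coe_ne_top]
          congr 1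
          ring
        rw [h2]
        refine mul_le_mul' ?_ ?_
        · exact pow_le_pow_right_of_le_one' (by exact_mod_cast hμ1.le) h.1
        · exact_mod_cast hpow g h.2
      · simp only [ht, if_neg h]
        simp [ENNReal.zero_rpow_of_pos (by exact_mod_cast hd : (0 : ℝ) < d)]
    have hlim : Tendsto (fun n : ℕ => ((C : ℝ≥0∞) ^ (d : ℝ) * ∑' g, (q : ℝ≥0∞) ^ v g) *
        (μ : ℝ≥0∞) ^ n) atTop (𝓝 0) := by
      have h1 : Tendsto (fun n : ℕ => (μ : ℝ≥0∞) ^ n) atTop (𝓝 0) :=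
        ENNReal.tendsto_pow_atTop_nhds_zero_of_lt_one (by exact_mod_cast hμ1)
      have hne : (C : ℝ≥0∞) ^ (d : ℝ) * ∑' g, (q : ℝ≥0∞) ^ v g ≠ ∞ :=
        ENNReal.mul_ne_top (ENNReal.rpow_ne_top_of_nonneg (by positivity) ENNReal.coe_ne_top) hq
      have h2 := ENNReal.Tendsto.const_mul (a := (C : ℝ≥0∞) ^ (d : ℝ) * ∑' g, (q : ℝ≥0∞) ^ v g) h1
        (Or.inr hne)
      simpa using h2
    have h0 : liminf (fun n => ∑' g, Metric.ediam (t n g) ^ (d : ℝ)) atTop ≤ 0 := by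
      rw [← hlim.liminf_eq]
      exact liminf_le_liminf (Eventually.of_forall hbound)
    exact le_antisymm (hle.trans h0) zero_le
  apply le_antisymm _ zero_le
  apply ENNReal.le_of_forall_pos_le_add
  intro d hd _
  rw [zero_add]
  apply dimH_le_of_hausdorffMeasure_ne_top
  rw [key d hd]
  simp

section growth

variable {Γ : Type*} [Group Γ] {S : Set Γ} (hS : Subgroup.closure S = ⊤)

include hS

/-- The growth series of a finitely generated group converges for small arguments. -/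
lemma growth (hfin : S.Finite) : ∃ q : ℝ≥0, 0 < q ∧ q < 1 ∧
    ∑' g : Γ, (q : ℝ≥0∞) ^ wlen S g ≠ ∞ := by
  have hA : (S ∪ S⁻¹).Finite := hfin.union hfin.inv
  have : Fintype ↥(S ∪ S⁻¹) := hA.fintype
  set n := Fintype.card ↥(S ∪ S⁻¹) with hn
  -- word of `g`
  have hw : ∀ g : Γ, ∃ w : Fin (wlen S g) → ↥(S ∪ S⁻¹), (List.ofFn (fun i => (w i : Γ))).prod = g := by
    intro g
    obtain ⟨l, hl1, hl2, hl3⟩ := wlen_spec hS g
    have hl4 : ∀ x ∈ l, x ∈ S ∪ S⁻¹ := by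
      intro x hx
      rcases hl2 x hx with h | h
      · exact Or.inl h
      · exact Or.inr h
    refine ⟨fun i => ⟨l.get (Fin.cast hl1.symm i), hl4 _ (List.get_mem _ _)⟩, ?_⟩
    have : List.ofFn (fun i : Fin (wlen S g) => l.get (Fin.cast hl1.symm i)) = l := by
      apply List.ext_get
      · simp [hl1]
      · intro i h1 h2
        simp
    simp only [this]
    exact hl3
  choose w hw using hw
  set φ : Γ → Σ k : ℕ, (Fin k → ↥(S ∪ S⁻¹)) := fun g => ⟨wlen S g, w g⟩ with hφ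
  have hφi : Function.Injective φ := by
    intro g h hgh
    have h1 : ∀ a b : Σ k : ℕ, (Fin k → ↥(S ∪ S⁻¹)), a = b →
        (List.ofFn (fun i => (a.2 i : Γ))).prod = (List.ofFn (fun i => (b.2 i : Γ))).prod := by
      rintro a b rfl; rfl
    have h2 := h1 _ _ hgh
    exact (hw g).symm.trans (h2.trans (hw h))
  set q : ℝ≥0 := 1 / (2 * (n + 1)) with hq
  have hq0 : 0 < q := by positivity
  have hqn : (n : ℝ≥0) * q ≤ 1 / 2 := by
    rw [hq, mul_one_div, div_le_div_iff₀ (by positivity) (by norm_num)]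
    nlinarith
  refine ⟨q, hq0, ?_, ?_⟩
  · rw [hq, div_lt_one (by positivity)]
    have : (0 : ℝ≥0) ≤ n := zero_le
    linarith
  · have h1 : ∑' g : Γ, (q : ℝ≥0∞) ^ wlen S g ≤
        ∑' a : Σ k : ℕ, (Fin k → ↥(S ∪ S⁻¹)), (q : ℝ≥0∞) ^ a.1 :=
      ENNReal.tsum_comp_le_tsum_of_injective hφi (fun a => (q : ℝ≥0∞) ^ a.1)
    have h2 : ∑' a : Σ k : ℕ, (Fin k → ↥(S ∪ S⁻¹)), (q : ℝ≥0∞) ^ a.1 =
        ∑' k : ℕ, ((n : ℝ≥0∞) * q) ^ k := by
      rw [ENNReal.tsum_sigma']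
      congr 1
      ext k
      simp only [tsum_fintype, Finset.sum_const, Finset.card_univ, nsmul_eq_mul]
      rw [Fintype.card_fun, Fintype.card_fin, mul_pow]
      push_cast
      rfl
    have h3 : ∑' k : ℕ, ((n : ℝ≥0∞) * q) ^ k ≤ ∑' k : ℕ, ((1 / 2 : ℝ≥0) : ℝ≥0∞) ^ k := by
      refine ENNReal.tsum_le_tsum fun k => ?_
      gcongr
      exact_mod_cast hqn
    apply ne_top_of_le_ne_top _ (h1.trans (h2.le.trans h3))
    rw [ENNReal.tsum_geometric]
    apply ENNReal.inv_ne_top.2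
    apply (tsub_pos_of_lt _).ne'
    have : (1 / 2 : ℝ≥0) < 1 := by
      rw [div_lt_one (by norm_num)]; norm_num
    exact_mod_cast this

end growth

end Pool.Agent.R639.CT
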