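import Mathlib
import Pool.Agent.R639.CT.Drift

/-!
Extraction of convergent sequences and existence of geodesic rays.
-/

set_option autoImplicit false
set_option linter.unusedSectionVars false

namespace Pool.Agent.R639.CT

open Filter Topology Pool.Agent.H322R3.Hyp

variable {Γ : Type*} [Group Γ] {S : Set Γ}

section hyp

variable (hS : Subgroup.closure S = ⊤) {δ : ℝ} (hδ0 : 0 ≤ δ)
  (hδ : ∀ x y z : Γ, min (gprod S 1 x y) (gprod S 1 y z) - δ ≤ gprod S 1 x z)

include hS hδ0 hδ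

/-- every sequence which leaves all balls has a subsequence converging at infinity -/
lemma extract' (hfin : S.Finite) (h : ℕ → Γ)
    (hlen : ∀ M : ℝ, ∃ N : ℕ, ∀ k, N ≤ k → M ≤ wlen S (h k)) :
    ∃ ψ : ℕ → ℕ, StrictMono ψ ∧ ConvInf S (fun k => h (ψ k)) := by
  -- subsequence with `|h (κ n)| ≥ n`
  have hev : ∀ n : ℕ, ∀ᶠ k in atTop, n ≤ wlen S (h k) := by
    intro n
    obtain ⟨N, hN⟩ := hlen n
    filter_upwards [eventually_ge_atTop N] with k hk
    exact_mod_cast hN k hk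
  obtain ⟨κ, hκ, hκ2⟩ := extraction_forall_of_eventually hev
  have hp : ∀ n, ∃ p : Γ, wlen S p = n ∧ wlen S (p⁻¹ * h (κ n)) + n = wlen S (h (κ n)) :=
    fun n => wlen_geod hS _ n (hκ2 n)
  choose p hp1 hp2 using hp
  have hpg : ∀ n : ℕ, (n : ℝ) ≤ gprod S 1 (p n) (h (κ n)) := by
    intro n
    rw [gprod_one hS, hp1]
    have : (wlen S ((p n)⁻¹ * h (κ n)) : ℝ) + n = wlen S (h (κ n)) := by exact_mod_cast hp2 n
    linarith
  obtain ⟨ψ, hψ, hc⟩ := extract hS hδ0 hδ hfin p hp1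
  refine ⟨κ ∘ ψ, hκ.comp hψ, ?_⟩
  unfold ConvInf at hc ⊢
  rw [tendsto_pair_iff (fun i j => gprod S 1 (p (ψ i)) (p (ψ j)))] at hc
  rw [tendsto_pair_iff (fun i j => gprod S 1 (h ((κ ∘ ψ) i)) (h ((κ ∘ ψ) j)))]
  intro M
  obtain ⟨N, hN⟩ := hc (M + 2 * δ)
  obtain ⟨K, hK⟩ := exists_nat_ge (M + 2 * δ)
  refine ⟨max N K, fun i j hi hj => ?_⟩
  have hi1 : M + 2 * δ ≤ gprod S 1 (p (ψ i)) (h (κ (ψ i))) := by
    have h1 := hpg (ψ i)
    have h2 : (K : ℝ) ≤ ψ i := by
      exact_mod_cast ((le_max_right _ _).trans hi).trans (hψ.id_le i)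
    linarith
  have hj1 : M + 2 * δ ≤ gprod S 1 (p (ψ j)) (h (κ (ψ j))) := by
    have h1 := hpg (ψ j)
    have h2 : (K : ℝ) ≤ ψ j := by
      exact_mod_cast ((le_max_right _ _).trans hj).trans (hψ.id_le j)
    linarith
  have := hyp4 hδ0 hδ (x := h (κ (ψ i))) (y := p (ψ i)) (z := p (ψ j)) (w := h (κ (ψ j)))
    (M := M + 2 * δ) (by rw [gprod_symm hS]; exact hi1)
    (hN i j ((le_max_left _ _).trans hi) ((le_max_left _ _).trans hj)) hj1
  simp only [Function.comp]
  linarith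

omit hδ0 hδ in
lemma ball_finite (hfin : S.Finite) (n : ℕ) : {g : Γ | wlen S g ≤ n}.Finite := by
  induction n with
  | zero =>
    apply Set.Finite.subset (Set.finite_singleton (1 : Γ))
    intro g hg
    obtain ⟨l, hl1, hl2, hl3⟩ := wlen_spec hS g
    have : l.length = 0 := by
      rw [hl1]; exact Nat.le_zero.1 hg
    rw [List.length_eq_zero_iff] at this
    subst this
    simpa using hl3.symm
  | succ n ih =>
    have hS' : (S ∪ S⁻¹ ∪ {1}).Finite := (hfin.union hfin.inv).union (Set.finite_singleton 1)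
    apply Set.Finite.subset (ih.mul hS')
    intro g hg
    have hg' : wlen S g ≤ n + 1 := hg
    rcases Nat.lt_or_ge (wlen S g) (n + 1) with hlt | hge
    · exact ⟨g, Nat.lt_succ_iff.1 hlt, 1, by simp, by simp⟩
    · obtain ⟨h, hh1, hh2⟩ := wlen_geod hS g n (by omega)
      obtain ⟨l, hl1, hl2, hl3⟩ := wlen_spec hS (h⁻¹ * g)
      have hl : l.length = 1 := by omega
      obtain ⟨s, rfl⟩ := List.length_eq_one_iff.1 hl
      refine ⟨h, le_of_eq hh1, s, ?_, ?_⟩
      · rcases hl2 s (by simp) with h1 | h1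
        · left; left; exact h1
        · left; right; exact h1
      · simp only [List.prod_singleton] at hl3
        simp only
        rw [hl3]; group

/-- existence of geodesic rays -/
lemma exists_ray (hfin : S.Finite) (x : InfSeq S) : ∃ γ : ℕ → Γ,
    (∀ i j, i ≤ j → wlen S ((γ i)⁻¹ * γ j) = j - i) ∧ (∀ n, wlen S (γ n) = n) ∧
    ∀ n : ℕ, ∃ N : ℕ, ∀ i, N ≤ i → (n : ℝ) - δ ≤ gprod S 1 (x.1 i) (γ n) := by
  -- geodesic points
  have hgeo : ∀ g : Γ, ∃ p : ℕ → Γ, (∀ i j, i ≤ j → j ≤ wlen S g →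
      wlen S ((p i)⁻¹ * p j) = j - i) ∧ (∀ n, n ≤ wlen S g → wlen S (p n) = n ∧
      wlen S ((p n)⁻¹ * g) + n = wlen S g) := by
    intro g
    obtain ⟨l, hl1, hl2, hl3⟩ := wlen_spec hS g
    have hlow : ∀ n, n ≤ wlen S g → wlen S (l.take n).prod = n ∧
      wlen S ((l.take n).prod⁻¹ * g) + n = wlen S g := by
      intro k hk
      have h1 := wlen_le (S := S) (l.take k) (fun x hx => hl2 x (List.mem_of_mem_take hx))
      have h2 := wlen_le (S := S) (l.drop k) (fun x hx => hl2 x (List.mem_of_mem_drop hx))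
      have h3 : (l.take k).prod * (l.drop k).prod = g := by
        rw [← List.prod_append, List.take_append_drop, hl3]
      have h4 : (l.take k).prod⁻¹ * g = (l.drop k).prod := by rw [← h3]; group
      have h5 := wlen_mul_le hS (l.take k).prod (l.drop k).prod
      rw [h3] at h5
      rw [List.length_take] at h1
      rw [List.length_drop] at h2
      rw [h4]
      omega
    refine ⟨fun n => (l.take n).prod, ?_, hlow⟩
    intro i j hij hj
    have h1 : (l.take i).prod * ((l.take j).drop i).prod = (l.take j).prod := by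
      have : l.take i = (l.take j).take i := by rw [List.take_take, min_eq_left hij]
      rw [this, ← List.prod_append, List.take_append_drop]
    have h2 : (l.take i).prod⁻¹ * (l.take j).prod = ((l.take j).drop i).prod := by
      rw [← h1]; group
    have h3 := wlen_le (S := S) ((l.take j).drop i)
      (fun x hx => hl2 x (List.mem_of_mem_take (List.mem_of_mem_drop hx)))
    have h4 : ((l.take j).drop i).length = j - i := by
      rw [List.length_drop, List.length_take, hl1]; omega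
    have h5 := wlen_mul_le hS (l.take i).prod ((l.take i).prod⁻¹ * (l.take j).prod)
    rw [mul_inv_cancel_left] at h5
    have h6 := (hlow i (hij.trans hj)).1
    have h7 := (hlow j hj).1
    show wlen S ((l.take i).prod⁻¹ * (l.take j).prod) = j - i
    rw [← h2, h4] at h3
    omega
  choose p hp1 hp2 using fun k => hgeo (x.1 k)
  have hxlen : ∀ n : ℕ, ∃ N, ∀ k, N ≤ k → n ≤ wlen S (x.1 k) := by
    intro n
    obtain ⟨N, hN⟩ := (bequiv_def x x).1 x.2 n
    refine ⟨N, fun k hk => ?_⟩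
    have := hN k k hk hk
    rw [gprod_self hS] at this
    exact_mod_cast this
  have hball := ball_finite hS hfin
  have hpt : ∀ k n : ℕ, ∃ q : {g : Γ | wlen S g ≤ n}, n ≤ wlen S (x.1 k) → q.1 = p k n := by
    intro k n
    by_cases hnk : n ≤ wlen S (x.1 k)
    · exact ⟨⟨p k n, le_of_eq (hp2 k n hnk).1⟩, fun _ => rfl⟩
    · exact ⟨⟨1, by simp [wlen_one]⟩, fun h => absurd h hnk⟩
  choose q hq using hpt
  let _ : ∀ n : ℕ, TopologicalSpace {g : Γ | wlen S g ≤ n} := fun n => ⊥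
  have _ : ∀ n : ℕ, DiscreteTopology {g : Γ | wlen S g ≤ n} := fun n => ⟨rfl⟩
  have _ : ∀ n : ℕ, Finite {g : Γ | wlen S g ≤ n} := fun n => hball n
  obtain ⟨a, ψ, hψ, hlim⟩ := CompactSpace.tendsto_subseq
    (fun k => (fun n => q k n : ∀ n : ℕ, {g : Γ | wlen S g ≤ n}))
  have hev : ∀ n, ∀ᶠ k in atTop, p (ψ k) n = (a n).1 ∧ n ≤ wlen S (x.1 (ψ k)) := by
    intro n
    have hlimn := (tendsto_pi_nhds.1 hlim) n
    have h1 : ∀ᶠ k in atTop, q (ψ k) n = a n := by
      rw [nhds_discrete] at hlimn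
      exact tendsto_pure.1 hlimn
    obtain ⟨N, hN⟩ := hxlen n
    filter_upwards [h1, eventually_ge_atTop N] with k hk1 hk2
    have h3 := hN (ψ k) (hk2.trans (hψ.id_le k))
    exact ⟨by rw [← hq (ψ k) n h3, hk1], h3⟩
  refine ⟨fun n => (a n).1, ?_, ?_, ?_⟩
  · intro i j hij
    obtain ⟨k, ⟨h1, _⟩, h3, h4⟩ := ((hev i).and (hev j)).exists
    show wlen S ((a i).1⁻¹ * (a j).1) = j - i
    rw [← h1, ← h3]
    exact hp1 (ψ k) i j hij h4
  · intro n
    obtain ⟨k, h1, h2⟩ := (hev n).exists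
    show wlen S (a n).1 = n
    rw [← h1]
    exact (hp2 (ψ k) n h2).1
  · intro n
    obtain ⟨N, hN⟩ := (bequiv_def x x).1 x.2 n
    obtain ⟨k, ⟨h1, h2⟩, h3⟩ := ((hev n).and (eventually_ge_atTop N)).exists
    refine ⟨N, fun i hi => ?_⟩
    have h4 := hN i (ψ k) hi (h3.trans (hψ.id_le k))
    show (n : ℝ) - δ ≤ gprod S 1 (x.1 i) (a n).1
    rw [← h1]
    apply hyp3 hδ (y := x.1 (ψ k)) h4
    rw [gprod_symm hS, gprod_one hS, (hp2 (ψ k) n h2).1]
    have h5 := (hp2 (ψ k) n h2).2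
    have h6 : (wlen S ((p (ψ k) n)⁻¹ * x.1 (ψ k)) : ℝ) + n = wlen S (x.1 (ψ k)) := by
      exact_mod_cast h5
    linarith

end hyp

end Pool.Agent.R639.CT
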