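import Mathlib
import Pool.Agent.R639.CT.Ray
import Pool.Agent.R639.CT.Dim
import Pool.Agent.R639.CT.Defs

/-!
Points of the boundary of `H` which are mapped by the Cannon-Thurston map to non-conical points are
limits of elements of relatively small length in `G`.
-/

set_option autoImplicit false
set_option linter.unusedSectionVars false

namespace Pool.Agent.R639.CT

open Filter Topology Pool.Agent.H322R3.Hyp

variable {H G : Type*} [Group H] [Group G] {T : Set H} {S : Set G}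

/-- The shadow of `g`: the boundary points `p` with `(p | g) ≥ |g| - δ`. -/
def Sh (T : Set H) (δ : ℝ) (g : H) : Set (Boundary T) :=
  {p | ∃ x : InfSeq T, bmk T x = p ∧ ∃ N : ℕ, ∀ i, N ≤ i →
    (wlen T g : ℝ) - δ ≤ gprod T 1 (x.1 i) g}

/-- `p` is in the shadow of elements which are short in `G`, relative to their length in `H`. -/
def Slow (T : Set H) (S : Set G) (ι : H →* G) (δ : ℝ) (p : Boundary T) : Prop :=
  ∀ ε : ℝ, 0 < ε → ∀ K : ℕ, ∃ g : H, K ≤ wlen T g ∧ (wlen S (ι g) : ℝ) ≤ ε * wlen T g ∧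
    p ∈ Sh T δ g

lemma convTo_mk (x : InfSeq S) : ConvTo S x.1 (bmk S x) := ⟨x, rfl, rfl⟩

lemma convTo_mk' {x : ℕ → G} (h : ConvInf S x) : ∃ y : InfSeq S, y.1 = x := ⟨⟨x, h⟩, rfl⟩

lemma ConvTo.tendsto (hS : Subgroup.closure S = ⊤) {δ : ℝ} (hδ0 : 0 ≤ δ)
    (hδ : ∀ x y z : G, min (gprod S 1 x y) (gprod S 1 y z) - δ ≤ gprod S 1 x z)
    {x y : ℕ → G} {z : Boundary S} (hx : ConvTo S x z) (hy : ConvTo S y z) :
    ∀ M : ℝ, ∃ N : ℕ, ∀ i j, N ≤ i → N ≤ j → M ≤ gprod S 1 (x i) (y j) := by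
  obtain ⟨x', rfl, hx2⟩ := hx
  obtain ⟨y', rfl, hy2⟩ := hy
  exact (bequiv_def _ _).1 ((bmk_eq_iff hS hδ0 hδ _ _).1 (hx2.trans hy2.symm))

lemma ConvTo.of_tendsto (hS : Subgroup.closure S = ⊤) {δ : ℝ} (hδ0 : 0 ≤ δ)
    (hδ : ∀ x y z : G, min (gprod S 1 x y) (gprod S 1 y z) - δ ≤ gprod S 1 x z)
    {x y : ℕ → G} {z : Boundary S} (hx : ConvTo S x z)
    (h : ∀ M : ℝ, ∃ N : ℕ, ∀ i j, N ≤ i → N ≤ j → M ≤ gprod S 1 (y i) (x j)) :
    ConvTo S y z := by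
  obtain ⟨x', rfl, hx2⟩ := hx
  have hc : ConvInf S y := by
    unfold ConvInf
    rw [tendsto_pair_iff (fun i j => gprod S 1 (y i) (y j))]
    intro M
    obtain ⟨N, hN⟩ := h (M + δ)
    refine ⟨N, fun i j hi hj => ?_⟩
    have := hyp3 hδ (hN i N hi le_rfl) (by rw [gprod_symm hS]; exact hN j N hj le_rfl)
    linarith
  obtain ⟨y', rfl⟩ := convTo_mk' hc
  refine ⟨y', rfl, ?_⟩
  rw [← hx2, bmk_eq_iff hS hδ0 hδ, bequiv_def]
  exact h

lemma ConvTo.unique (hS : Subgroup.closure S = ⊤) {δ : ℝ} (hδ0 : 0 ≤ δ)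
    (hδ : ∀ x y z : G, min (gprod S 1 x y) (gprod S 1 y z) - δ ≤ gprod S 1 x z)
    {x y : ℕ → G} {z w : Boundary S} (hx : ConvTo S x z) (hy : ConvTo S y w)
    (h : ∀ M : ℝ, ∃ N : ℕ, ∀ i j, N ≤ i → N ≤ j → M ≤ gprod S 1 (y i) (x j)) :
    w = z := by
  obtain ⟨x', rfl, hx2⟩ := hx
  obtain ⟨y', rfl, hy2⟩ := hy
  rw [← hx2, ← hy2, bmk_eq_iff hS hδ0 hδ, bequiv_def]
  exact h

lemma wlen_prod_le (hS : Subgroup.closure S = ⊤) (L : ℕ) (l : List G)
    (hl : ∀ x ∈ l, wlen S x ≤ L) : wlen S l.prod ≤ L * l.length := by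
  induction l with
  | nil => simp [wlen_one]
  | cons a l ih =>
    have h1 := wlen_mul_le hS a l.prod
    have h2 := ih (fun x hx => hl x (List.mem_cons_of_mem _ hx))
    have h3 := hl a (List.mem_cons_self)
    rw [List.prod_cons, List.length_cons, mul_add, mul_one]
    omega

lemma exists_L (hT : Subgroup.closure T = ⊤) (hTfin : T.Finite) (hS : Subgroup.closure S = ⊤)
    (ι : H →* G) : ∃ L : ℕ, ∀ h : H, wlen S (ι h) ≤ L * wlen T h := by
  obtain ⟨L, hL⟩ := (hTfin.image (fun t => wlen S (ι t))).bddAbove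
  refine ⟨L, fun h => ?_⟩
  obtain ⟨l, hl1, hl2, hl3⟩ := wlen_spec hT h
  have h1 := wlen_prod_le hS L (l.map ι) (by
    intro x hx
    obtain ⟨y, hy, rfl⟩ := List.mem_map.1 hx
    rcases hl2 y hy with h | h
    · exact hL ⟨y, h, rfl⟩
    · have := hL ⟨y⁻¹, h, rfl⟩
      simp only [map_inv, wlen_inv hS] at this
      exact this)
  rw [← map_list_prod, hl3, List.length_map, hl1] at h1
  exact h1

section main

variable (hT : Subgroup.closure T = ⊤) {δH : ℝ} (hδH0 : 0 ≤ δH)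
  (hδH : ∀ x y z : H, min (gprod T 1 x y) (gprod T 1 y z) - δH ≤ gprod T 1 x z)
  (hS : Subgroup.closure S = ⊤) {δ : ℝ} (hδ0 : 0 ≤ δ)
  (hδ : ∀ x y z : G, min (gprod S 1 x y) (gprod S 1 y z) - δ ≤ gprod S 1 x z)

include hT hδH0 hδH hS hδ0 hδ

/-- Either `p` is slow or the path to `p` comes infinitely often close to the geodesic rays to
`f p`. -/
lemma dichotomy (hTfin : T.Finite) (ι : H →* G) {f : Boundary T → Boundary S}
    (hf : IsCannonThurston T S ι f) (x : InfSeq T) (xs : InfSeq S)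
    (hxs : bmk S xs = f (bmk T x)) :
    Slow T S ι δH (bmk T x) ∨
    ∃ g : ℕ → H, (∀ k, wlen T (g k) = k) ∧
      (∀ k : ℕ, ∃ N : ℕ, ∀ i, N ≤ i → (k : ℝ) - δH ≤ gprod T 1 (x.1 i) (g k)) ∧
      (∀ M : ℝ, ∃ N : ℕ, ∀ i j, N ≤ i → N ≤ j → M ≤ gprod S 1 (ι (g i)) (xs.1 j)) ∧
      ∃ R : ℝ, 0 ≤ R ∧ ∀ K : ℕ, ∃ k, K ≤ k ∧ (wlen S (ι (g k)) : ℝ) - R ≤ ff xs (ι (g k)) := by
  by_cases hslow : Slow T S ι δH (bmk T x)
  · exact Or.inl hslow
  right
  unfold Slow at hslow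
  push Not at hslow
  obtain ⟨ε, hε, K0, hK0⟩ := hslow
  choose g hg1 hg2 using fun k => approach hT hδH0 hδH x k
  -- g is a sequence converging to p
  have hgx : ∀ M : ℝ, ∃ N : ℕ, ∀ i j, N ≤ i → N ≤ j → M ≤ gprod T 1 (g i) (x.1 j) := by
    intro M
    obtain ⟨N, hN⟩ := (bequiv_def x x).1 x.2 (M + δH)
    obtain ⟨K, hK⟩ := exists_nat_ge (M + 2 * δH)
    refine ⟨max N K, fun i j hi hj => ?_⟩
    obtain ⟨N', hN'⟩ := hg2 i
    have h1 := hN' (max N N') (le_max_right _ _)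
    have h2 := hN (max N N') j (le_max_left _ _) ((le_max_left _ _).trans hj)
    have h3 : (K : ℝ) ≤ i := by exact_mod_cast (le_max_right _ _).trans hi
    have := hyp3 hδH (x := g i) (y := x.1 (max N N')) (z := x.1 j) (M := M + δH)
      (by rw [gprod_symm hT]; linarith) h2
    linarith
  have hgc : ConvTo T g (bmk T x) := (convTo_mk x).of_tendsto hT hδH0 hδH hgx
  have hP : ∀ M : ℝ, ∃ N : ℕ, ∀ i j, N ≤ i → N ≤ j → M ≤ gprod S 1 (ι (g i)) (xs.1 j) := by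
    have h3 := convTo_mk xs
    rw [hxs] at h3
    exact (hf.tendsto g _ hgc).tendsto hS hδ0 hδ h3
  refine ⟨g, hg1, hg2, hP, ?_⟩
  -- bounded jumps
  obtain ⟨L, hL⟩ := exists_L hT hTfin hS ι
  have hjump : ∀ k, (wlen S ((ι (g k))⁻¹ * ι (g (k + 1))) : ℝ) ≤ L * (1 + 4 * δH) := by
    intro k
    have e : (ι (g k))⁻¹ * ι (g (k + 1)) = ι ((g k)⁻¹ * g (k + 1)) := by simp
    rw [e]
    have h3 : (wlen S (ι ((g k)⁻¹ * g (k + 1))) : ℝ) ≤ L * wlen T ((g k)⁻¹ * g (k + 1)) := by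
      exact_mod_cast hL _
    have h4 : (wlen T ((g k)⁻¹ * g (k + 1)) : ℝ) ≤ 1 + 4 * δH := by
      obtain ⟨N1, hN1⟩ := hg2 k
      obtain ⟨N2, hN2⟩ := hg2 (k + 1)
      have a1 := hN1 (max N1 N2) (le_max_left _ _)
      have a2 := hN2 (max N1 N2) (le_max_right _ _)
      push_cast at a2
      have a3 := hyp3 hδH (x := g k) (y := x.1 (max N1 N2)) (z := g (k + 1)) (M := (k : ℝ) - δH)
        (by rw [gprod_symm hT]; linarith) (by linarith)
      rw [gprod_one hT, hg1, hg1] at a3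
      push_cast at a3
      linarith
    exact h3.trans (mul_le_mul_of_nonneg_left h4 (by positivity))
  obtain ⟨R, hR⟩ := near hS hδ0 hδ xs (fun k => ι (g k)) (L * (1 + 4 * δH)) hjump hP ε hε K0 (by
    intro k hk
    have := hK0 (g k) (by rw [hg1]; exact hk)
    by_contra hcon
    push Not at hcon
    apply this
    · rw [hg1]; exact hcon.le
    · refine ⟨x, rfl, ?_⟩
      rw [hg1]
      exact hg2 k)
  refine ⟨max R 0, le_max_right _ _, fun K => ?_⟩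
  obtain ⟨k, hk1, hk2⟩ := hR K
  refine ⟨k, hk1, ?_⟩
  have := le_max_left R 0
  linarith

/-- non-slow points are mapped to conical points (geometric definition) -/
lemma conical_of_not_slow (hTfin : T.Finite) (hSfin : S.Finite) (ι : H →* G)
    (hι : Function.Injective ι) {f : Boundary T → Boundary S}
    (hf : IsCannonThurston T S ι f) (p : Boundary T) (hp : ¬ Slow T S ι δH p) :
    IsConical S (Set.range ι) (f p) := by
  obtain ⟨x, rfl⟩ : ∃ x : InfSeq T, bmk T x = p := Quot.exists_rep p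
  obtain ⟨xs, hxs⟩ : ∃ xs : InfSeq S, bmk S xs = f (bmk T x) := Quot.exists_rep _
  rcases dichotomy hT hδH0 hδH hS hδ0 hδ hTfin ι hf x xs hxs with h | ⟨g, hg1, -, -, R, hR0, hR⟩
  · exact absurd h hp
  obtain ⟨γ, hγ1, hγ2, hγ3⟩ := exists_ray hS hδ0 hδ hSfin xs
  have hγγ : ∀ i j : ℕ, i ≤ j → gprod S 1 (γ i) (γ j) = i := by
    intro i j hij
    rw [gprod_one hS, hγ2, hγ2, hγ1 i j hij, Nat.cast_sub hij]
    ring
  refine ⟨γ, hγ1, ?_, ⌈2 * R + 8 * δ⌉₊, ?_⟩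
  · rw [← hxs]
    refine (convTo_mk xs).of_tendsto hS hδ0 hδ ?_
    intro M
    obtain ⟨K, hK⟩ := exists_nat_ge (M + 2 * δ)
    obtain ⟨N, hN⟩ := hγ3 K
    refine ⟨max N K, fun i j hi hj => ?_⟩
    have a1 := hN j ((le_max_left _ _).trans hj)
    have a2 := hγγ K i ((le_max_right _ _).trans hi)
    have := hyp3 hδ (x := γ i) (y := γ K) (z := xs.1 j) (M := (K : ℝ) - δ)
      (by rw [gprod_symm hS, a2]; linarith) (by rw [gprod_symm hS]; exact a1)
    linarith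
  · -- infinitely many elements
    have hinf : {k : ℕ | (wlen S (ι (g k)) : ℝ) - R ≤ ff xs (ι (g k))}.Infinite := by
      rw [Set.infinite_iff_exists_gt]
      intro K
      obtain ⟨k, hk1, hk2⟩ := hR (K + 1)
      exact ⟨k, hk2, by omega⟩
    have hinj : Function.Injective (fun k => ι (g k)) := by
      intro i j hij
      have := hι hij
      rw [← hg1 i, ← hg1 j, this]
    apply (hinf.image hinj.injOn).mono
    rintro _ ⟨k, hk, rfl⟩
    refine ⟨⟨g k, rfl⟩, wlen S (ι (g k)), ?_⟩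
    set n := wlen S (ι (g k)) with hn
    have hk' : (n : ℝ) - R ≤ ff xs (ι (g k)) := hk
    have a1 := ff_of_approach hS hδ0 hδ xs (γ n) (hγ3 n)
    have a2 := ff_min hS hδ0 hδ xs (γ n) (ι (g k)) (M := (n : ℝ) - 2 * δ - R)
      (by linarith) (by linarith)
    rw [gprod_one hS, hγ2, ← hn] at a2
    have a3 : (wlen S ((γ n)⁻¹ * ι (g k)) : ℝ) ≤ 2 * R + 8 * δ := by linarith
    have a4 := a3.trans (Nat.le_ceil _)
    exact_mod_cast a4

/-- Points with another point in the same fibre of the Cannon-Thurston map are slow. -/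
lemma slow_of_fibre (hTfin : T.Finite) (ι : H →* G) {f : Boundary T → Boundary S}
    (hf : IsCannonThurston T S ι f) (p q : Boundary T) (hpq : p ≠ q) (hfpq : f p = f q) :
    Slow T S ι δH p := by
  obtain ⟨x, rfl⟩ : ∃ x : InfSeq T, bmk T x = p := Quot.exists_rep p
  obtain ⟨y, rfl⟩ : ∃ y : InfSeq T, bmk T y = q := Quot.exists_rep q
  obtain ⟨xs, hxs1, hxs⟩ := hf.tendsto x.1 _ (convTo_mk x)
  obtain ⟨ys, hys1, hys⟩ := hf.tendsto y.1 _ (convTo_mk y)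
  rcases dichotomy hT hδH0 hδH hS hδ0 hδ hTfin ι hf x xs hxs with h | ⟨g, hg1, hg2, hg3, R, hR0, hR⟩
  · exact h
  exfalso
  -- bounds in `H`
  have hne : ¬ BEquiv T x y := fun h => hpq ((bmk_eq_iff hT hδH0 hδH x y).2 h)
  obtain ⟨M, N, hN⟩ := bounded_of_ne hT hδH0 hδH hne
  -- choose a subsequence
  choose κ hκ1 hκ2 using hR
  set h : ℕ → H := fun j => g (κ j) with hh
  have hlen : ∀ j : ℕ, (j : ℝ) ≤ wlen T (h j) := by
    intro j
    have h1 : wlen T (h j) = κ j := hg1 _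
    rw [h1]
    exact_mod_cast hκ1 j
  -- `(y l | h j)` is bounded by `M + δH` for large `j`, `l`
  have hyh : ∀ j l : ℕ, M + 2 * δH + 1 ≤ κ j → N ≤ l → gprod T 1 (y.1 l) (h j) ≤ M + δH := by
    intro j l hj hl
    by_contra hcon
    push Not at hcon
    obtain ⟨N', hN'⟩ := hg2 (κ j)
    have a1 := hN' (max N N') (le_max_right _ _)
    have a2 := hN (max N N') l (le_max_left _ _) hl
    have a3 : min (κ j - δH) (gprod T 1 (y.1 l) (h j)) - δH ≤ gprod T 1 (x.1 (max N N')) (y.1 l) := by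
      apply hyp3 hδH (y := h j)
      · exact (min_le_left _ _).trans a1
      · rw [gprod_symm hT]; exact min_le_right _ _
    have a4 : M + δH < min (κ j - δH) (gprod T 1 (y.1 l) (h j)) := lt_min (by linarith) hcon
    linarith
  -- choose `l j`
  have hl : ∀ j : ℕ, ∃ l : ℕ, N ≤ l ∧ (wlen S (ι (h j)) : ℝ) - R - 2 * δ ≤
      gprod S 1 (ι (y.1 l)) (ι (h j)) := by
    intro j
    have hxy : BEquiv S xs ys := by
      rw [← bmk_eq_iff hS hδ0 hδ, hxs, hys, hfpq]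
    obtain ⟨N1, hN1⟩ := (bequiv_def _ _).1 hxy (wlen S (ι (h j)))
    obtain ⟨N2, hN2⟩ := ff_spec hS hδ0 hδ xs (ι (h j))
    set l := max N (max N1 N2) with hl
    have l0 : N ≤ l := le_max_left _ _
    have l1 : N1 ≤ l := (le_max_left _ _).trans (le_max_right _ _)
    have l2 : N2 ≤ l := (le_max_right _ _).trans (le_max_right _ _)
    refine ⟨l, l0, ?_⟩
    have a1 := hN1 l l l1 l1
    have a2 := (hN2 l l2).1
    have a3 : (wlen S (ι (h j)) : ℝ) - R ≤ ff xs (ι (h j)) := hκ2 j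
    have := hyp3 hδ (x := ys.1 l) (y := xs.1 l) (z := ι (h j))
      (M := (wlen S (ι (h j)) : ℝ) - R - δ) (by rw [gprod_symm hS]; linarith)
      (by linarith)
    have e : ys.1 l = ι (y.1 l) := by rw [hys1]
    rw [e] at this
    linarith
  choose l hl1 hl2 using hl
  -- the sequences `h j⁻¹` and `e j`
  have hlen' : ∀ M : ℝ, ∃ N : ℕ, ∀ k, N ≤ k → M ≤ wlen T ((h k)⁻¹) := by
    intro M
    obtain ⟨K, hK⟩ := exists_nat_ge M
    refine ⟨K, fun k hk => ?_⟩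
    rw [wlen_inv hT]
    have : (K : ℝ) ≤ k := by exact_mod_cast hk
    linarith [hlen k]
  obtain ⟨ψ, hψ, hcψ⟩ := extract' hT hδH0 hδH hTfin (fun j => (h j)⁻¹) hlen'
  obtain ⟨b, hb⟩ := convTo_mk' hcψ
  have heb : ∀ A : ℝ, ∃ K : ℕ, ∀ k, K ≤ k →
      A ≤ gprod T 1 ((h (ψ k))⁻¹ * y.1 (l (ψ k))) ((h (ψ k))⁻¹) := by
    intro A
    obtain ⟨K, hK⟩ := exists_nat_ge (max (A + M + δH) (M + 2 * δH + 1))
    refine ⟨K, fun k hk => ?_⟩
    have h1 : (K : ℝ) ≤ ψ k := by exact_mod_cast hk.trans (hψ.id_le k)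
    have h2 := hlen (ψ k)
    have h3 : (ψ k : ℝ) ≤ κ (ψ k) := by exact_mod_cast hκ1 (ψ k)
    have h4 := hyh (ψ k) (l (ψ k)) (by linarith [le_max_right (A + M + δH) (M + 2 * δH + 1)])
      (hl1 _)
    have e : gprod T 1 ((h (ψ k))⁻¹ * y.1 (l (ψ k))) ((h (ψ k))⁻¹) =
        gprod T 1 ((h (ψ k))⁻¹ * y.1 (l (ψ k))) ((h (ψ k))⁻¹ * 1) := by rw [mul_one]
    rw [e, gprod_change hT]
    have e1 : gprod T 1 1 (h (ψ k)) = 0 := by rw [gprod_one hT]; simp [wlen_one]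
    have e2 : gprod T 1 (y.1 (l (ψ k))) 1 = 0 := by
      rw [gprod_one hT]; simp [wlen_one, wlen_inv hT]
    rw [e1, e2]
    linarith [le_max_left (A + M + δH) (M + 2 * δH + 1)]
  -- `e` converges to the same point as `b`
  have hce : ∀ A : ℝ, ∃ K : ℕ, ∀ i j, K ≤ i → K ≤ j →
      A ≤ gprod T 1 ((h (ψ i))⁻¹ * y.1 (l (ψ i))) ((h (ψ j))⁻¹) := by
    intro A
    obtain ⟨K1, hK1⟩ := heb (A + δH)
    obtain ⟨K2, hK2⟩ := (bequiv_def b b).1 b.2 (A + δH)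
    refine ⟨max K1 K2, fun i j hi hj => ?_⟩
    have h1 := hK2 i j ((le_max_right _ _).trans hi) ((le_max_right _ _).trans hj)
    rw [hb] at h1
    have := hyp3 hδH (hK1 i ((le_max_left _ _).trans hi)) h1
    linarith
  have hcb : ConvTo T (fun k => (h (ψ k))⁻¹) (bmk T b) := ⟨b, hb, rfl⟩
  have hce' : ConvTo T (fun i => (h (ψ i))⁻¹ * y.1 (l (ψ i))) (bmk T b) :=
    hcb.of_tendsto hT hδH0 hδH hce
  obtain ⟨K, hK⟩ := (hf.tendsto _ _ hce').tendsto hS hδ0 hδ (hf.tendsto _ _ hcb) (R + 2 * δ + 1)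
  have h6 := hK K K le_rfl le_rfl
  have h7 : R + 2 * δ + 1 ≤ gprod S 1 ((ι (h (ψ K)))⁻¹ * ι (y.1 (l (ψ K))))
      ((ι (h (ψ K)))⁻¹ * 1) := by
    have e1 : ι ((h (ψ K))⁻¹ * y.1 (l (ψ K))) = (ι (h (ψ K)))⁻¹ * ι (y.1 (l (ψ K))) := by
      simp
    have e2 : ι ((h (ψ K))⁻¹) = (ι (h (ψ K)))⁻¹ * 1 := by simp
    rw [← e1, ← e2]
    exact h6
  rw [gprod_change hS] at h7
  have e1 : gprod S 1 1 (ι (h (ψ K))) = 0 := by rw [gprod_one hS]; simp [wlen_one]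
  have e2 : gprod S 1 (ι (y.1 (l (ψ K)))) 1 = 0 := by
    rw [gprod_one hS]; simp [wlen_one, wlen_inv hS]
  rw [e1, e2] at h7
  have h8 := hl2 (ψ K)
  linarith

end main

end Pool.Agent.R639.CT
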