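import Mathlib
import Pool.Agent.R639.CT.Zero

/-!
Points of `∂H` that are not slow are mapped to conical points in the dynamical sense.
-/

set_option autoImplicit false
set_option linter.unusedSectionVars false

namespace Pool.Agent.R639.CT

open Filter Topology Pool.Agent.H322R3.Hyp

variable {H G : Type*} [Group H] [Group G] {T : Set H} {S : Set G}

lemma tendsto_of_bnhd {ξ : ℕ → Boundary S} {a : Boundary S}
    (h : ∀ r : ℝ, ∀ᶠ n in atTop, ξ n ∈ bnhd S a r) : Tendsto ξ atTop (𝓝 a) := by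
  rw [tendsto_nhds]
  intro s hs ha
  obtain ⟨r, hr⟩ : ∃ r : ℝ, bnhd S a r ⊆ s := hs a ha
  filter_upwards [h r] with n hn
  exact hr hn

section main

variable (hT : Subgroup.closure T = ⊤) {δH : ℝ} (hδH0 : 0 ≤ δH)
  (hδH : ∀ x y z : H, min (gprod T 1 x y) (gprod T 1 y z) - δH ≤ gprod T 1 x z)
  (hS : Subgroup.closure S = ⊤) {δ : ℝ} (hδ0 : 0 ≤ δ)
  (hδ : ∀ x y z : G, min (gprod S 1 x y) (gprod S 1 y z) - δ ≤ gprod S 1 x z)

include hS in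
lemma gprod_left_one (x : G) : gprod S 1 1 x = 0 := by
  rw [gprod_one hS]; simp [wlen_one]

include hS in
lemma gprod_right_one (x : G) : gprod S 1 x 1 = 0 := by
  rw [gprod_one hS]; simp [wlen_one, wlen_inv hS]

include hS in
lemma gprod_inv (v x : G) : gprod S 1 (v⁻¹ * x) v⁻¹ = wlen S v - gprod S 1 x v := by
  have e : gprod S 1 (v⁻¹ * x) v⁻¹ = gprod S 1 (v⁻¹ * x) (v⁻¹ * 1) := by rw [mul_one]
  rw [e, gprod_change hS, gprod_left_one hS, gprod_right_one hS]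
  ring

include hT hδH0 hδH hS hδ0 hδ

/-- non-slow points are mapped to conical points (dynamical definition) -/
lemma conicalDyn_of_not_slow (hTfin : T.Finite) (hSfin : S.Finite) (ι : H →* G)
    {f : Boundary T → Boundary S}
    (hf : IsCannonThurston T S ι f) (p : Boundary T) (hp : ¬ Slow T S ι δH p) :
    IsConicalDyn hS ι (f p) := by
  obtain ⟨x, rfl⟩ : ∃ x : InfSeq T, bmk T x = p := Quot.exists_rep p
  obtain ⟨xs, hxs⟩ : ∃ xs : InfSeq S, bmk S xs = f (bmk T x) := Quot.exists_rep _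
  rcases dichotomy hT hδH0 hδH hS hδ0 hδ hTfin ι hf x xs hxs with h | ⟨g, hg1, -, hP, R, hR0, hR⟩
  · exact absurd h hp
  choose κ hκ1 hκ2 using hR
  set v : ℕ → G := fun j => ι (g (κ j)) with hv
  -- `v j → z`
  have hvx : ∀ M : ℝ, ∃ N : ℕ, ∀ i j, N ≤ i → N ≤ j → M ≤ gprod S 1 (v i) (xs.1 j) := by
    intro M
    obtain ⟨N, hN⟩ := hP M
    exact ⟨N, fun i j hi hj => hN _ j (hi.trans (hκ1 i)) hj⟩
  have hvlen : ∀ M : ℝ, ∃ N : ℕ, ∀ k, N ≤ k → M ≤ wlen S ((v k)⁻¹) := by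
    intro M
    obtain ⟨N, hN⟩ := hvx M
    refine ⟨N, fun k hk => ?_⟩
    rw [wlen_inv hS]
    exact (hN k k hk hk).trans (gprod_le_left hS _ _)
  obtain ⟨ψ, hψ, hcψ⟩ := extract' hS hδ0 hδ hSfin (fun j => (v j)⁻¹) hvlen
  -- the points `u j`
  have hu : ∀ j : ℕ, ∃ i0 : ℕ, ∀ i, i0 ≤ i →
      (j : ℝ) ≤ gprod S 1 ((v j)⁻¹ * xs.1 i) ((v j)⁻¹ * xs.1 i0) ∧
      gprod S 1 ((v j)⁻¹ * xs.1 i) ((v j)⁻¹) ≤ R + δ := by
    intro j
    obtain ⟨N1, hN1⟩ := (bequiv_def _ _).1 (translate hS (v j)⁻¹ xs).2 j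
    obtain ⟨N2, hN2⟩ := ff_spec hS hδ0 hδ xs (v j)
    refine ⟨max N1 N2, fun i hi => ⟨?_, ?_⟩⟩
    · exact hN1 i (max N1 N2) ((le_max_left _ _).trans hi) (le_max_left _ _)
    · rw [gprod_inv hS]
      have h1 := (hN2 i ((le_max_right _ _).trans hi)).1
      have h2 : (wlen S (v j) : ℝ) - R ≤ ff xs (v j) := hκ2 j
      linarith
  choose i0 hi0 using hu
  have hulen : ∀ M : ℝ, ∃ N : ℕ, ∀ k, N ≤ k → M ≤ wlen S ((v (ψ k))⁻¹ * xs.1 (i0 (ψ k))) := by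
    intro M
    obtain ⟨K, hK⟩ := exists_nat_ge M
    refine ⟨K, fun k hk => ?_⟩
    have h1 := (hi0 (ψ k) (i0 (ψ k)) le_rfl).1
    rw [gprod_self hS] at h1
    have h2 : (K : ℝ) ≤ ψ k := by exact_mod_cast hk.trans (hψ.id_le k)
    linarith
  obtain ⟨χ, hχ, hcχ⟩ := extract' hS hδ0 hδ hSfin
    (fun k => (v (ψ k))⁻¹ * xs.1 (i0 (ψ k))) hulen
  obtain ⟨A, hA⟩ := convTo_mk' hcχ
  have hcψχ : ConvInf S (fun k => (v (ψ (χ k)))⁻¹) := by
    unfold ConvInf at hcψ ⊢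
    rw [tendsto_pair_iff (fun i j => gprod S 1 ((v (ψ i))⁻¹) ((v (ψ j))⁻¹))] at hcψ
    rw [tendsto_pair_iff (fun i j => gprod S 1 ((v (ψ (χ i)))⁻¹) ((v (ψ (χ j)))⁻¹))]
    intro M
    obtain ⟨N, hN⟩ := hcψ M
    exact ⟨N, fun i j hi hj => hN _ _ (hi.trans (hχ.id_le i)) (hj.trans (hχ.id_le j))⟩
  obtain ⟨B, hB⟩ := convTo_mk' hcψχ
  have hAc : ConvTo S (fun k => (v (ψ (χ k)))⁻¹ * xs.1 (i0 (ψ (χ k)))) (bmk S A) := ⟨A, hA, rfl⟩
  have hBc : ConvTo S (fun k => (v (ψ (χ k)))⁻¹) (bmk S B) := ⟨B, hB, rfl⟩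
  have hAA : ∀ M : ℝ, ∃ N : ℕ, ∀ i j, N ≤ i → N ≤ j →
      M ≤ gprod S 1 ((v (ψ (χ i)))⁻¹ * xs.1 (i0 (ψ (χ i))))
        ((v (ψ (χ j)))⁻¹ * xs.1 (i0 (ψ (χ j)))) := hAc.tendsto hS hδ0 hδ hAc
  have hBB : ∀ M : ℝ, ∃ N : ℕ, ∀ i j, N ≤ i → N ≤ j →
      M ≤ gprod S 1 ((v (ψ (χ i)))⁻¹) ((v (ψ (χ j)))⁻¹) := hBc.tendsto hS hδ0 hδ hBc
  refine ⟨fun k => (g (κ (ψ (χ k))))⁻¹, bmk S A, bmk S B, ?_, ?_, ?_⟩
  · -- `a ≠ b`
    intro hAB
    rw [hAB] at hAc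
    obtain ⟨N, hN⟩ := hAc.tendsto hS hδ0 hδ hBc (R + δ + 1)
    have h1 := hN N N le_rfl le_rfl
    have h2 := (hi0 (ψ (χ N)) (i0 (ψ (χ N))) le_rfl).2
    linarith
  · -- `h n • z → a`
    apply tendsto_of_bnhd
    intro r
    obtain ⟨N, hN⟩ := hAA (r + δ)
    obtain ⟨K, hK⟩ := exists_nat_ge (r + δ)
    filter_upwards [eventually_ge_atTop (max N K)] with k hk
    have e : bsmul hS (ι (g (κ (ψ (χ k))))⁻¹) (f (bmk T x)) =
        bmk S (translate hS (v (ψ (χ k)))⁻¹ xs) := by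
      rw [← hxs, map_inv]; rfl
    rw [e]
    refine ⟨A, translate hS (v (ψ (χ k)))⁻¹ xs, rfl, rfl, max N (i0 (ψ (χ k))), fun i j hi hj => ?_⟩
    have h1 := hN i k ((le_max_left _ _).trans hi) ((le_max_left _ _).trans hk)
    have h2 := (hi0 (ψ (χ k)) j ((le_max_right _ _).trans hj)).1
    have h3 : (K : ℝ) ≤ ψ (χ k) := by
      exact_mod_cast ((le_max_right _ _).trans hk).trans ((hχ.id_le k).trans (hψ.id_le _))
    have h4 := hyp3 hδ (M := r + δ) h1 (by rw [gprod_symm hS]; linarith)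
    rw [hA]
    have e2 : (translate hS (v (ψ (χ k)))⁻¹ xs).1 j = (v (ψ (χ k)))⁻¹ * xs.1 j := rfl
    rw [e2]
    linarith
  · -- `h n • y → b`
    intro y hy
    obtain ⟨y, rfl⟩ : ∃ y' : InfSeq S, bmk S y' = y := Quot.exists_rep y
    have hne : ¬ BEquiv S xs y := by
      intro h
      apply hy
      rw [← hxs, bmk_eq_iff hS hδ0 hδ]
      exact (bequiv_equivalence hS hδ0 hδ).symm h
    obtain ⟨M, N, hN⟩ := bounded_of_ne hS hδ0 hδ hne
    obtain ⟨N1, hN1⟩ := hvx (M + 2 * δ + 1)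
    apply tendsto_of_bnhd
    intro r
    obtain ⟨N2, hN2⟩ := hBB (r + δ)
    obtain ⟨N3, hN3⟩ := hvlen (M + r + 2 * δ)
    filter_upwards [eventually_ge_atTop (max N1 (max N2 N3))] with k hk
    have k1 : N1 ≤ k := (le_max_left _ _).trans hk
    have k2 : N2 ≤ k := ((le_max_left _ _).trans (le_max_right _ _)).trans hk
    have k3 : N3 ≤ k := ((le_max_right _ _).trans (le_max_right _ _)).trans hk
    have hkk : k ≤ ψ (χ k) := (hχ.id_le k).trans (hψ.id_le _)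
    have e : bsmul hS (ι (g (κ (ψ (χ k))))⁻¹) (bmk S y) =
        bmk S (translate hS (v (ψ (χ k)))⁻¹ y) := by
      rw [map_inv]; rfl
    rw [e]
    refine ⟨B, translate hS (v (ψ (χ k)))⁻¹ y, rfl, rfl, max N N2, fun i j hi hj => ?_⟩
    have h1 := hN2 i k ((le_max_right _ _).trans hi) k2
    -- `(y j | v k) ≤ M + δ`
    have h2 : gprod S 1 (y.1 j) (v (ψ (χ k))) ≤ M + δ := by
      by_contra hcon
      push Not at hcon
      have a1 := hN1 (ψ (χ k)) (max N N1) (k1.trans hkk) (le_max_right _ _)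
      have a2 := hN (max N N1) j (le_max_left _ _) ((le_max_left _ _).trans hj)
      have a3 : min (M + 2 * δ + 1) (gprod S 1 (y.1 j) (v (ψ (χ k)))) - δ ≤
          gprod S 1 (xs.1 (max N N1)) (y.1 j) := by
        apply hyp3 hδ (y := v (ψ (χ k)))
        · exact (min_le_left _ _).trans (a1.trans (gprod_symm hS _ _).le)
        · exact (min_le_right _ _).trans (gprod_symm hS _ _).le
      have a4 : M + δ < min (M + 2 * δ + 1) (gprod S 1 (y.1 j) (v (ψ (χ k)))) :=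
        lt_min (by linarith) hcon
      linarith
    have h3 := hN3 (ψ (χ k)) (k3.trans hkk)
    rw [wlen_inv hS] at h3
    have h4 := gprod_inv hS (v (ψ (χ k))) (y.1 j)
    have h5 := hyp3 hδ (x := (v (ψ (χ i)))⁻¹) (y := (v (ψ (χ k)))⁻¹)
      (z := (v (ψ (χ k)))⁻¹ * y.1 j) (M := r + δ) h1 (by rw [gprod_symm hS, h4]; linarith)
    rw [hB]
    have e2 : (translate hS (v (ψ (χ k)))⁻¹ y).1 j = (v (ψ (χ k)))⁻¹ * y.1 j := rfl
    rw [e2]
    linarith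

end main

end Pool.Agent.R639.CT
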