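import Mathlib
import Pool.Agent.R639.CT.Zero

/-!
The word metric of a free group: Gromov products are lengths of common prefixes (initial segments).
-/

set_option autoImplicit false
set_option linter.unusedSectionVars false

namespace Pool.Agent.R639.CT

open Filter Topology Pool.Agent.H322R3.Hyp FreeGroup

/-- length of the longest common initial segment -/
def lcp {β : Type*} [DecidableEq β] : List β → List β → ℕ
  | a :: l, b :: m => if a = b then lcp l m + 1 else 0
  | _, _ => 0

section lists

variable {β : Type*} [DecidableEq β]

lemma lcp_nil_left (l : List β) : lcp [] l = 0 := by cases l <;> rfl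

lemma lcp_nil_right (l : List β) : lcp l [] = 0 := by cases l <;> rfl

lemma lcp_cons_cons (a b : β) (l m : List β) :
    lcp (a :: l) (b :: m) = if a = b then lcp l m + 1 else 0 := rfl

lemma lcp_ultra (l m n : List β) : min (lcp l m) (lcp m n) ≤ lcp l n := by
  induction l generalizing m n with
  | nil => simp [lcp_nil_left]
  | cons a l ih =>
    cases m with
    | nil => simp [lcp_nil_left, lcp_nil_right]
    | cons b m =>
      cases n with
      | nil => simp [lcp_nil_right]
      | cons c n =>
        simp only [lcp_cons_cons]
        by_cases h1 : a = b
        · by_cases h2 : b = c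
          · subst h1 h2
            simp only [if_true]
            have := ih m n
            omega
          · simp [h2]
        · simp [h1]

lemma lcp_le_left (l m : List β) : lcp l m ≤ l.length := by
  induction l generalizing m with
  | nil => simp [lcp_nil_left]
  | cons a l ih =>
    cases m with
    | nil => simp [lcp_nil_right]
    | cons b m =>
      rw [lcp_cons_cons]
      split
      · have := ih m
        simp only [List.length_cons]
        omega
      · exact Nat.zero_le _

lemma lcp_append (l m : List β) : lcp (l ++ m) l = l.length := by
  induction l with
  | nil => simp [lcp_nil_right]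
  | cons a l ih => simp [lcp_cons_cons, ih]

lemma take_of_lcp (l m : List β) (h : m.length ≤ lcp l m) : l.take m.length = m := by
  induction m generalizing l with
  | nil => simp
  | cons b m ih =>
    cases l with
    | nil => simp [lcp_nil_left] at h
    | cons a l =>
      rw [lcp_cons_cons] at h
      split at h
      · next hab =>
        subst hab
        simp only [List.length_cons, List.take_succ_cons]
        rw [ih l (by simpa using h)]
      · simp at h

end lists

variable {α : Type*} [DecidableEq α]

lemma isReduced_invRev {l : List (α × Bool)} (h : IsReduced l) : IsReduced (invRev l) := by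
  apply IsReduced.of_reduce_eq
  rw [reduce_invRev, h.reduce_eq]

lemma reduce_invRev_append (l m : List (α × Bool)) (hl : IsReduced l) (hm : IsReduced m) :
    (reduce (invRev l ++ m)).length + 2 * lcp l m = l.length + m.length := by
  induction l generalizing m with
  | nil => simp [lcp_nil_left, hm.reduce_eq]
  | cons a l ih =>
    cases m with
    | nil =>
      rw [List.append_nil, (isReduced_invRev hl).reduce_eq, lcp_nil_right, invRev_length]
      simp
    | cons b m =>
      rw [lcp_cons_cons]
      by_cases hab : a = b
      · subst hab
        rw [if_pos rfl]
        have h1 : reduce (invRev (a :: l) ++ a :: m) = reduce (invRev l ++ m) := by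
          apply reduce.Step.eq
          rw [invRev_cons]
          have : invRev l ++ invRev [a] ++ a :: m = invRev l ++ (a.1, !a.2) :: (a.1, a.2) :: m := by
            simp [invRev]
          rw [this]
          exact Red.Step.not_rev
        rw [h1]
        have := ih m hl.tail hm.tail
        simp only [List.length_cons]
        omega
      · rw [if_neg hab]
        have h1 : IsReduced (invRev (a :: l) ++ b :: m) := by
          unfold FreeGroup.IsReduced
          rw [List.isChain_append]
          refine ⟨isReduced_invRev hl, hm, ?_⟩
          intro x hx y hy
          rw [invRev_cons] at hx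
          simp [invRev] at hx
          simp at hy
          subst hx hy
          intro h
          simp only at h ⊢
          by_contra hne
          apply hab
          ext
          · exact h
          · revert hne
            cases a.2 <;> cases b.2 <;> simp
        rw [h1.reduce_eq, List.length_append, invRev_length]
        simp

/-- word length in the free group -/
lemma wlen_free (g : FreeGroup α) : wlen (Set.range (FreeGroup.of : α → FreeGroup α)) g =
    g.toWord.length := by
  apply le_antisymm
  · have h : ((g.toWord.map (fun x : α × Bool => cond x.2 (of x.1) (of x.1)⁻¹)).prod) = g := by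
      conv_rhs => rw [← mk_toWord (x := g)]
      generalize g.toWord = l
      induction l with
      | nil => simp [one_eq_mk]
      | cons a l ih =>
        rw [List.map_cons, List.prod_cons, ih]
        obtain ⟨a, b⟩ := a
        cases b
        · simp only [cond_false]
          rw [of, inv_mk, mul_mk]
          simp [invRev]
        · simp only [cond_true]
          rw [of, mul_mk]
          simp
    have h2 := wlen_le (S := Set.range (FreeGroup.of : α → FreeGroup α))
      (g.toWord.map (fun x : α × Bool => cond x.2 (of x.1) (of x.1)⁻¹)) (by
      intro x hx
      obtain ⟨y, -, rfl⟩ := List.mem_map.1 hx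
      obtain ⟨a, b⟩ := y
      cases b
      · right; simp
      · left; simp)
    rw [h, List.length_map] at h2
    exact h2
  · have hS : Subgroup.closure (Set.range (FreeGroup.of : α → FreeGroup α)) = ⊤ :=
      FreeGroup.closure_range_of α
    obtain ⟨l, hl1, hl2, hl3⟩ := wlen_spec hS g
    rw [← hl1, ← hl3]
    clear hl1 hl3
    induction l with
    | nil => simp
    | cons a l ih =>
      have h1 := FreeGroup.norm_mul_le a l.prod
      have h2 := ih (fun x hx => hl2 x (List.mem_cons_of_mem _ hx))
      have h3 : FreeGroup.norm a ≤ 1 := by
        rcases hl2 a List.mem_cons_self with ⟨b, hb⟩ | ⟨b, hb⟩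
        · rw [← hb]; simp
        · rw [← norm_inv_eq, ← hb]; simp
      rw [List.prod_cons, List.length_cons]
      simp only [FreeGroup.norm] at h1 h3
      omega

lemma closure_free : Subgroup.closure (Set.range (FreeGroup.of : α → FreeGroup α)) = ⊤ :=
  FreeGroup.closure_range_of α

lemma gprod_free (x y : FreeGroup α) :
    gprod (Set.range (FreeGroup.of : α → FreeGroup α)) 1 x y = lcp x.toWord y.toWord := by
  rw [gprod_one closure_free, wlen_free, wlen_free, wlen_free, toWord_mul, toWord_inv]
  have h := reduce_invRev_append x.toWord y.toWord isReduced_toWord isReduced_toWord
  have h' : ((reduce (invRev x.toWord ++ y.toWord)).length : ℝ) + 2 * lcp x.toWord y.toWord =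
    x.toWord.length + y.toWord.length := by exact_mod_cast h
  linarith

lemma hyp_free (x y z : FreeGroup α) :
    min (gprod (Set.range (FreeGroup.of : α → FreeGroup α)) 1 x y)
      (gprod (Set.range (FreeGroup.of : α → FreeGroup α)) 1 y z) - 0 ≤
      gprod (Set.range (FreeGroup.of : α → FreeGroup α)) 1 x z := by
  rw [sub_zero, gprod_free, gprod_free, gprod_free]
  exact_mod_cast lcp_ultra _ _ _

lemma isHyperbolic_free : IsHyperbolic (Set.range (FreeGroup.of : α → FreeGroup α)) := by
  refine ⟨0, fun w x y z => ?_⟩
  rw [gprod_base closure_free w x y, gprod_base closure_free w y z, gprod_base closure_free w x z]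
  exact hyp_free _ _ _

end Pool.Agent.R639.CT
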