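import Mathlib
import Pool.Agent.R639.CT.Free
import Pool.Agent.R639.CT.Defs

/-!
Visual metrics on the boundary of a free group coming from geometric actions on trees: the shadows
of elements have exponentially small diameter.
-/

set_option autoImplicit false
set_option linter.unusedSectionVars false

namespace Pool.Agent.R639.CT

open Filter Topology Pool.Agent.H322R3.Hyp

section metric

variable {X : Type*} [MetricSpace X]

lemma gromovProd_symm (w x y : X) : gromovProd w x y = gromovProd w y x := by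
  unfold gromovProd; rw [dist_comm x y]; ring

lemma gromovProd_self (w x : X) : gromovProd w x x = dist x w := by
  unfold gromovProd; simp

lemma gromovProd_base (w x : X) : gromovProd w x w = 0 := by
  unfold gromovProd; simp

lemma gromovProd_ge (w x y : X) : dist x w - dist x y ≤ gromovProd w x y := by
  unfold gromovProd
  have := dist_triangle x y w
  linarith

lemma gromovProd_le (w x y : X) : gromovProd w x y ≤ dist y w := by
  unfold gromovProd
  have := dist_triangle x y w
  linarith

lemma gromovProd_lip (w x y z : X) : gromovProd w x y ≤ gromovProd w x z + dist y z := by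
  unfold gromovProd
  have h1 := dist_triangle y z w
  have h2 := dist_triangle x y z
  linarith

lemma gromovProd_add (o g x : X) : gromovProd o x g + gromovProd g o x = dist o g := by
  unfold gromovProd
  rw [dist_comm g o, dist_comm o x]; ring

/-- In a tree, the beginning of a path that leads from beyond the point at distance `M` in the
direction of `e` to the base point `w` passes close to this point. -/
lemma pass_near (hX : ∀ w x y z : X, min (gromovProd w x y) (gromovProd w y z) ≤ gromovProd w x z)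
    (y : ℕ → X) (C : ℝ) (k : ℕ) (hC : ∀ i, i < k → dist (y i) (y (i + 1)) ≤ C) (M : ℝ)
    (hM : 0 < M) (h0 : M ≤ gromovProd (y k) (y 0) (y 0)) :
    ∃ i, i ≤ k ∧ M - C ≤ gromovProd (y k) (y 0) (y i) ∧ dist (y i) (y k) ≤ M + C := by
  classical
  have hex : ∃ i, gromovProd (y k) (y 0) (y i) < M := ⟨k, by rw [gromovProd_base]; exact hM⟩
  have h1 := Nat.find_spec hex
  have hik : Nat.find hex ≤ k := Nat.find_min' hex (by rw [gromovProd_base]; exact hM)
  have h2 : Nat.find hex ≠ 0 := by
    intro h
    rw [h] at h1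
    linarith
  obtain ⟨i, hi⟩ := Nat.exists_eq_succ_of_ne_zero h2
  have h3 : M ≤ gromovProd (y k) (y 0) (y i) := by
    have := Nat.find_min hex (m := i) (by omega)
    push Not at this
    exact this
  rw [hi] at h1 hik
  have h4 := hX (y k) (y 0) (y i) (y (i + 1))
  have h5 : gromovProd (y k) (y i) (y (i + 1)) ≤ gromovProd (y k) (y 0) (y (i + 1)) := by
    rcases min_le_iff.1 h4 with h | h
    · exact absurd h1 (not_lt.2 (h3.trans h))
    · exact h
  have h6 := gromovProd_ge (y k) (y (i + 1)) (y i)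
  have h7 := hC i hik
  rw [gromovProd_symm (y k) (y (i + 1)) (y i), dist_comm (y (i + 1)) (y i)] at h6
  have h8 := gromovProd_lip (y k) (y 0) (y i) (y (i + 1))
  have h1' : gromovProd (y k) (y 0) (y (i + 1)) < M := h1
  exact ⟨i + 1, hik, by linarith, by linarith⟩

/-- Quasi-geodesics in trees do not backtrack. -/
lemma no_backtrack
    (hX : ∀ w x y z : X, min (gromovProd w x y) (gromovProd w y z) ≤ gromovProd w x z)
    (y : ℕ → X) (C κ c : ℝ) (hC0 : 0 ≤ C) (hκ : 0 < κ) (hc : 0 ≤ c) (n : ℕ)
    (hC : ∀ i, i < n → dist (y i) (y (i + 1)) ≤ C)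
    (hlow : ∀ i j, i ≤ j → j ≤ n → κ * (j - i) - c ≤ dist (y i) (y j)) (k : ℕ) (hk : k ≤ n) :
    gromovProd (y k) (y 0) (y n) ≤ C + C * ((4 * C + c) / κ) := by
  by_cases hM : gromovProd (y k) (y 0) (y n) ≤ 0
  · have : 0 ≤ C + C * ((4 * C + c) / κ) := by positivity
    linarith
  push Not at hM
  set M := gromovProd (y k) (y 0) (y n) with hMdef
  obtain ⟨i, hi, hi1, hi2⟩ := pass_near hX y C k (fun i hi => hC i (by omega)) M hM (by
    rw [gromovProd_self, hMdef, gromovProd_symm]
    exact gromovProd_le _ _ _)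
  -- reversed path
  obtain ⟨j, hj, hj1, hj2⟩ := pass_near hX (fun j => y (n - j)) C (n - k) (fun j hj => by
    have e : n - j = n - (j + 1) + 1 := by omega
    rw [dist_comm, e]
    exact hC (n - (j + 1)) (by omega)) M hM (by
    rw [gromovProd_self, hMdef]
    have e : n - (n - k) = k := by omega
    rw [e, Nat.sub_zero]
    exact gromovProd_le _ _ _)
  have e : n - (n - k) = k := by omega
  simp only [e, Nat.sub_zero] at hj1 hj2
  set j' := n - j with hj'
  have hkj : k ≤ j' := by omega
  have hjn : j' ≤ n := by omega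
  have h1 : M - C ≤ gromovProd (y k) (y i) (y j') := by
    have a1 := hX (y k) (y i) (y 0) (y n)
    have a2 := hX (y k) (y i) (y n) (y j')
    have a3 : M - C ≤ gromovProd (y k) (y i) (y n) := by
      refine le_trans (le_min ?_ ?_) a1
      · rw [gromovProd_symm]; exact hi1
      · linarith
    exact le_trans (le_min a3 hj1) a2
  have h2 : dist (y i) (y j') ≤ 4 * C := by
    unfold gromovProd at h1
    linarith
  have h3 := hlow i j' (hi.trans hkj) hjn
  have h4 : ((j' : ℝ) - i) ≤ (4 * C + c) / κ := by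
    rw [le_div_iff₀ hκ]; linarith
  -- `dist (y i) (y k) ≤ C (k - i)`
  have h5 : ∀ m : ℕ, i + m ≤ n → dist (y i) (y (i + m)) ≤ C * m := by
    intro m
    induction m with
    | zero => intro _; simp
    | succ m ih =>
      intro hm
      have b1 := ih (by omega)
      have b2 := hC (i + m) (by omega)
      have b3 := dist_triangle (y i) (y (i + m)) (y (i + m + 1))
      rw [← add_assoc]
      push_cast
      linarith
  have h6 := h5 (k - i) (by omega)
  have e2 : i + (k - i) = k := by omega
  rw [e2] at h6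
  have h7 : ((k - i : ℕ) : ℝ) ≤ (4 * C + c) / κ := by
    have : ((k - i : ℕ) : ℝ) = (k : ℝ) - i := by rw [Nat.cast_sub hi]
    rw [this]
    have : (k : ℝ) ≤ j' := by exact_mod_cast hkj
    linarith
  have h8 : gromovProd (y k) (y 0) (y i) ≤ dist (y i) (y k) := gromovProd_le _ _ _
  have h9 : C * ((k - i : ℕ) : ℝ) ≤ C * ((4 * C + c) / κ) := mul_le_mul_of_nonneg_left h7 hC0
  linarith

end metric

section milnor

variable {H X : Type*} [Group H] [MetricSpace X] [MulAction H X] {T : Set H}

lemma dist_smul_smul (hG : IsGeometric H X) (g h : H) (x : X) :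
    dist (g • x) (h • x) = dist x ((g⁻¹ * h) • x) := by
  rw [← hG.isometric g x ((g⁻¹ * h) • x), smul_smul, mul_inv_cancel_left]

lemma orbit_upper (hT : Subgroup.closure T = ⊤) (hTfin : T.Finite) (x₀ : X) :
    ∃ C : ℝ, 0 ≤ C ∧ ∀ h : H, wlen T h ≤ 1 → dist x₀ (h • x₀) ≤ C := by
  have hfin : {h : H | wlen T h ≤ 1}.Finite := ball_finite hT hTfin 1
  obtain ⟨C, hC⟩ := (hfin.image (fun h => dist x₀ (h • x₀))).bddAbove
  exact ⟨max C 0, le_max_right _ _, fun h hh => (hC ⟨h, hh, rfl⟩).trans (le_max_left _ _)⟩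

/-- the Milnor-Schwarz lemma, lower bound -/
lemma milnor_schwarz (hT : Subgroup.closure T = ⊤) (hX : ∀ x y : X, ∃ c : ℝ → X, c 0 = x ∧
      c (dist x y) = y ∧ ∀ s ∈ Set.Icc 0 (dist x y), ∀ t ∈ Set.Icc 0 (dist x y),
        dist (c s) (c t) = |s - t|) (hG : IsGeometric H X) (x₀ : X) :
    ∃ κ : ℝ, 0 < κ ∧ ∀ h : H, κ * wlen T h - 2 ≤ dist x₀ (h • x₀) := by
  obtain ⟨r', hr'⟩ := hG.cobounded x₀
  set r := max r' 0 with hr
  have hcob : ∀ y, ∃ h : H, dist y (h • x₀) ≤ r := fun y => by
    obtain ⟨h, hh⟩ := hr' y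
    exact ⟨h, hh.trans (le_max_left _ _)⟩
  have hr0 : 0 ≤ r := le_max_right _ _
  obtain ⟨M', hM'⟩ := ((hG.proper x₀ (2 * r + 1)).image (fun h => wlen T h)).bddAbove
  set M := M' + 1 with hM
  have hMb : ∀ h : H, dist x₀ (h • x₀) ≤ 2 * r + 1 → wlen T h ≤ M := fun h hh =>
    (hM' ⟨h, hh, rfl⟩).trans (Nat.le_succ _)
  refine ⟨1 / M, by positivity, fun g => ?_⟩
  obtain ⟨c, hc0, hc1, hc⟩ := hX x₀ (g • x₀)
  set D := dist x₀ (g • x₀) with hD
  have hD0 : 0 ≤ D := dist_nonneg
  have key : ∀ i : ℕ, ∃ h : H, dist (c (min i D)) (h • x₀) ≤ r ∧ wlen T h ≤ i * M := by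
    intro i
    induction i with
    | zero =>
      refine ⟨1, ?_, by simp [wlen_one]⟩
      rw [Nat.cast_zero, min_eq_left hD0, hc0, one_smul, dist_self]
      exact hr0
    | succ i ih =>
      obtain ⟨h, h1, h2⟩ := ih
      obtain ⟨h', h3⟩ := hcob (c (min ((i + 1 : ℕ) : ℝ) D))
      refine ⟨h', h3, ?_⟩
      have h4 : dist (c (min (i : ℝ) D)) (c (min ((i + 1 : ℕ) : ℝ) D)) ≤ 1 := by
        rw [hc _ ⟨le_min (by positivity) hD0, min_le_right _ _⟩ _
          ⟨le_min (by positivity) hD0, min_le_right _ _⟩]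
        push_cast
        rw [abs_le]
        rcases le_total (i : ℝ) D with hi | hi <;> rcases le_total ((i : ℝ) + 1) D with hi' | hi' <;>
          simp only [min_eq_left, min_eq_right, hi, hi'] <;> constructor <;> linarith
      have h5 : dist x₀ ((h⁻¹ * h') • x₀) ≤ 2 * r + 1 := by
        rw [← dist_smul_smul hG]
        have a1 := dist_triangle4 (h • x₀) (c (min (i : ℝ) D)) (c (min ((i + 1 : ℕ) : ℝ) D))
          (h' • x₀)
        rw [dist_comm (h • x₀) (c (min (i : ℝ) D))] at a1
        linarith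
      have h6 := hMb _ h5
      have h7 := wlen_mul_le hT h (h⁻¹ * h')
      rw [mul_inv_cancel_left] at h7
      calc wlen T h' ≤ wlen T h + wlen T (h⁻¹ * h') := h7
        _ ≤ i * M + M := add_le_add h2 h6
        _ = (i + 1) * M := by ring
  obtain ⟨h, h1, h2⟩ := key ⌈D⌉₊
  rw [min_eq_right (Nat.le_ceil D), hc1] at h1
  have h3 : dist x₀ ((h⁻¹ * g) • x₀) ≤ 2 * r + 1 := by
    rw [← dist_smul_smul hG, dist_comm]
    linarith
  have h4 := hMb _ h3
  have h5 := wlen_mul_le hT h (h⁻¹ * g)
  rw [mul_inv_cancel_left] at h5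
  have h6 : wlen T g ≤ (⌈D⌉₊ + 1) * M := by
    calc wlen T g ≤ wlen T h + wlen T (h⁻¹ * g) := h5
      _ ≤ ⌈D⌉₊ * M + M := add_le_add h2 h4
      _ = (⌈D⌉₊ + 1) * M := by ring
  have h7 : (wlen T g : ℝ) ≤ (⌈D⌉₊ + 1) * M := by exact_mod_cast h6
  have h8 : (⌈D⌉₊ : ℝ) < D + 1 := Nat.ceil_lt_add_one hD0
  have hM0 : (0 : ℝ) < M := by rw [hM]; positivity
  have h9 : 1 / (M : ℝ) * wlen T g ≤ ⌈D⌉₊ + 1 := by
    rw [one_div, inv_mul_le_iff₀ hM0]; linarith
  linarith

end milnor

section free

open FreeGroup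

variable {α : Type*} [DecidableEq α] [Finite α] {X : Type*} [MetricSpace X]
  [MulAction (FreeGroup α) X]

lemma toWord_mk_of_take (x : FreeGroup α) (i : ℕ) :
    (FreeGroup.mk (x.toWord.take i)).toWord = x.toWord.take i := by
  rw [toWord_mk]
  apply IsReduced.reduce_eq
  exact List.IsChain.take (isReduced_toWord (x := x)) i

lemma lcp_take_take {β : Type*} [DecidableEq β] (l : List β) {i j : ℕ} (hij : i ≤ j) :
    lcp (l.take i) (l.take j) = (l.take i).length := by
  induction l generalizing i j with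
  | nil => simp [lcp_nil_left]
  | cons a l ih =>
    cases i with
    | zero => simp [lcp_nil_left]
    | succ i =>
      cases j with
      | zero => omega
      | succ j =>
        simp only [List.take_succ_cons, lcp_cons_cons, if_true, List.length_cons]
        rw [ih (by omega)]

lemma wlen_take (x : FreeGroup α) {i j : ℕ} (hij : i ≤ j) (hj : j ≤ x.toWord.length) :
    wlen (Set.range (FreeGroup.of : α → FreeGroup α))
      ((FreeGroup.mk (x.toWord.take i))⁻¹ * FreeGroup.mk (x.toWord.take j)) = j - i := by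
  have h1 := gprod_one (S := Set.range (FreeGroup.of : α → FreeGroup α)) closure_free
    (FreeGroup.mk (x.toWord.take i)) (FreeGroup.mk (x.toWord.take j))
  rw [gprod_free, toWord_mk_of_take, toWord_mk_of_take, lcp_take_take _ hij, wlen_free, wlen_free,
    toWord_mk_of_take, toWord_mk_of_take, List.length_take, List.length_take,
    min_eq_left (hij.trans hj), min_eq_left hj] at h1
  have h2 : (wlen (Set.range (FreeGroup.of : α → FreeGroup α))
      ((FreeGroup.mk (x.toWord.take i))⁻¹ * FreeGroup.mk (x.toWord.take j)) : ℝ) = j - i := by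
    linarith
  rw [← Nat.cast_sub hij] at h2
  exact_mod_cast h2

/-- The orbit map of the free group into the tree `X` coarsely preserves Gromov products of `g` with
elements `x` whose reduced word starts with `g`. -/
lemma orbit_shadow (hX : IsTree X) (hG : IsGeometric (FreeGroup α) X) (x₀ : X) :
    ∃ κ c : ℝ, 0 < κ ∧ ∀ g x : FreeGroup α,
      (wlen (Set.range (FreeGroup.of : α → FreeGroup α)) g : ℝ) ≤
        gprod (Set.range (FreeGroup.of : α → FreeGroup α)) 1 x g →
      κ * wlen (Set.range (FreeGroup.of : α → FreeGroup α)) g - c ≤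
        gromovProd x₀ (x • x₀) (g • x₀) := by
  have hTfin : (Set.range (FreeGroup.of : α → FreeGroup α)).Finite := Set.finite_range _
  obtain ⟨C, hC0, hC⟩ := orbit_upper closure_free hTfin x₀
  obtain ⟨κ, hκ, hlow⟩ := milnor_schwarz (T := Set.range (FreeGroup.of : α → FreeGroup α))
    closure_free hX.geodesic hG x₀
  refine ⟨κ, 2 + (C + C * ((4 * C + 2) / κ)), hκ, fun g x hgx => ?_⟩
  rw [gprod_free, wlen_free] at hgx
  have hgx' : g.toWord.length ≤ lcp x.toWord g.toWord := by exact_mod_cast hgx
  have htake := take_of_lcp _ _ hgx'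
  have hlen : g.toWord.length ≤ x.toWord.length := hgx'.trans (lcp_le_left _ _)
  set y : ℕ → X := fun i => FreeGroup.mk (x.toWord.take i) • x₀ with hy
  have h0 : y 0 = x₀ := by simp [hy, ← one_eq_mk]
  have hn : y x.toWord.length = x • x₀ := by
    simp only [hy, List.take_length, mk_toWord]
  have hk : y g.toWord.length = g • x₀ := by
    simp only [hy, htake, mk_toWord]
  have hnb := no_backtrack hX.four_point y C κ 2 hC0 hκ (by norm_num) x.toWord.length
    (by
      intro i hi
      simp only [hy]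
      rw [dist_smul_smul hG]
      apply hC
      rw [wlen_take x (Nat.le_succ i) hi]
      omega)
    (by
      intro i j hij hj
      simp only [hy]
      rw [dist_smul_smul hG]
      have := hlow ((FreeGroup.mk (x.toWord.take i))⁻¹ * FreeGroup.mk (x.toWord.take j))
      rw [wlen_take x hij hj, Nat.cast_sub hij] at this
      exact this) g.toWord.length hlen
  rw [h0, hn, hk] at hnb
  have h1 := gromovProd_add x₀ (g • x₀) (x • x₀)
  have h2 := hlow g
  linarith

/-- Shadows have exponentially small diameter. -/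
lemma shadow_diam (hX : IsTree X) (hG : IsGeometric (FreeGroup α) X) (x₀ : X) (a : ℝ) (ha : 1 < a)
    (m : MetricSpace (Boundary (Set.range (FreeGroup.of : α → FreeGroup α))))
    (hm : IsVisual (Set.range (FreeGroup.of : α → FreeGroup α)) x₀ a m) :
    ∃ C lam : NNReal, 0 < lam ∧ lam < 1 ∧ ∀ g : FreeGroup α,
      Metric.ediam (Sh (Set.range (FreeGroup.of : α → FreeGroup α)) 0 g) ≤
        (C : ENNReal) * (lam : ENNReal) ^ wlen (Set.range (FreeGroup.of : α → FreeGroup α)) g := by
  obtain ⟨κ, c, hκ, hκc⟩ := orbit_shadow hX hG x₀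
  obtain ⟨C, hC0, hC⟩ := hm
  have ha0 : 0 < a := by linarith
  refine ⟨(C * a ^ c).toNNReal, (a ^ (-κ)).toNNReal, ?_, ?_, ?_⟩
  · have : 0 < a ^ (-κ) := by positivity
    exact Real.toNNReal_pos.2 this
  · have : a ^ (-κ) < 1 := Real.rpow_lt_one_of_one_lt_of_neg ha (by linarith)
    exact Real.toNNReal_lt_one.2 this
  · intro g
    apply Metric.ediam_le
    intro ξ hξ η hη
    have hnn : (0 : ℝ) ≤ C * a ^ c * (a ^ (-κ)) ^
        wlen (Set.range (FreeGroup.of : α → FreeGroup α)) g := by positivity
    have hgoal : dist ξ η ≤ C * a ^ c * (a ^ (-κ)) ^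
        wlen (Set.range (FreeGroup.of : α → FreeGroup α)) g := by
      by_cases hne : ξ = η
      · rw [hne, dist_self]; exact hnn
      obtain ⟨x, hx, N1, hN1⟩ := hξ
      obtain ⟨y, hy, N2, hN2⟩ := hη
      obtain ⟨N3, hN3⟩ := hC x.1 y.1 ξ η ⟨x, rfl, hx⟩ ⟨y, rfl, hy⟩ hne
      set K := max N1 (max N2 N3) with hK
      have k1 : N1 ≤ K := le_max_left _ _
      have k2 : N2 ≤ K := (le_max_left _ _).trans (le_max_right _ _)
      have k3 : N3 ≤ K := (le_max_right _ _).trans (le_max_right _ _)
      have h1 := hκc g (x.1 K) (by simpa using hN1 K k1)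
      have h2 := hκc g (y.1 K) (by simpa using hN2 K k2)
      have h3 := hX.four_point x₀ (x.1 K • x₀) (g • x₀) (y.1 K • x₀)
      have h4 : κ * wlen (Set.range (FreeGroup.of : α → FreeGroup α)) g - c ≤
          gromovProd x₀ (x.1 K • x₀) (y.1 K • x₀) :=
        (le_min h1 (by rw [gromovProd_symm]; exact h2)).trans h3
      have h5 := (hN3 K K k3 k3).2
      refine h5.trans ?_
      rw [mul_assoc]
      apply mul_le_mul_of_nonneg_left _ hC0.le
      rw [← Real.rpow_natCast, ← Real.rpow_mul ha0.le, ← Real.rpow_add ha0]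
      apply Real.rpow_le_rpow_of_exponent_le ha.le
      linarith
    rw [edist_dist]
    have h6 : (((C * a ^ c).toNNReal : NNReal) : ENNReal) * (((a ^ (-κ)).toNNReal : NNReal) :
        ENNReal) ^ wlen (Set.range (FreeGroup.of : α → FreeGroup α)) g =
        ENNReal.ofReal (C * a ^ c * (a ^ (-κ)) ^
          wlen (Set.range (FreeGroup.of : α → FreeGroup α)) g) := by
      rw [ENNReal.ofReal_mul (by positivity), ENNReal.ofReal_pow (by positivity)]
      rfl
    rw [h6]
    exact ENNReal.ofReal_le_ofReal hgoal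

end free

end Pool.Agent.R639.CT
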