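import Mathlib
import Pool.Agent.R639.CT.Tree
import Pool.Agent.R639.CT.DynCon
import Pool.Agent.R639.CT.Defs

/-!
The preimage under the Cannon-Thurston map of the set of non-conical points has Hausdorff
dimension zero.
-/

set_option autoImplicit false
set_option linter.unusedSectionVars false

namespace Pool.Agent.R639.CT

open Filter Topology Pool.Agent.H322R3.Hyp

variable {r : ℕ} {G : Type*} [Group G] {S : Set G} {X : Type*} [MetricSpace X]
  [MulAction (FreeGroup (Fin r)) X]

lemma closure_basis (r : ℕ) : Subgroup.closure (basis r) = ⊤ := closure_free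

lemma finite_basis (r : ℕ) : (basis r).Finite := Set.finite_range _

lemma hyp_basis (r : ℕ) (x y z : FreeGroup (Fin r)) :
    min (gprod (basis r) 1 x y) (gprod (basis r) 1 y z) - 0 ≤ gprod (basis r) 1 x z :=
  hyp_free x y z

/-- The set of slow points has Hausdorff dimension zero. -/
theorem dim_slow (hSfin : S.Finite) (hS : Subgroup.closure S = ⊤)
    (ι : FreeGroup (Fin r) →* G) (hι : Function.Injective ι)
    (hX : IsTree X) (hG : IsGeometric (FreeGroup (Fin r)) X) (x₀ : X) (a : ℝ) (ha : 1 < a)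
    (m : MetricSpace (Boundary (basis r))) (hm : IsVisual (basis r) x₀ a m)
    (B : Set (Boundary (basis r))) (hB : ∀ p ∈ B, Slow (basis r) S ι 0 p) :
    hausdorffDim m B = 0 := by
  obtain ⟨C, lam, hlam0, hlam1, hdiam⟩ := shadow_diam hX hG x₀ a ha m hm
  obtain ⟨q, hq0, hq1, hq⟩ := growth hS hSfin
  have hq' : ∑' g : FreeGroup (Fin r), (q : ENNReal) ^ wlen S (ι g) ≠ ⊤ :=
    ne_top_of_le_ne_top hq (ENNReal.tsum_comp_le_tsum_of_injective hι
      (fun g => (q : ENNReal) ^ wlen S g))
  exact dimH_zero_of_cover (fun g => wlen (basis r) g) (fun g => wlen S (ι g))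
    (fun g => Sh (basis r) 0 g) C lam hlam0 hlam1 hdiam q hq0 hq1 hq' B hB

/-- The set of endpoints of the Cannon-Thurston lamination has Hausdorff dimension zero. -/
theorem dim_fibres (hSfin : S.Finite) (hS : Subgroup.closure S = ⊤) (hyp : IsHyperbolic S)
    (ι : FreeGroup (Fin r) →* G) (hι : Function.Injective ι)
    (f : Boundary (basis r) → Boundary S) (hf : IsCannonThurston (basis r) S ι f)
    (hX : IsTree X) (hG : IsGeometric (FreeGroup (Fin r)) X) (x₀ : X) (a : ℝ) (ha : 1 < a)
    (m : MetricSpace (Boundary (basis r))) (hm : IsVisual (basis r) x₀ a m) :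
    hausdorffDim m {p | ∃ q, p ≠ q ∧ f p = f q} = 0 := by
  obtain ⟨δ, hδ0, hδ⟩ := hyp.base hS
  apply dim_slow hSfin hS ι hι hX hG x₀ a ha m hm
  rintro p ⟨q, hpq, hfpq⟩
  exact slow_of_fibre (closure_basis r) le_rfl (hyp_basis r) hS hδ0 hδ (finite_basis r) ι hf p q
    hpq hfpq

/-- The preimage of the set of non-conical points (geometric definition) has Hausdorff dimension
zero. -/
theorem dim_nonconical (hSfin : S.Finite) (hS : Subgroup.closure S = ⊤) (hyp : IsHyperbolic S)
    (ι : FreeGroup (Fin r) →* G) (hι : Function.Injective ι)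
    (f : Boundary (basis r) → Boundary S) (hf : IsCannonThurston (basis r) S ι f)
    (hX : IsTree X) (hG : IsGeometric (FreeGroup (Fin r)) X) (x₀ : X) (a : ℝ) (ha : 1 < a)
    (m : MetricSpace (Boundary (basis r))) (hm : IsVisual (basis r) x₀ a m) :
    hausdorffDim m {p | ¬ IsConical S (Set.range ι) (f p)} = 0 := by
  obtain ⟨δ, hδ0, hδ⟩ := hyp.base hS
  apply dim_slow hSfin hS ι hι hX hG x₀ a ha m hm
  intro p hp
  by_contra hslow
  exact hp (conical_of_not_slow (closure_basis r) le_rfl (hyp_basis r) hS hδ0 hδ (finite_basis r)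
    hSfin ι hι hf p hslow)

/-- The preimage of the set of non-conical points (dynamical definition) has Hausdorff dimension
zero. -/
theorem dim_nonconicalDyn (hSfin : S.Finite) (hS : Subgroup.closure S = ⊤) (hyp : IsHyperbolic S)
    (ι : FreeGroup (Fin r) →* G) (hι : Function.Injective ι)
    (f : Boundary (basis r) → Boundary S) (hf : IsCannonThurston (basis r) S ι f)
    (hX : IsTree X) (hG : IsGeometric (FreeGroup (Fin r)) X) (x₀ : X) (a : ℝ) (ha : 1 < a)
    (m : MetricSpace (Boundary (basis r))) (hm : IsVisual (basis r) x₀ a m) :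
    hausdorffDim m {p | ¬ IsConicalDyn hS ι (f p)} = 0 := by
  obtain ⟨δ, hδ0, hδ⟩ := hyp.base hS
  apply dim_slow hSfin hS ι hι hX hG x₀ a ha m hm
  intro p hp
  by_contra hslow
  exact hp (conicalDyn_of_not_slow (closure_basis r) le_rfl (hyp_basis r) hS hδ0 hδ
    (finite_basis r) hSfin ι hf p hslow)

end Pool.Agent.R639.CT
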