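import Mathlib
import Pool.Agent.R639.CT.Defs

/-!
Limit sets, conical limit points and proper discontinuity on triples for an action on a compactum.
-/

set_option autoImplicit false

namespace Pool.Agent.R639.CT

open Filter Topology Pool.Agent.H322R3.Hyp

/-- The sequence `h` of elements of `Γ` converges to the constant map `c`, uniformly on compact
subsets of `Z - {b}`. -/
def AttractsTo {Γ Z : Type*} [Group Γ] [TopologicalSpace Z] [MulAction Γ Z] (h : ℕ → Γ)
    (b c : Z) : Prop :=
  ∀ K : Set Z, IsCompact K → b ∉ K → ∀ U ∈ 𝓝 c, ∀ᶠ k in atTop, ∀ x ∈ K, h k • x ∈ U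

/-- The limit set: all points `c` for which there are a sequence `h` of pairwise distinct elements
of `Γ` and a point `b` such that `h` converges to `c` uniformly on compact subsets of `Z - {b}`. -/
def limitSet (Γ Z : Type*) [Group Γ] [TopologicalSpace Z] [MulAction Γ Z] : Set Z :=
  {c | ∃ h : ℕ → Γ, Function.Injective h ∧ ∃ b : Z, AttractsTo h b c}

/-- The point `z` is conical: for some sequence `h` in `Γ` and points `b ≠ c` one has `h n z → b`
and `h n y → c` for all `y ≠ z`. -/
def IsConicalPoint (Γ : Type*) {Z : Type*} [Group Γ] [TopologicalSpace Z] [MulAction Γ Z]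
    (z : Z) : Prop :=
  ∃ (h : ℕ → Γ) (b c : Z), b ≠ c ∧ Tendsto (fun n => h n • z) atTop (𝓝 b) ∧
    ∀ y, y ≠ z → Tendsto (fun n => h n • y) atTop (𝓝 c)

/-- The induced action on the space of distinct triples is properly discontinuous: for every compact
set `K` of distinct triples there are only finitely many `g` with `g K ∩ K ≠ ∅`. -/
def ProperOnTriples (Γ Z : Type*) [Group Γ] [TopologicalSpace Z] [MulAction Γ Z] : Prop :=
  ∀ K : Set (Z × Z × Z), IsCompact K →
    (∀ p ∈ K, p.1 ≠ p.2.1 ∧ p.1 ≠ p.2.2 ∧ p.2.1 ≠ p.2.2) →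
    {g : Γ | ∃ p ∈ K, (g • p.1, g • p.2.1, g • p.2.2) ∈ K}.Finite

/-- `m` is a visual metric with parameter `a` on the boundary of the group with generating set `T`,
with respect to the Cayley graph and the base point `1`: up to a multiplicative constant, the
distance of `ξ ≠ η` is `a ^ (-(ξ | η))`, where `(ξ | η)` is the Gromov product of `ξ` and `η`, given
by the Gromov products of `x i` and `y j` with large `i, j`, for sequences `x → ξ`, `y → η`. -/
def IsVisualCayley {H : Type*} [Group H] (T : Set H) (a : ℝ) (m : MetricSpace (Boundary T)) :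
    Prop :=
  ∃ C : ℝ, 0 < C ∧ ∀ (x y : ℕ → H) (ξ η : Boundary T), ConvTo T x ξ → ConvTo T y η → ξ ≠ η →
    ∃ N : ℕ, ∀ i j, N ≤ i → N ≤ j →
      C⁻¹ * a ^ (-(gprod T 1 (x i) (y j))) ≤ m.dist ξ η ∧
      m.dist ξ η ≤ C * a ^ (-(gprod T 1 (x i) (y j)))

end Pool.Agent.R639.CT
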