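import Mathlib
import Pool.Agent.R639.CT.Main
import Pool.Agent.R639.CT.ZDefs

/-!
An explicit visual metric on the boundary of a free group, and a set of boundary points of positive
Hausdorff dimension.
-/

set_option autoImplicit false
set_option linter.unusedSectionVars false

namespace Pool.Agent.R639.CT

open Filter Topology Pool.Agent.H322R3.Hyp FreeGroup

variable {r : ℕ}

/-- `ξ` and `η` have Gromov product at least `n` -/
def Agree (ξ η : Boundary (basis r)) (n : ℕ) : Prop := η ∈ bnhd (basis r) ξ n

lemma agree_iff {ξ η : Boundary (basis r)} {x y : ℕ → FreeGroup (Fin r)}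
    (hx : ConvTo (basis r) x ξ) (hy : ConvTo (basis r) y η) (n : ℕ) :
    Agree ξ η n ↔ ∃ N : ℕ, ∀ i j, N ≤ i → N ≤ j → (n : ℝ) ≤ gprod (basis r) 1 (x i) (y j) := by
  obtain ⟨x, rfl, hx⟩ := hx
  obtain ⟨y, rfl, hy⟩ := hy
  constructor
  · intro h
    have := bnhd_reps (closure_basis r) le_rfl (hyp_basis r) h x y hx hy
    simpa using this
  · rintro ⟨N, hN⟩
    exact ⟨x, y, hx, hy, N, hN⟩

lemma exists_rep (ξ : Boundary (basis r)) : ∃ x : ℕ → FreeGroup (Fin r), ConvTo (basis r) x ξ := by
  obtain ⟨x, rfl⟩ : ∃ x : InfSeq (basis r), bmk (basis r) x = ξ := Quot.exists_rep ξ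
  exact ⟨x.1, convTo_mk x⟩

lemma agree_symm {ξ η : Boundary (basis r)} {n : ℕ} (h : Agree ξ η n) : Agree η ξ n := by
  obtain ⟨x, hx⟩ := exists_rep ξ
  obtain ⟨y, hy⟩ := exists_rep η
  obtain ⟨N, hN⟩ := (agree_iff hx hy n).1 h
  exact (agree_iff hy hx n).2 ⟨N, fun i j hi hj => by
    rw [gprod_symm (closure_basis r)]; exact hN j i hj hi⟩

lemma agree_trans {ξ η ζ : Boundary (basis r)} {n : ℕ} (h : Agree ξ η n) (h' : Agree η ζ n) :
    Agree ξ ζ n := by
  have := bnhd_trans (closure_basis r) le_rfl (hyp_basis r) h h'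
  simpa [Agree] using this

lemma agree_anti {ξ η : Boundary (basis r)} {n m : ℕ} (hnm : n ≤ m) (h : Agree ξ η m) :
    Agree ξ η n := bnhd_anti _ _ (by exact_mod_cast hnm) h

lemma agree_self (ξ : Boundary (basis r)) (n : ℕ) : Agree ξ ξ n :=
  bnhd_self (closure_basis r) le_rfl (hyp_basis r) ξ _

lemma agree_zero (ξ η : Boundary (basis r)) : Agree ξ η 0 := by
  obtain ⟨x, hx⟩ := exists_rep ξ
  obtain ⟨y, hy⟩ := exists_rep η
  exact (agree_iff hx hy 0).2 ⟨0, fun i j _ _ => by
    simpa using gprod_nonneg (closure_basis r) _ _⟩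

lemma exists_not_agree {ξ η : Boundary (basis r)} (h : ξ ≠ η) : ∃ n, ¬ Agree ξ η n := by
  by_contra hcon
  push Not at hcon
  apply h
  obtain ⟨x, hx⟩ := exists_rep ξ
  obtain ⟨y, hy⟩ := exists_rep η
  apply ConvTo.unique (closure_basis r) le_rfl (hyp_basis r) hy hx
  intro M
  obtain ⟨n, hn⟩ := exists_nat_ge M
  obtain ⟨N, hN⟩ := (agree_iff hx hy n).1 (hcon n)
  exact ⟨N, fun i j hi hj => hn.trans (hN i j hi hj)⟩

open Classical in
/-- the distance `(1 / 2) ^ n`, where `n` is the least number such that the Gromov product is less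
than `n` -/
noncomputable def bdist (ξ η : Boundary (basis r)) : ℝ :=
  if h : ξ ≠ η then (1 / 2 : ℝ) ^ Nat.find (exists_not_agree h) else 0

lemma bdist_self (ξ : Boundary (basis r)) : bdist ξ ξ = 0 := by simp [bdist]

lemma bdist_nonneg (ξ η : Boundary (basis r)) : 0 ≤ bdist ξ η := by
  unfold bdist; split
  · positivity
  · exact le_rfl

open Classical in
lemma bdist_le_iff {ξ η : Boundary (basis r)} (n : ℕ) :
    bdist ξ η ≤ (1 / 2 : ℝ) ^ (n + 1) ↔ Agree ξ η n := by
  by_cases h : ξ = η
  · subst h
    rw [bdist_self]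
    exact ⟨fun _ => agree_self _ _, fun _ => by positivity⟩
  · have hd : bdist ξ η = (1 / 2 : ℝ) ^ Nat.find (exists_not_agree h) := by
      unfold bdist; rw [dif_pos h]
    rw [hd, pow_le_pow_iff_right_of_lt_one₀ (by norm_num) (by norm_num)]
    constructor
    · intro hn
      have := Nat.find_min (exists_not_agree h) (m := n) (by omega)
      simpa using this
    · intro hn
      by_contra hcon
      push Not at hcon
      exact Nat.find_spec (exists_not_agree h) (agree_anti (by omega) hn)

open Classical in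
lemma bdist_comm_le (ξ η : Boundary (basis r)) : bdist ξ η ≤ bdist η ξ := by
  by_cases h : η = ξ
  · subst h; exact le_rfl
  · have hd : bdist η ξ = (1 / 2 : ℝ) ^ Nat.find (exists_not_agree h) := by
      unfold bdist; rw [dif_pos h]
    have h0 : Nat.find (exists_not_agree h) ≠ 0 := by
      intro h0
      have := Nat.find_spec (exists_not_agree h)
      rw [h0] at this
      exact this (agree_zero _ _)
    obtain ⟨n, hn⟩ := Nat.exists_eq_succ_of_ne_zero h0
    rw [hd, hn]
    apply (bdist_le_iff n).2
    apply agree_symm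
    apply (bdist_le_iff n).1
    rw [hd, hn]

lemma bdist_comm (ξ η : Boundary (basis r)) : bdist ξ η = bdist η ξ :=
  le_antisymm (bdist_comm_le _ _) (bdist_comm_le _ _)

open Classical in
lemma bdist_ultra (ξ η ζ : Boundary (basis r)) : bdist ξ ζ ≤ max (bdist ξ η) (bdist η ζ) := by
  by_cases h : ξ = ζ
  · subst h
    rw [bdist_self]
    exact (bdist_nonneg _ _).trans (le_max_left _ _)
  · by_contra hcon
    push Not at hcon
    obtain ⟨h1, h2⟩ := max_lt_iff.1 hcon
    have hd : bdist ξ ζ = (1 / 2 : ℝ) ^ Nat.find (exists_not_agree h) := by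
      unfold bdist; rw [dif_pos h]
    set n := Nat.find (exists_not_agree h) with hn
    have key : ∀ α β : Boundary (basis r), bdist α β < (1 / 2 : ℝ) ^ n → Agree α β n := by
      intro α β hαβ
      by_cases hab : α = β
      · subst hab; exact agree_self _ _
      · have hd' : bdist α β = (1 / 2 : ℝ) ^ Nat.find (exists_not_agree hab) := by
          unfold bdist; rw [dif_pos hab]
        rw [hd', pow_lt_pow_iff_right_of_lt_one₀ (by norm_num) (by norm_num)] at hαβ
        have := Nat.find_min (exists_not_agree hab) (m := n) hαβ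
        simpa using this
    rw [hd] at h1 h2
    exact Nat.find_spec (exists_not_agree h) (agree_trans (key _ _ h1) (key _ _ h2))

open Classical in
/-- the metric on the boundary of the free group -/
@[reducible] noncomputable def bmetric (r : ℕ) : MetricSpace (Boundary (basis r)) where
  dist := bdist
  dist_self := bdist_self
  dist_comm := bdist_comm
  dist_triangle ξ η ζ := (bdist_ultra ξ η ζ).trans
    (max_le_add_of_nonneg (bdist_nonneg _ _) (bdist_nonneg _ _))
  eq_of_dist_eq_zero := by
    intro ξ η h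
    by_contra hne
    have : bdist ξ η = 0 := h
    unfold bdist at this
    rw [dif_pos hne] at this
    have h2 : (0 : ℝ) < (1 / 2 : ℝ) ^ Nat.find (exists_not_agree hne) := by positivity
    linarith

lemma gprod_nat (x y : FreeGroup (Fin r)) : ∃ n : ℕ, gprod (basis r) 1 x y = n :=
  ⟨_, gprod_free x y⟩

lemma isVisual_bmetric (r : ℕ) : IsVisualCayley (basis r) 2 (bmetric r) := by
  classical
  refine ⟨2, by norm_num, fun x y ξ η hx hy hne => ?_⟩
  have hd : bdist ξ η = (1 / 2 : ℝ) ^ Nat.find (exists_not_agree hne) := by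
    unfold bdist; rw [dif_pos hne]
  have h0 : Nat.find (exists_not_agree hne) ≠ 0 := by
    intro h0
    have := Nat.find_spec (exists_not_agree hne)
    rw [h0] at this
    exact this (agree_zero _ _)
  obtain ⟨n, hn⟩ := Nat.exists_eq_succ_of_ne_zero h0
  have h1 : Agree ξ η n := by
    have := Nat.find_min (exists_not_agree hne) (m := n) (by omega)
    simpa using this
  have h2 : ¬ Agree ξ η (n + 1) := by
    have := Nat.find_spec (exists_not_agree hne)
    rwa [hn] at this
  obtain ⟨N1, hN1⟩ := (agree_iff hx hy n).1 h1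
  obtain ⟨N2, hN2⟩ := hx.tendsto (closure_basis r) le_rfl (hyp_basis r) hx ((n : ℝ) + 1)
  obtain ⟨N3, hN3⟩ := hy.tendsto (closure_basis r) le_rfl (hyp_basis r) hy ((n : ℝ) + 1)
  refine ⟨max N1 (max N2 N3), fun i j hi hj => ?_⟩
  have i1 : N1 ≤ i := (le_max_left _ _).trans hi
  have i2 : N2 ≤ i := ((le_max_left _ _).trans (le_max_right _ _)).trans hi
  have j1 : N1 ≤ j := (le_max_left _ _).trans hj
  have j3 : N3 ≤ j := ((le_max_right _ _).trans (le_max_right _ _)).trans hj
  have hlow := hN1 i j i1 j1
  have hup : gprod (basis r) 1 (x i) (y j) < (n : ℝ) + 1 := by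
    by_contra hcon
    push Not at hcon
    apply h2
    rw [agree_iff hx hy]
    refine ⟨max N2 N3, fun i' j' hi' hj' => ?_⟩
    have a1 := hN2 i' i ((le_max_left _ _).trans hi') i2
    have a2 := hN3 j j' j3 ((le_max_right _ _).trans hj')
    have := hyp4 le_rfl (hyp_basis r) a1 hcon a2
    push_cast
    linarith
  obtain ⟨k, hk⟩ := gprod_nat (x i) (y j)
  rw [hk] at hlow hup ⊢
  have hkn : k = n := by
    have a1 : n ≤ k := by exact_mod_cast hlow
    have a2 : k < n + 1 := by exact_mod_cast hup
    omega
  subst hkn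
  have hdist : (bmetric r).dist ξ η = (1 / 2 : ℝ) ^ (k + 1) := by
    show bdist ξ η = _
    rw [hd, hn]
  rw [hdist, Real.rpow_neg (by norm_num), Real.rpow_natCast]
  have : (1 / 2 : ℝ) ^ (k + 1) = 2⁻¹ * (2 ^ k)⁻¹ := by
    rw [pow_succ, one_div, inv_pow]; ring
  rw [this]
  constructor
  · exact le_rfl
  · have : (0 : ℝ) < (2 ^ k)⁻¹ := by positivity
    linarith

/-- the word of length `n` with the letters `0`, `1` according to `w` -/
def word : ℕ → (ℕ → Fin 2) → List (Fin 3 × Bool)
  | 0, _ => []
  | n + 1, w => (Fin.castSucc (w 0), true) :: word n (fun i => w (i + 1))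

lemma word_snd (n : ℕ) (w : ℕ → Fin 2) : ∀ x ∈ word n w, x.2 = true := by
  induction n generalizing w with
  | zero => simp [word]
  | succ n ih =>
    intro x hx
    rw [word, List.mem_cons] at hx
    rcases hx with rfl | hx
    · rfl
    · exact ih _ x hx

lemma word_reduced (n : ℕ) (w : ℕ → Fin 2) : FreeGroup.IsReduced (word n w) := by
  induction n generalizing w with
  | zero => exact IsReduced.nil
  | succ n ih =>
    have h := ih (fun i => w (i + 1))
    rw [word]
    cases hw : word n (fun i => w (i + 1)) with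
    | nil => exact IsReduced.singleton
    | cons b l =>
      rw [hw] at h
      rw [FreeGroup.isReduced_cons_cons]
      refine ⟨fun _ => ?_, h⟩
      exact (word_snd n _ b (by rw [hw]; exact List.mem_cons_self)).symm

lemma lcp_word_ge (k n m : ℕ) (w w' : ℕ → Fin 2) (h : ∀ i, i < k → w i = w' i) (hn : k ≤ n)
    (hm : k ≤ m) : k ≤ lcp (word n w) (word m w') := by
  induction k generalizing n m w w' with
  | zero => exact Nat.zero_le _
  | succ k ih =>
    obtain ⟨n, rfl⟩ : ∃ n', n = n' + 1 := ⟨n - 1, by omega⟩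
    obtain ⟨m, rfl⟩ : ∃ m', m = m' + 1 := ⟨m - 1, by omega⟩
    rw [word, word, lcp_cons_cons, h 0 (by omega), if_pos rfl]
    have := ih n m (fun i => w (i + 1)) (fun i => w' (i + 1))
      (fun i hi => h (i + 1) (by omega)) (by omega) (by omega)
    omega

lemma lcp_word_le (k n m : ℕ) (w w' : ℕ → Fin 2) (h : w k ≠ w' k) :
    lcp (word n w) (word m w') ≤ k := by
  induction k generalizing n m w w' with
  | zero =>
    cases n with
    | zero => simp [word, lcp_nil_left]
    | succ n =>
      cases m with
      | zero => simp [word, lcp_nil_right]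
      | succ m =>
        rw [word, word, lcp_cons_cons, if_neg]
        intro h'
        apply h
        have := (Prod.mk.inj h').1
        exact Fin.castSucc_injective _ this
  | succ k ih =>
    cases n with
    | zero => simp [word, lcp_nil_left]
    | succ n =>
      cases m with
      | zero => simp [word, lcp_nil_right]
      | succ m =>
        rw [word, word, lcp_cons_cons]
        split
        · have := ih n m (fun i => w (i + 1)) (fun i => w' (i + 1)) h
          omega
        · omega

/-- the element of the free group of rank 3 with reduced word `word n w` -/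
def xw (w : ℕ → Fin 2) (n : ℕ) : FreeGroup (Fin 3) := FreeGroup.mk (word n w)

lemma toWord_xw (w : ℕ → Fin 2) (n : ℕ) : (xw w n).toWord = word n w := by
  rw [xw, toWord_mk, (word_reduced n w).reduce_eq]

lemma gprod_xw (w w' : ℕ → Fin 2) (n m : ℕ) :
    gprod (basis 3) 1 (xw w n) (xw w' m) = lcp (word n w) (word m w') := by
  have := gprod_free (xw w n) (xw w' m)
  rw [toWord_xw, toWord_xw] at this
  exact this

lemma convInf_xw (w : ℕ → Fin 2) : ConvInf (basis 3) (xw w) := by
  unfold ConvInf
  rw [tendsto_pair_iff (fun i j => gprod (basis 3) 1 (xw w i) (xw w j))]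
  intro M
  obtain ⟨k, hk⟩ := exists_nat_ge M
  refine ⟨k, fun i j hi hj => hk.trans ?_⟩
  rw [gprod_xw]
  exact_mod_cast lcp_word_ge k i j w w (fun _ _ => rfl) hi hj

/-- the boundary point with the infinite word `w` -/
noncomputable def bw (w : ℕ → Fin 2) : Boundary (basis 3) := bmk (basis 3) ⟨xw w, convInf_xw w⟩

lemma conv_bw (w : ℕ → Fin 2) : ConvTo (basis 3) (xw w) (bw w) := ⟨_, rfl, rfl⟩

lemma agree_bw {w w' : ℕ → Fin 2} {n : ℕ} (h : Agree (bw w) (bw w') n) :
    ∀ i, i < n → w i = w' i := by
  intro i hi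
  by_contra hne
  obtain ⟨N, hN⟩ := (agree_iff (conv_bw w) (conv_bw w') n).1 h
  have h1 := hN N N le_rfl le_rfl
  rw [gprod_xw] at h1
  have h2 := lcp_word_le i N N w w' hne
  have h3 : n ≤ lcp (word N w) (word N w') := by exact_mod_cast h1
  omega

lemma bw_injective : Function.Injective bw := by
  intro w w' h
  ext i
  have : Agree (bw w) (bw w') (i + 1) := by rw [h]; exact agree_self _ _
  rw [agree_bw this i (Nat.lt_succ_self i)]

open Classical in
/-- The set of the points `bw w` has positive Hausdorff dimension. -/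
lemma dim_bw : 0 < hausdorffDim (bmetric 3) (Set.range bw) := by
  let _ : MetricSpace (Boundary (basis 3)) := bmetric 3
  -- the map to the interval
  obtain ⟨g, hg⟩ := bw_injective.hasLeftInverse
  set F : Boundary (basis 3) → ℝ := fun ξ => Real.ofDigits (g ξ) with hF
  have hlip : LipschitzOnWith 2 F (Set.range bw) := by
    apply LipschitzOnWith.of_dist_le_mul
    rintro _ ⟨w, rfl⟩ _ ⟨w', rfl⟩
    have e1 : F (bw w) = Real.ofDigits w := by simp only [hF]; rw [hg w]
    have e2 : F (bw w') = Real.ofDigits w' := by simp only [hF]; rw [hg w']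
    rw [e1, e2, Real.dist_eq]
    by_cases h : bw w = bw w'
    · rw [bw_injective h]; simp
    · have hd : dist (bw w) (bw w') = bdist (bw w) (bw w') := rfl
      have hd2 : bdist (bw w) (bw w') = (1 / 2 : ℝ) ^ Nat.find (exists_not_agree h) := by
        unfold bdist; rw [dif_pos h]
      have h0 : Nat.find (exists_not_agree h) ≠ 0 := by
        intro h0
        have := Nat.find_spec (exists_not_agree h)
        rw [h0] at this
        exact this (agree_zero _ _)
      obtain ⟨n, hn⟩ := Nat.exists_eq_succ_of_ne_zero h0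
      have h1 : Agree (bw w) (bw w') n := by
        have := Nat.find_min (exists_not_agree h) (m := n) (by omega)
        simpa using this
      have h2 := Real.abs_ofDigits_sub_ofDigits_le (n := n) (agree_bw h1)
      rw [hd, hd2, hn]
      refine h2.trans (le_of_eq ?_)
      rw [Nat.succ_eq_add_one, pow_succ, one_div, inv_pow]
      push_cast
      ring
  have h1 := hlip.dimH_image_le
  have h2 : Set.Ico (0 : ℝ) 1 ⊆ F '' (Set.range bw) := by
    intro t ht
    refine ⟨bw (Real.digits t 2), ⟨_, rfl⟩, ?_⟩
    simp only [hF]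
    rw [hg, Real.ofDigits_digits (by norm_num) ht]
  have h3 : dimH (Set.Ico (0 : ℝ) 1) = 1 := by
    have hne : (interior (Set.Ico (0 : ℝ) 1)).Nonempty := by
      rw [interior_Ico]
      exact ⟨1 / 2, by norm_num⟩
    rw [Real.dimH_of_nonempty_interior hne, Module.finrank_self]
    norm_num
  have h4 := (dimH_mono h2).trans h1
  rw [h3] at h4
  have h5 : (0 : ENNReal) < dimH (Set.range bw) := lt_of_lt_of_le (by norm_num) h4
  exact h5

end Pool.Agent.R639.CT
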