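import Mathlib
import Pool.Agent.R639.CT.Ex1

/-!
Dynamics of the free group on its boundary, and the quotient of the boundary of the free group of
rank three by the translates of the boundary of a free factor of rank two.
-/

set_option autoImplicit false
set_option linter.unusedSectionVars false

namespace Pool.Agent.R639.CT

open Filter Topology Pool.Agent.H322R3.Hyp FreeGroup

section general

variable {Γ : Type*} [Group Γ] {S : Set Γ}

lemma convInf_comp {x : ℕ → Γ} (h : ConvInf S x) {ψ : ℕ → ℕ} (hψ : StrictMono ψ) :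
    ConvInf S (fun k => x (ψ k)) := by
  unfold ConvInf at h ⊢
  rw [tendsto_pair_iff (fun i j => gprod S 1 (x i) (x j))] at h
  rw [tendsto_pair_iff (fun i j => gprod S 1 (x (ψ i)) (x (ψ j)))]
  intro M
  obtain ⟨N, hN⟩ := h M
  exact ⟨N, fun i j hi hj => hN _ _ (hi.trans (hψ.id_le i)) (hj.trans (hψ.id_le j))⟩

variable (hS : Subgroup.closure S = ⊤) {δ : ℝ} (hδ0 : 0 ≤ δ)
  (hδ : ∀ x y z : Γ, min (gprod S 1 x y) (gprod S 1 y z) - δ ≤ gprod S 1 x z)

include hS hδ0 hδ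

lemma convTo_comp {x : ℕ → Γ} {z : Boundary S} (h : ConvTo S x z) {ψ : ℕ → ℕ}
    (hψ : StrictMono ψ) : ConvTo S (fun k => x (ψ k)) z := by
  apply ConvTo.of_tendsto hS hδ0 hδ h
  intro M
  obtain ⟨N, hN⟩ := h.tendsto hS hδ0 hδ h M
  exact ⟨N, fun i j hi hj => hN _ _ (hi.trans (hψ.id_le i)) hj⟩

lemma extract_pair (hfin : S.Finite) (γ : ℕ → Γ)
    (hγ : ∀ M : ℝ, ∃ N : ℕ, ∀ k, N ≤ k → M ≤ wlen S (γ k)) :
    ∃ ψ : ℕ → ℕ, StrictMono ψ ∧ ∃ α β : Boundary S, ConvTo S (fun k => γ (ψ k)) α ∧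
      ConvTo S (fun k => (γ (ψ k))⁻¹) β := by
  obtain ⟨ψ, hψ, hc⟩ := extract' hS hδ0 hδ hfin γ hγ
  obtain ⟨χ, hχ, hc'⟩ := extract' hS hδ0 hδ hfin (fun k => (γ (ψ k))⁻¹) (by
    intro M
    obtain ⟨N, hN⟩ := hγ M
    refine ⟨N, fun k hk => ?_⟩
    rw [wlen_inv hS]
    exact hN _ (hk.trans (hψ.id_le k)))
  refine ⟨ψ ∘ χ, hψ.comp hχ, bmk S ⟨fun k => γ (ψ (χ k)), convInf_comp hc hχ⟩,
    bmk S ⟨fun k => (γ (ψ (χ k)))⁻¹, hc'⟩, ⟨_, rfl, rfl⟩, ⟨_, rfl, rfl⟩⟩

omit hδ0 hδ in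
lemma len_of_injective (hfin : S.Finite) (γ : ℕ → Γ) (hγ : Function.Injective γ) :
    ∀ M : ℝ, ∃ N : ℕ, ∀ k, N ≤ k → M ≤ wlen S (γ k) := by
  intro M
  obtain ⟨n, hn⟩ := exists_nat_ge M
  have hf : {k : ℕ | wlen S (γ k) ≤ n}.Finite :=
    (ball_finite hS hfin n).preimage hγ.injOn
  obtain ⟨B, hB⟩ := hf.bddAbove
  refine ⟨B + 1, fun k hk => ?_⟩
  by_contra hcon
  push Not at hcon
  have h1 : wlen S (γ k) ≤ n := by
    have : (wlen S (γ k) : ℝ) < n := hcon.trans_le hn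
    exact_mod_cast this.le
  have := hB h1
  omega

omit hS hδ0 hδ in
lemma bsmul_mk (hS : Subgroup.closure S = ⊤) (g : Γ) (x : InfSeq S) :
    bsmul hS g (bmk S x) = bmk S (translate hS g x) := rfl

omit hδ0 hδ in
lemma convTo_smul {x : ℕ → Γ} {z : Boundary S} (g : Γ) (h : ConvTo S x z) :
    ConvTo S (fun n => g * x n) (bsmul hS g z) := by
  obtain ⟨y, rfl, rfl⟩ := h
  exact ⟨translate hS g y, rfl, rfl⟩

omit hδ0 hδ in
lemma bsmul_mul (g h : Γ) (z : Boundary S) :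
    bsmul hS (g * h) z = bsmul hS g (bsmul hS h z) := by
  obtain ⟨x, rfl⟩ : ∃ x : InfSeq S, bmk S x = z := Quot.exists_rep z
  rw [bsmul_mk, bsmul_mk, bsmul_mk]
  congr 1
  apply Subtype.ext
  funext n
  exact mul_assoc _ _ _

omit hδ0 hδ in
lemma bsmul_one (z : Boundary S) : bsmul hS 1 z = z := by
  obtain ⟨x, rfl⟩ : ∃ x : InfSeq S, bmk S x = z := Quot.exists_rep z
  rw [bsmul_mk]
  congr 1
  apply Subtype.ext
  funext n
  exact one_mul _

end general

section free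

variable {r : ℕ}

/-- abbreviations for the hyperbolicity of the free group -/
lemma agree_smul {ξ η : Boundary (basis r)} {n : ℕ} (g : FreeGroup (Fin r))
    (h : Agree ξ η (n + wlen (basis r) g)) :
    Agree (bsmul (closure_basis r) g ξ) (bsmul (closure_basis r) g η) n := by
  obtain ⟨x, hx⟩ := exists_rep ξ
  obtain ⟨y, hy⟩ := exists_rep η
  obtain ⟨N, hN⟩ := (agree_iff hx hy _).1 h
  refine (agree_iff (convTo_smul (closure_basis r) g hx) (convTo_smul (closure_basis r) g hy) n).2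
    ⟨N, fun i j hi hj => ?_⟩
  have h1 := gprod_translate (closure_basis r) g (x i) (y j)
  have h2 := hN i j hi hj
  push_cast at h2
  linarith

/-- uniform convergence of group elements on the boundary -/
lemma dyn {γ : ℕ → FreeGroup (Fin r)} {α β : Boundary (basis r)} (hα : ConvTo (basis r) γ α)
    (hβ : ConvTo (basis r) (fun k => (γ k)⁻¹) β) (K : Set (Boundary (basis r))) (n : ℕ)
    (hK : ∀ ζ ∈ K, ¬ Agree ζ β n) (s : ℝ) :
    ∀ᶠ k in atTop, ∀ ζ ∈ K, bsmul (closure_basis r) (γ k) ζ ∈ bnhd (basis r) α s := by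
  obtain ⟨N1, hN1⟩ := hβ.tendsto (closure_basis r) le_rfl (hyp_basis r) hβ n
  obtain ⟨N2, hN2⟩ := hα.tendsto (closure_basis r) le_rfl (hyp_basis r) hα (s + n)
  obtain ⟨N3, hN3⟩ := hα.tendsto (closure_basis r) le_rfl (hyp_basis r) hα s
  filter_upwards [eventually_ge_atTop (max N1 (max N2 N3))] with k hk ζ hζ
  have k1 : N1 ≤ k := (le_max_left _ _).trans hk
  have k2 : N2 ≤ k := ((le_max_left _ _).trans (le_max_right _ _)).trans hk
  have k3 : N3 ≤ k := ((le_max_right _ _).trans (le_max_right _ _)).trans hk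
  obtain ⟨x, hx⟩ := exists_rep ζ
  obtain ⟨N4, hN4⟩ := hx.tendsto (closure_basis r) le_rfl (hyp_basis r) hx n
  have hlt : ∀ i, N4 ≤ i → gprod (basis r) 1 (x i) (γ k)⁻¹ < n := by
    intro i hi
    by_contra hcon
    push Not at hcon
    apply hK ζ hζ
    rw [agree_iff hx hβ]
    refine ⟨max N4 N1, fun i' j hi' hj => ?_⟩
    have a1 := hN4 i' i ((le_max_left _ _).trans hi') hi
    have a2 := hN1 k j k1 ((le_max_right _ _).trans hj)
    have := hyp4 le_rfl (hyp_basis r) a1 hcon a2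
    linarith
  have hlen : s + n ≤ wlen (basis r) (γ k) := by
    have := hN2 k k k2 k2
    rwa [gprod_self (closure_basis r)] at this
  obtain ⟨a, ha1, ha2⟩ := hα
  obtain ⟨b, hb1, hb2⟩ := convTo_smul (closure_basis r) (γ k) hx
  refine ⟨a, b, ha2, hb2, max N3 N4, fun i j hi hj => ?_⟩
  rw [ha1, hb1]
  have h1 := hlt j ((le_max_right _ _).trans hj)
  have h2 : gprod (basis r) 1 (γ k * x j) (γ k) = wlen (basis r) (γ k) -
      gprod (basis r) 1 (x j) (γ k)⁻¹ := by
    have := gprod_inv (closure_basis r) (γ k)⁻¹ (x j)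
    rw [inv_inv, wlen_inv (closure_basis r)] at this
    exact this
  have h3 : s ≤ gprod (basis r) 1 (γ k) (γ k * x j) := by
    rw [gprod_symm (closure_basis r), h2]; linarith
  have h4 := hN3 i k ((le_max_left _ _).trans hi) k3
  have := hyp3 (hyp_basis r) h4 h3
  linarith

lemma dyn_point {γ : ℕ → FreeGroup (Fin r)} {α β : Boundary (basis r)}
    (hα : ConvTo (basis r) γ α) (hβ : ConvTo (basis r) (fun k => (γ k)⁻¹) β)
    (ζ : Boundary (basis r)) (hζ : ζ ≠ β) :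
    Tendsto (fun k => bsmul (closure_basis r) (γ k) ζ) atTop (𝓝 α) := by
  obtain ⟨n, hn⟩ := exists_not_agree hζ
  apply tendsto_of_bnhd
  intro s
  filter_upwards [dyn hα hβ {ζ} n (by simpa using hn) s] with k hk
  exact hk ζ rfl

/-- an injective sequence converging to a given point -/
lemma exists_inj (ξ : Boundary (basis r)) : ∃ γ : ℕ → FreeGroup (Fin r), Function.Injective γ ∧
    ConvTo (basis r) γ ξ ∧ ∃ β, ConvTo (basis r) (fun k => (γ k)⁻¹) β := by
  obtain ⟨x, rfl⟩ : ∃ x : InfSeq (basis r), bmk (basis r) x = ξ := Quot.exists_rep ξ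
  choose g hg hg2 using approach (closure_basis r) le_rfl (hyp_basis r) x
  have hc : ConvTo (basis r) g (bmk (basis r) x) := by
    apply ConvTo.of_tendsto (closure_basis r) le_rfl (hyp_basis r) (convTo_mk x)
    intro M
    obtain ⟨N, hN⟩ := (bequiv_def x x).1 x.2 M
    obtain ⟨K, hK⟩ := exists_nat_ge M
    refine ⟨max N K, fun i j hi hj => ?_⟩
    obtain ⟨N', hN'⟩ := hg2 i
    have h1 := hN' (max N N') (le_max_right _ _)
    have h2 := hN (max N N') j (le_max_left _ _) ((le_max_left _ _).trans hj)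
    have h3 : (K : ℝ) ≤ i := by exact_mod_cast (le_max_right _ _).trans hi
    have h4 : M ≤ gprod (basis r) 1 (g i) (x.1 (max N N')) := by
      rw [gprod_symm (closure_basis r)]; linarith
    have := hyp3 (hyp_basis r) h4 h2
    linarith
  obtain ⟨ψ, hψ, α, β, h1, h2⟩ := extract_pair (closure_basis r) le_rfl (hyp_basis r)
    (finite_basis r) g (by
      intro M
      obtain ⟨K, hK⟩ := exists_nat_ge M
      refine ⟨K, fun k hk => ?_⟩
      rw [hg]
      exact hK.trans (by exact_mod_cast hk))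
  refine ⟨fun k => g (ψ k), ?_, convTo_comp (closure_basis r) le_rfl (hyp_basis r) hc hψ, β, h2⟩
  intro i j hij
  have : wlen (basis r) (g (ψ i)) = wlen (basis r) (g (ψ j)) := by
    simp only at hij
    rw [hij]
  rw [hg, hg] at this
  exact hψ.injective this

/-- sequential compactness of the boundary -/
lemma seq_compact (ξ : ℕ → Boundary (basis r)) : ∃ (ζ : Boundary (basis r)) (ψ : ℕ → ℕ),
    StrictMono ψ ∧ Tendsto (fun k => ξ (ψ k)) atTop (𝓝 ζ) := by
  have h1 : ∀ n, ∃ x : InfSeq (basis r), bmk (basis r) x = ξ n := fun n => Quot.exists_rep _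
  choose x hx using h1
  have h2 : ∀ n, ∃ g, wlen (basis r) g = n ∧ ∃ N : ℕ, ∀ i, N ≤ i →
      (n : ℝ) - 0 ≤ gprod (basis r) 1 ((x n).1 i) g :=
    fun n => approach (closure_basis r) le_rfl (hyp_basis r) (x n) n
  choose g hg hg2 using h2
  obtain ⟨ψ, hψ, hc⟩ := extract (closure_basis r) le_rfl (hyp_basis r) (finite_basis r) g hg
  refine ⟨bmk (basis r) ⟨_, hc⟩, ψ, hψ, ?_⟩
  apply tendsto_of_bnhd
  intro s
  obtain ⟨N, hN⟩ := (bequiv_def (⟨_, hc⟩ : InfSeq (basis r)) ⟨_, hc⟩).1 hc s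
  obtain ⟨K, hK⟩ := exists_nat_ge s
  filter_upwards [eventually_ge_atTop (max N K)] with k hk
  obtain ⟨N', hN'⟩ := hg2 (ψ k)
  refine ⟨⟨_, hc⟩, x (ψ k), rfl, hx _, max N N', fun i j hi hj => ?_⟩
  have a1 : s ≤ gprod (basis r) 1 (g (ψ i)) (g (ψ k)) :=
    hN i k ((le_max_left _ _).trans hi) ((le_max_left _ _).trans hk)
  have a2 : s ≤ gprod (basis r) 1 (g (ψ k)) ((x (ψ k)).1 j) := by
    have h3 := hN' j ((le_max_right _ _).trans hj)
    have h4 : (K : ℝ) ≤ ψ k := by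
      exact_mod_cast ((le_max_right _ _).trans hk).trans (hψ.id_le k)
    rw [gprod_symm (closure_basis r)]
    linarith
  have := hyp3 (hyp_basis r) a1 a2
  simpa using this

end free

end Pool.Agent.R639.CT
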