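import Mathlib
import Pool.Agent.R639.CT.Ex2

/-!
The quotient of the boundary of the free group of rank three (with basis `a, b, c`) which collapses
the translates of the boundary of the subgroup generated by `a, b`, realised as a subshift.
-/

set_option autoImplicit false
set_option linter.unusedSectionVars false

namespace Pool.Agent.R639.CT

open Filter Topology Pool.Agent.H322R3.Hyp FreeGroup

/-- the third basis element -/
abbrev cc : FreeGroup (Fin 3) := FreeGroup.of 2

/-- `g` starts with the letter `c` -/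
def sc (g : FreeGroup (Fin 3)) : Prop := 1 ≤ gprod (basis 3) 1 g cc

/-- the boundary point `ξ` starts with the letter `c` -/
def St (ξ : Boundary (basis 3)) : Prop :=
  ∃ x : ℕ → FreeGroup (Fin 3), ConvTo (basis 3) x ξ ∧ ∃ N : ℕ, ∀ i, N ≤ i → sc (x i)

lemma St_iff {x : ℕ → FreeGroup (Fin 3)} {ξ : Boundary (basis 3)} (hx : ConvTo (basis 3) x ξ) :
    St ξ ↔ ∃ N : ℕ, ∀ i, N ≤ i → sc (x i) := by
  constructor
  · rintro ⟨y, hy, N, hN⟩
    obtain ⟨N', hN'⟩ := hx.tendsto (closure_basis 3) le_rfl (hyp_basis 3) hy 1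
    refine ⟨N', fun i hi => ?_⟩
    have a1 := hN' i (max N N') hi (le_max_right _ _)
    have a2 : 1 ≤ gprod (basis 3) 1 (y (max N N')) cc := hN _ (le_max_left _ _)
    have := hyp3 (hyp_basis 3) a1 a2
    unfold sc
    linarith
  · rintro ⟨N, hN⟩
    exact ⟨x, hx, N, hN⟩

lemma St_congr {ξ η : Boundary (basis 3)} (h : Agree ξ η 1) : St ξ ↔ St η := by
  have key : ∀ ξ η : Boundary (basis 3), Agree ξ η 1 → St ξ → St η := by
    intro ξ η h hs
    obtain ⟨x, hx⟩ := exists_rep ξ
    obtain ⟨y, hy⟩ := exists_rep η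
    obtain ⟨N, hN⟩ := (St_iff hx).1 hs
    obtain ⟨N', hN'⟩ := (agree_iff hx hy 1).1 h
    refine (St_iff hy).2 ⟨max N N', fun j hj => ?_⟩
    have a1 := hN' (max N N') j (le_max_right _ _) ((le_max_right _ _).trans hj)
    have a2 : 1 ≤ gprod (basis 3) 1 (x (max N N')) cc := hN _ (le_max_left _ _)
    rw [gprod_symm (closure_basis 3)] at a1
    push_cast at a1
    have := hyp3 (hyp_basis 3) a1 a2
    unfold sc
    linarith
  exact ⟨key _ _ h, key _ _ (agree_symm h)⟩

open Classical in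
/-- the code of a boundary point -/
noncomputable def Phi (ξ : Boundary (basis 3)) : FreeGroup (Fin 3) → Bool :=
  fun h => decide (St (bsmul (closure_basis 3) h⁻¹ ξ))

lemma Phi_smul (g : FreeGroup (Fin 3)) (ξ : Boundary (basis 3)) (h : FreeGroup (Fin 3)) :
    Phi (bsmul (closure_basis 3) g ξ) h = Phi ξ (g⁻¹ * h) := by
  unfold Phi
  rw [← bsmul_mul, mul_inv_rev, inv_inv]

lemma Phi_continuous : Continuous Phi := by
  rw [continuous_pi_iff]
  intro h
  rw [continuous_iff_continuousAt]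
  intro ξ
  have : (fun η => Phi η h) =ᶠ[𝓝 ξ] fun _ => Phi ξ h := by
    filter_upwards [bnhd_mem_nhds (closure_basis 3) le_rfl (hyp_basis 3) ξ
      ((1 + wlen (basis 3) h⁻¹ : ℕ) : ℝ)] with η hη
    have hA : Agree ξ η (1 + wlen (basis 3) h⁻¹) := hη
    exact decide_eq_decide.2 (St_congr (agree_smul h⁻¹ hA)).symm
  exact continuousAt_const.congr this.symm

/-- The compactum `Z`. -/
def ZZ : Type := {φ : FreeGroup (Fin 3) → Bool // φ ∈ Set.range Phi}

instance : TopologicalSpace ZZ := inferInstanceAs (TopologicalSpace {φ // φ ∈ Set.range Phi})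

instance : TopologicalSpace.MetrizableSpace ZZ :=
  inferInstanceAs (TopologicalSpace.MetrizableSpace {φ // φ ∈ Set.range Phi})

lemma isClosed_range_Phi : IsClosed (Set.range Phi) := by
  apply IsSeqClosed.isClosed
  intro φ ψ hφ hlim
  choose ξ hξ using hφ
  obtain ⟨ζ, κ, hκ, hζ⟩ := seq_compact ξ
  refine ⟨ζ, ?_⟩
  have h1 : Tendsto (fun k => Phi (ξ (κ k))) atTop (𝓝 (Phi ζ)) :=
    (Phi_continuous.tendsto ζ).comp hζ
  have h2 : Tendsto (fun k => Phi (ξ (κ k))) atTop (𝓝 ψ) := by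
    have := hlim.comp hκ.tendsto_atTop
    refine this.congr (fun k => ?_)
    simp only [Function.comp, hξ]
  exact tendsto_nhds_unique h1 h2

instance : CompactSpace ZZ :=
  isCompact_iff_compactSpace.1 isClosed_range_Phi.isCompact

noncomputable instance : MulAction (FreeGroup (Fin 3)) ZZ where
  smul g z := ⟨fun h => z.1 (g⁻¹ * h), by
    obtain ⟨ξ, hξ⟩ := z.2
    refine ⟨bsmul (closure_basis 3) g ξ, ?_⟩
    funext h
    rw [Phi_smul, hξ]⟩
  one_smul z := by
    apply Subtype.ext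
    funext h
    show z.1 (1⁻¹ * h) = z.1 h
    rw [inv_one, one_mul]
  mul_smul g g' z := by
    apply Subtype.ext
    funext h
    show z.1 ((g * g')⁻¹ * h) = z.1 (g'⁻¹ * (g⁻¹ * h))
    rw [mul_inv_rev, mul_assoc]

lemma smul_val (g : FreeGroup (Fin 3)) (z : ZZ) (h : FreeGroup (Fin 3)) :
    (g • z).1 h = z.1 (g⁻¹ * h) := rfl

lemma continuous_smulZ (g : FreeGroup (Fin 3)) : Continuous (fun z : ZZ => g • z) := by
  apply Continuous.subtype_mk
  rw [continuous_pi_iff]
  intro h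
  exact (continuous_apply (g⁻¹ * h)).comp continuous_subtype_val

/-- The quotient map. -/
noncomputable def ff3 (ξ : Boundary (basis 3)) : ZZ := ⟨Phi ξ, ξ, rfl⟩

lemma ff3_continuous : Continuous ff3 := Phi_continuous.subtype_mk _

lemma ff3_smul (g : FreeGroup (Fin 3)) (ξ : Boundary (basis 3)) :
    ff3 (bsmul (closure_basis 3) g ξ) = g • ff3 ξ := by
  apply Subtype.ext
  funext h
  exact Phi_smul g ξ h

lemma ff3_surj (z : ZZ) : ∃ ξ, ff3 ξ = z := by
  obtain ⟨ξ, hξ⟩ := z.2
  exact ⟨ξ, Subtype.ext hξ⟩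

/-- the dynamics of `Z` -/
lemma dynZ {γ : ℕ → FreeGroup (Fin 3)} {α β : Boundary (basis 3)}
    (hα : ConvTo (basis 3) γ α) (hβ : ConvTo (basis 3) (fun k => (γ k)⁻¹) β)
    (K : Set ZZ) (hK : IsCompact K) (hb : ff3 β ∉ K) (U : Set ZZ) (hU : U ∈ 𝓝 (ff3 α)) :
    ∀ᶠ k in atTop, ∀ x ∈ K, γ k • x ∈ U := by
  -- a uniform bound
  have h1 : ∃ n, ∀ ζ ∈ ff3 ⁻¹' K, ¬ Agree ζ β n := by
    by_contra hcon
    push Not at hcon
    choose ζ hζ hA using hcon
    have hlim : Tendsto ζ atTop (𝓝 β) := by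
      apply tendsto_of_bnhd
      intro s
      obtain ⟨M, hM⟩ := exists_nat_ge s
      filter_upwards [eventually_ge_atTop M] with n hn
      have : Agree β (ζ n) M := agree_symm (agree_anti hn (hA n))
      exact bnhd_anti _ _ hM this
    exact hb (hK.isClosed.mem_of_tendsto ((ff3_continuous.tendsto β).comp hlim)
      (Eventually.of_forall hζ))
  obtain ⟨n, hn⟩ := h1
  have h2 : ff3 ⁻¹' U ∈ 𝓝 α := ff3_continuous.continuousAt.preimage_mem_nhds hU
  rw [mem_nhds_iff] at h2
  obtain ⟨V, hVU, hV, hαV⟩ := h2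
  obtain ⟨s, hs⟩ : ∃ s : ℝ, bnhd (basis 3) α s ⊆ V := hV α hαV
  filter_upwards [dyn hα hβ (ff3 ⁻¹' K) n hn s] with k hk x hx
  obtain ⟨ξ, rfl⟩ := ff3_surj x
  rw [← ff3_smul]
  exact hVU (hs (hk ξ hx))

lemma dynZ_point {γ : ℕ → FreeGroup (Fin 3)} {α β : Boundary (basis 3)}
    (hα : ConvTo (basis 3) γ α) (hβ : ConvTo (basis 3) (fun k => (γ k)⁻¹) β)
    (ξ : Boundary (basis 3)) (hξ : ξ ≠ β) :
    Tendsto (fun k => γ k • ff3 ξ) atTop (𝓝 (ff3 α)) := by
  have := (ff3_continuous.tendsto α).comp (dyn_point hα hβ ξ hξ)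
  refine this.congr (fun k => ?_)
  simp only [Function.comp, ff3_smul]

/-! ### the point with large preimage -/

lemma wlen_eq_zero {g : FreeGroup (Fin 3)} (h : wlen (basis 3) g = 0) : g = 1 := by
  obtain ⟨l, hl1, hl2, hl3⟩ := wlen_spec (closure_basis 3) g
  rw [h, List.length_eq_zero_iff] at hl1
  rw [← hl3, hl1, List.prod_nil]

lemma wlen_of (i : Fin 3) : wlen (basis 3) (FreeGroup.of i) = 1 := by
  have := wlen_free (FreeGroup.of i)
  rw [toWord_of] at this
  exact this

lemma not_sc_one : ¬ sc 1 := by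
  unfold sc
  rw [gprod_left_one (closure_basis 3)]
  norm_num

lemma not_sc_of_len {s : FreeGroup (Fin 3)} (hs : wlen (basis 3) s = 1) (hsc : s ≠ cc) :
    ¬ sc s := by
  unfold sc
  rw [gprod_one (closure_basis 3), hs, wlen_of]
  have h : wlen (basis 3) (s⁻¹ * cc) ≠ 0 := by
    intro h
    exact hsc (inv_mul_eq_one.1 (wlen_eq_zero h))
  have h' : (1 : ℝ) ≤ wlen (basis 3) (s⁻¹ * cc) := by exact_mod_cast Nat.one_le_iff_ne_zero.2 h
  push_cast
  linarith

lemma sc_mul (g s : FreeGroup (Fin 3)) (hs : wlen (basis 3) s = 1) (h1 : s ≠ cc)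
    (h2 : s⁻¹ ≠ cc) : sc (g * s) ↔ sc g := by
  obtain ⟨A, hA⟩ := gprod_nat (g * s) g
  have hA' := gprod_one (closure_basis 3) (g * s) g
  have e : (g * s)⁻¹ * g = s⁻¹ := by group
  rw [e, wlen_inv (closure_basis 3) s, hs] at hA'
  rw [hA'] at hA
  have hA2 : wlen (basis 3) (g * s) + wlen (basis 3) g = 2 * A + 1 := by
    have : (wlen (basis 3) (g * s) : ℝ) + wlen (basis 3) g = 2 * A + 1 := by
      push_cast at hA
      linarith
    exact_mod_cast this
  rcases Nat.eq_zero_or_pos A with h0 | hpos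
  · have h3 : wlen (basis 3) g = 0 ∨ wlen (basis 3) (g * s) = 0 := by omega
    rcases h3 with h3 | h3
    · have hg := wlen_eq_zero h3
      rw [hg, one_mul]
      exact iff_of_false (not_sc_of_len hs h1) not_sc_one
    · have hg := wlen_eq_zero h3
      rw [hg]
      have hg' : g = s⁻¹ := eq_inv_of_mul_eq_one_left hg
      rw [hg']
      exact iff_of_false not_sc_one (not_sc_of_len (by rw [wlen_inv (closure_basis 3), hs]) h2)
  · have hA3 : (1 : ℝ) ≤ gprod (basis 3) 1 (g * s) g := by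
      rw [hA', hA]
      exact_mod_cast hpos
    unfold sc
    constructor
    · intro h
      have := hyp3 (hyp_basis 3) (x := g) (y := g * s) (z := cc) (M := 1)
        (by rw [gprod_symm (closure_basis 3)]; exact hA3) h
      linarith
    · intro h
      have := hyp3 (hyp_basis 3) hA3 h
      linarith

lemma ne_cc (i : Fin 2) : (FreeGroup.of (Fin.castSucc i) : FreeGroup (Fin 3)) ≠ cc := by
  intro h
  have := FreeGroup.of_injective h
  fin_cases i <;> simp_all

lemma inv_ne_cc (i : Fin 2) : (FreeGroup.of (Fin.castSucc i) : FreeGroup (Fin 3))⁻¹ ≠ cc := by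
  intro h
  have h2 := congrArg FreeGroup.toWord h
  rw [toWord_inv, toWord_of, toWord_of] at h2
  simp [invRev] at h2

lemma sc_xw (g : FreeGroup (Fin 3)) (n : ℕ) (w : ℕ → Fin 2) : sc (g * xw w n) ↔ sc g := by
  induction n generalizing g w with
  | zero =>
    have : xw w 0 = 1 := rfl
    rw [this, mul_one]
  | succ n ih =>
    have : xw w (n + 1) = FreeGroup.of (Fin.castSucc (w 0)) * xw (fun i => w (i + 1)) n := by
      rw [xw, xw, word, FreeGroup.of, FreeGroup.mul_mk]
      rfl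
    rw [this, ← mul_assoc, ih]
    exact sc_mul _ _ (wlen_of _) (ne_cc _) (inv_ne_cc _)

open Classical in
lemma Phi_bw (w : ℕ → Fin 2) (h : FreeGroup (Fin 3)) : Phi (bw w) h = decide (sc h⁻¹) := by
  unfold Phi
  congr 1
  rw [St_iff (convTo_smul (closure_basis 3) h⁻¹ (conv_bw w))]
  simp only [sc_xw]
  apply propext
  exact ⟨fun ⟨N, hN⟩ => hN N le_rfl, fun hs => ⟨0, fun _ _ => hs⟩⟩

/-- The point whose preimage contains the points `bw w`. -/
noncomputable def z0 : ZZ := ff3 (bw fun _ => 0)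

lemma ff3_bw (w : ℕ → Fin 2) : ff3 (bw w) = z0 := by
  apply Subtype.ext
  funext h
  show Phi (bw w) h = Phi (bw fun _ => 0) h
  rw [Phi_bw, Phi_bw]

open Classical in
lemma z0_val (h : FreeGroup (Fin 3)) : z0.1 h = decide (sc h⁻¹) := Phi_bw _ h

lemma sc_cc : sc cc := by
  unfold sc
  rw [gprod_self (closure_basis 3), wlen_of]
  norm_num

lemma sc_cc2 : sc (cc * cc) := by
  unfold sc
  have h := gprod_free (cc * cc) cc
  have h1 : (cc * cc).toWord = [(2, true), (2, true)] := by decide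
  have h2 : cc.toWord = [(2, true)] := by decide
  rw [h1, h2] at h
  have h3 : lcp [((2 : Fin 3), true), (2, true)] [(2, true)] = 1 := by decide
  rw [h3] at h
  have h4 : gprod (basis 3) 1 (cc * cc) cc = ((1 : ℕ) : ℝ) := h
  rw [h4]
  norm_num

lemma not_sc_inv : ¬ sc cc⁻¹ := by
  apply not_sc_of_len
  · rw [wlen_inv (closure_basis 3), wlen_of]
  · intro h
    have h2 := congrArg FreeGroup.toWord h
    rw [toWord_inv, toWord_of] at h2
    simp [invRev] at h2

lemma three_points : z0 ≠ cc • z0 ∧ z0 ≠ (cc * cc) • z0 ∧ cc • z0 ≠ (cc * cc) • z0 := by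
  have e1 : z0.1 1 = false := by
    rw [z0_val]; simp [not_sc_one]
  have e2 : (cc • z0).1 1 = true := by
    rw [smul_val, z0_val]; simp [sc_cc]
  have e3 : ((cc * cc) • z0).1 1 = true := by
    rw [smul_val, z0_val]; simpa using sc_cc2
  have e4 : (cc • z0).1 cc = false := by
    rw [smul_val, z0_val]; simp [not_sc_one]
  have e5 : ((cc * cc) • z0).1 cc = true := by
    rw [smul_val, z0_val]
    have : ((cc * cc)⁻¹ * cc)⁻¹ = cc := by group
    rw [this]; simp [sc_cc]
  refine ⟨fun h => ?_, fun h => ?_, fun h => ?_⟩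
  · rw [← h, e1] at e2; exact absurd e2 (by decide)
  · rw [← h, e1] at e3; exact absurd e3 (by decide)
  · rw [← h, e4] at e5; exact absurd e5 (by decide)

end Pool.Agent.R639.CT
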