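import Mathlib
import Pool.Agent.R639.CT.Ex3

/-!
The compactum `Z`: limit set, convergence action, a non-conical point, and the dimension of its
preimage.
-/

set_option autoImplicit false
set_option linter.unusedSectionVars false

namespace Pool.Agent.R639.CT

open Filter Topology Pool.Agent.H322R3.Hyp FreeGroup

section triples

variable {Γ Z : Type*} [Group Γ] [TopologicalSpace Z] [CompactSpace Z]
  [TopologicalSpace.MetrizableSpace Z] [MulAction Γ Z]

lemma attract_seq {h : ℕ → Γ} {b c : Z}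
    (H : ∀ K : Set Z, IsCompact K → b ∉ K → ∀ U ∈ 𝓝 c, ∀ᶠ k in atTop, ∀ x ∈ K, h k • x ∈ U)
    {u : ℕ → Z} {v : Z} (hu : Tendsto u atTop (𝓝 v)) (hv : v ≠ b) :
    Tendsto (fun k => h k • u k) atTop (𝓝 c) := by
  obtain ⟨K, hKc, hvK, hKb⟩ := exists_compact_subset (isOpen_compl_singleton (x := b))
    (show v ∈ ({b}ᶜ : Set Z) from hv)
  have hb : b ∉ K := fun h => hKb h rfl
  intro U hU
  have h1 : ∀ᶠ k in atTop, u k ∈ K := hu.eventually (mem_interior_iff_mem_nhds.1 hvK)
  have h2 : ∀ᶠ k in atTop, h k • u k ∈ U := by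
    filter_upwards [H K hKc hb U hU, h1] with k hk hk2
    exact hk _ hk2
  exact h2

lemma properOnTriples (hconv : IsConvergenceAction Γ Z) : ProperOnTriples Γ Z := by
  intro K hK hKd
  by_contra hinf
  have hinf' : {g : Γ | ∃ p ∈ K, (g • p.1, g • p.2.1, g • p.2.2) ∈ K}.Infinite := hinf
  set e := hinf'.natEmbedding with he
  have hinj : Function.Injective (fun n => (e n : Γ)) := fun i j hij => e.injective (Subtype.ext hij)
  obtain ⟨φ, hφ, a, b, hab⟩ := hconv _ hinj
  have hmem : ∀ n, ∃ p ∈ K, ((e n : Γ) • p.1, (e n : Γ) • p.2.1, (e n : Γ) • p.2.2) ∈ K :=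
    fun n => (e n).2
  choose p hp hgp using hmem
  obtain ⟨q, hq, ψ, hψ, hlim⟩ := hK.tendsto_subseq (x := fun n => p (φ n)) (fun n => hp _)
  obtain ⟨s, hs, χ, hχ, hlim2⟩ := hK.tendsto_subseq
    (x := fun n => ((e (φ (ψ n)) : Γ) • (p (φ (ψ n))).1, (e (φ (ψ n)) : Γ) • (p (φ (ψ n))).2.1,
      (e (φ (ψ n)) : Γ) • (p (φ (ψ n))).2.2)) (fun n => hgp _)
  have hlim' : Tendsto (fun n => p (φ (ψ (χ n)))) atTop (𝓝 q) := hlim.comp hχ.tendsto_atTop
  have H : ∀ K : Set Z, IsCompact K → b ∉ K → ∀ U ∈ 𝓝 a, ∀ᶠ k in atTop, ∀ x ∈ K,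
      (e (φ (ψ (χ k))) : Γ) • x ∈ U := by
    intro K hK hb U hU
    exact (hψ.tendsto_atTop.comp hχ.tendsto_atTop).eventually (hab K hK hb U hU)
  obtain ⟨hd1, hd2, hd3⟩ := hKd q hq
  obtain ⟨hs1, hs2, hs3⟩ := hKd s hs
  have t1 : Tendsto (fun n => (p (φ (ψ (χ n)))).1) atTop (𝓝 q.1) :=
    (continuous_fst.tendsto q).comp hlim'
  have t2 : Tendsto (fun n => (p (φ (ψ (χ n)))).2.1) atTop (𝓝 q.2.1) :=
    ((continuous_fst.comp continuous_snd).tendsto q).comp hlim'
  have t3 : Tendsto (fun n => (p (φ (ψ (χ n)))).2.2) atTop (𝓝 q.2.2) :=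
    ((continuous_snd.comp continuous_snd).tendsto q).comp hlim'
  have u1 := (continuous_fst.tendsto s).comp hlim2
  have u2 := ((continuous_fst.comp continuous_snd).tendsto s).comp hlim2
  have u3 := ((continuous_snd.comp continuous_snd).tendsto s).comp hlim2
  by_cases c1 : q.1 = b
  · have c2 : q.2.1 ≠ b := fun h => hd1 (c1.trans h.symm)
    have c3 : q.2.2 ≠ b := fun h => hd2 (c1.trans h.symm)
    have v2 := attract_seq H t2 c2
    have v3 := attract_seq H t3 c3
    exact hs3 ((tendsto_nhds_unique u2 v2).trans (tendsto_nhds_unique u3 v3).symm)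
  · have v1 := attract_seq H t1 c1
    by_cases c2 : q.2.1 = b
    · have c3 : q.2.2 ≠ b := fun h => hd3 (c2.trans h.symm)
      have v3 := attract_seq H t3 c3
      exact hs2 ((tendsto_nhds_unique u1 v1).trans (tendsto_nhds_unique u3 v3).symm)
    · have v2 := attract_seq H t2 c2
      exact hs1 ((tendsto_nhds_unique u1 v1).trans (tendsto_nhds_unique u2 v2).symm)

end triples

/-- The action on `Z` is a convergence action. -/
lemma convZ : IsConvergenceAction (FreeGroup (Fin 3)) ZZ := by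
  intro γ hγ
  obtain ⟨ψ, hψ, α, β, hα, hβ⟩ := extract_pair (closure_basis 3) le_rfl (hyp_basis 3)
    (finite_basis 3) γ (len_of_injective (closure_basis 3) (finite_basis 3) γ hγ)
  exact ⟨ψ, hψ, ff3 α, ff3 β, fun K hK hb U hU => dynZ hα hβ K hK hb U hU⟩

/-- Every point of `Z` is a limit point. -/
lemma limitZ (z : ZZ) : z ∈ limitSet (FreeGroup (Fin 3)) ZZ := by
  obtain ⟨ξ, rfl⟩ := ff3_surj z
  obtain ⟨γ, hγ, hα, β, hβ⟩ := exists_inj ξ
  exact ⟨γ, hγ, ff3 β, fun K hK hb U hU => dynZ hα hβ K hK hb U hU⟩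

/-- The point `z0` is not conical. -/
lemma not_conical_z0 : ¬ IsConicalPoint (FreeGroup (Fin 3)) z0 := by
  rintro ⟨h, b, c, hbc, hb, hc⟩
  obtain ⟨h01, h02, h12⟩ := three_points
  by_cases hfr : ∀ n : ℕ, ∃ᶠ k in atTop, (n : ℝ) ≤ wlen (basis 3) (h k)
  · obtain ⟨φ, hφ, hφ2⟩ := extraction_forall_of_frequently hfr
    obtain ⟨ψ, hψ, α, β, hα, hβ⟩ := extract_pair (closure_basis 3) le_rfl (hyp_basis 3)
      (finite_basis 3) (fun k => h (φ k)) (by
        intro M
        obtain ⟨n, hn⟩ := exists_nat_ge M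
        refine ⟨n, fun k hk => ?_⟩
        have h1 : (n : ℝ) ≤ k := by exact_mod_cast hk
        exact hn.trans (h1.trans (hφ2 k)))
    have hsub : Tendsto (fun k => φ (ψ k)) atTop atTop :=
      hφ.tendsto_atTop.comp hψ.tendsto_atTop
    have hbα : b = ff3 α := by
      obtain ⟨w, hw⟩ : ∃ w : ℕ → Fin 2, bw w ≠ β := by
        by_contra hcon
        push Not at hcon
        have h1 := (hcon (fun _ => 0)).trans (hcon (fun _ => 1)).symm
        have h2 := congrFun (bw_injective h1) 0
        exact absurd h2 (by decide)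
      have h1 := dynZ_point hα hβ (bw w) hw
      rw [ff3_bw] at h1
      exact tendsto_nhds_unique (hb.comp hsub) h1
    have hcα : c = ff3 α := by
      obtain ⟨y, hy0, hyβ⟩ : ∃ y : ZZ, y ≠ z0 ∧ y ≠ ff3 β := by
        by_cases h1 : cc • z0 = ff3 β
        · exact ⟨(cc * cc) • z0, h02.symm, fun h2 => h12 (h1.trans h2.symm)⟩
        · exact ⟨cc • z0, h01.symm, h1⟩
      obtain ⟨η, rfl⟩ := ff3_surj y
      have h1 := dynZ_point hα hβ η (fun h2 => hyβ (by rw [h2]))
      exact tendsto_nhds_unique ((hc _ hy0).comp hsub) h1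
    exact hbc (hbα.trans hcα.symm)
  · push Not at hfr
    obtain ⟨n, hn⟩ := hfr
    have hn' : ∀ᶠ k in atTop, wlen (basis 3) (h k) ≤ n := by
      filter_upwards [hn] with k hk
      exact_mod_cast hk.le
    obtain ⟨g, hg⟩ : ∃ g, ∃ᶠ k in atTop, h k = g := by
      by_contra hcon
      push Not at hcon
      have h1 := (eventually_all_finite (ball_finite (closure_basis 3) (finite_basis 3) n)).2
        (fun g _ => hcon g)
      obtain ⟨k, hk1, hk2⟩ := (hn'.and h1).exists
      exact hk2 (h k) hk1 rfl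
    have key : ∀ y, y ≠ z0 → g • y = c := by
      intro y hy
      have h1 : Tendsto (fun _ : ℕ => g • y) atTop (𝓝 (g • y)) := tendsto_const_nhds
      have h2 := tendsto_nhds_unique_of_frequently_eq (hc y hy) h1
        (hg.mono (fun k hk => by rw [hk]))
      exact h2.symm
    have h1 := (key _ h01.symm).trans (key _ h02.symm).symm
    exact h12 (MulAction.injective g h1)

/-- The orbit map of `z0` extends to the boundary by the quotient map. -/
lemma ff3_limit (x : ℕ → FreeGroup (Fin 3)) (ξ : Boundary (basis 3))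
    (hx : ConvTo (basis 3) x ξ) : Tendsto (fun n => x n • z0) atTop (𝓝 (ff3 ξ)) := by
  apply tendsto_of_subseq_tendsto
  intro ns hns
  have hlen : ∀ M : ℝ, ∃ N : ℕ, ∀ k, N ≤ k → M ≤ wlen (basis 3) (x (ns k)) := by
    intro M
    obtain ⟨N, hN⟩ := hx.tendsto (closure_basis 3) le_rfl (hyp_basis 3) hx M
    obtain ⟨N', hN'⟩ := eventually_atTop.1 (hns.eventually (eventually_ge_atTop N))
    refine ⟨N', fun k hk => ?_⟩
    have := hN (ns k) (ns k) (hN' k hk) (hN' k hk)
    rwa [gprod_self (closure_basis 3)] at this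
  obtain ⟨ψ, hψ, α, β, hα, hβ⟩ := extract_pair (closure_basis 3) le_rfl (hyp_basis 3)
    (finite_basis 3) (fun k => x (ns k)) hlen
  have hαξ : α = ξ := by
    apply ConvTo.unique (closure_basis 3) le_rfl (hyp_basis 3) hx hα
    intro M
    obtain ⟨N, hN⟩ := hx.tendsto (closure_basis 3) le_rfl (hyp_basis 3) hx M
    obtain ⟨N', hN'⟩ := eventually_atTop.1
      ((hns.comp hψ.tendsto_atTop).eventually (eventually_ge_atTop N))
    exact ⟨max N N', fun i j hi hj => hN _ _ (hN' i ((le_max_right _ _).trans hi))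
      ((le_max_left _ _).trans hj)⟩
  refine ⟨ψ, ?_⟩
  obtain ⟨w, hw⟩ : ∃ w : ℕ → Fin 2, bw w ≠ β := by
    by_contra hcon
    push Not at hcon
    have h1 := (hcon (fun _ => 0)).trans (hcon (fun _ => 1)).symm
    have h2 := congrFun (bw_injective h1) 0
    exact absurd h2 (by decide)
  have h1 := dynZ_point hα hβ (bw w) hw
  rw [ff3_bw, hαξ] at h1
  exact h1

/-- The set of the points `bw w` has positive Hausdorff dimension with respect to every visual
metric. -/
lemma dim_bw' (a : ℝ) (ha : 1 < a) (m : MetricSpace (Boundary (basis 3)))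
    (hm : IsVisualCayley (basis 3) a m) : 0 < hausdorffDim m (Set.range bw) := by
  obtain ⟨C, hC0, hC⟩ := hm
  let _ : MetricSpace (Boundary (basis 3)) := m
  obtain ⟨g, hg⟩ := bw_injective.hasLeftInverse
  set F : Boundary (basis 3) → ℝ := fun ξ => Real.ofDigits (g ξ) with hF
  have hla : 0 < Real.log a := Real.log_pos ha
  have hl2 : 0 < Real.log 2 := Real.log_pos (by norm_num)
  set s : ℝ := Real.log 2 / Real.log a with hs
  have hs0 : 0 < s := div_pos hl2 hla
  have ha0 : 0 < a := by linarith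
  have has : a ^ s = 2 := by
    rw [Real.rpow_def_of_pos ha0, hs, mul_div_cancel₀ _ hla.ne', Real.exp_log (by norm_num)]
  obtain ⟨C', hC'0, hC'⟩ := isVisual_bmetric 3
  have hbound : ∀ w w' : ℕ → Fin 2, |Real.ofDigits w - Real.ofDigits w'| ≤
      2 * bdist (bw w) (bw w') := by
    classical
    intro w w'
    by_cases h : bw w = bw w'
    · rw [bw_injective h, bdist_self]; simp
    · have hd2 : bdist (bw w) (bw w') = (1 / 2 : ℝ) ^ Nat.find (exists_not_agree h) := by
        unfold bdist; rw [dif_pos h]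
      have h0 : Nat.find (exists_not_agree h) ≠ 0 := by
        intro h0
        have := Nat.find_spec (exists_not_agree h)
        rw [h0] at this
        exact this (agree_zero _ _)
      obtain ⟨n, hn⟩ := Nat.exists_eq_succ_of_ne_zero h0
      have h1 : Agree (bw w) (bw w') n := by
        have := Nat.find_min (exists_not_agree h) (m := n) (by omega)
        simpa using this
      have h2 := Real.abs_ofDigits_sub_ofDigits_le (n := n) (agree_bw h1)
      rw [hd2, hn]
      refine h2.trans (le_of_eq ?_)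
      rw [Nat.succ_eq_add_one, pow_succ, one_div, inv_pow]
      push_cast
      ring
  have hcomp : ∀ ξ η : Boundary (basis 3), ξ ≠ η → bdist ξ η ≤ C' * (C * dist ξ η) ^ s := by
    intro ξ η hne
    obtain ⟨x, hx⟩ := exists_rep ξ
    obtain ⟨y, hy⟩ := exists_rep η
    obtain ⟨N1, hN1⟩ := hC x y ξ η hx hy hne
    obtain ⟨N2, hN2⟩ := hC' x y ξ η hx hy hne
    have h1 := (hN1 (max N1 N2) (max N1 N2) (le_max_left _ _) (le_max_left _ _)).1
    have h2 := (hN2 (max N1 N2) (max N1 N2) (le_max_right _ _) (le_max_right _ _)).2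
    set t := gprod (basis 3) 1 (x (max N1 N2)) (y (max N1 N2)) with ht
    have h3 : a ^ (-t) ≤ C * dist ξ η := by
      have h4 : C * (C⁻¹ * a ^ (-t)) ≤ C * dist ξ η := mul_le_mul_of_nonneg_left h1 hC0.le
      rwa [mul_inv_cancel_left₀ hC0.ne'] at h4
    have h4 : (2 : ℝ) ^ (-t) = (a ^ (-t)) ^ s := by
      rw [← Real.rpow_mul ha0.le, mul_comm (-t) s, Real.rpow_mul ha0.le, has]
    have h5 : bdist ξ η ≤ C' * 2 ^ (-t) := h2
    refine h5.trans (mul_le_mul_of_nonneg_left ?_ hC'0.le)
    rw [h4]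
    exact Real.rpow_le_rpow (Real.rpow_nonneg ha0.le _) h3 hs0.le
  have hA0 : 0 ≤ 2 * C' * C ^ s := by positivity
  have hhol : HolderOnWith (2 * C' * C ^ s).toNNReal s.toNNReal F (Set.range bw) := by
    rintro _ ⟨w, rfl⟩ _ ⟨w', rfl⟩
    have e1 : F (bw w) = Real.ofDigits w := by simp only [hF]; rw [hg w]
    have e2 : F (bw w') = Real.ofDigits w' := by simp only [hF]; rw [hg w']
    rw [e1, e2]
    have hle : dist (Real.ofDigits w) (Real.ofDigits w') ≤
        (2 * C' * C ^ s) * dist (bw w) (bw w') ^ s := by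
      rw [Real.dist_eq]
      by_cases h : bw w = bw w'
      · rw [bw_injective h]
        simp only [sub_self, abs_zero]
        positivity
      · have h1 := hbound w w'
        have h2 := hcomp _ _ h
        have h3 : (C * dist (bw w) (bw w')) ^ s = C ^ s * dist (bw w) (bw w') ^ s :=
          Real.mul_rpow hC0.le dist_nonneg
        rw [h3] at h2
        nlinarith
    have hd0 : (0 : ℝ) ≤ dist (bw w) (bw w') := dist_nonneg
    rw [edist_dist, edist_dist, Real.coe_toNNReal s hs0.le,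
      ENNReal.ofReal_rpow_of_nonneg hd0 hs0.le]
    have h6 : ((2 * C' * C ^ s).toNNReal : ENNReal) = ENNReal.ofReal (2 * C' * C ^ s) := rfl
    rw [h6, ← ENNReal.ofReal_mul hA0]
    exact ENNReal.ofReal_le_ofReal hle
  have h1 := hhol.dimH_image_le (Real.toNNReal_pos.2 hs0)
  have h2 : Set.Ico (0 : ℝ) 1 ⊆ F '' (Set.range bw) := by
    intro t ht
    refine ⟨bw (Real.digits t 2), ⟨_, rfl⟩, ?_⟩
    simp only [hF]
    rw [hg, Real.ofDigits_digits (by norm_num) ht]
  have h3 : dimH (Set.Ico (0 : ℝ) 1) = 1 := by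
    have hne : (interior (Set.Ico (0 : ℝ) 1)).Nonempty := by
      rw [interior_Ico]
      exact ⟨1 / 2, by norm_num⟩
    rw [Real.dimH_of_nonempty_interior hne, Module.finrank_self]
    norm_num
  have h4 := (dimH_mono h2).trans h1
  rw [h3] at h4
  have h5 : dimH (Set.range bw) ≠ 0 := by
    intro h0
    rw [h0, ENNReal.zero_div] at h4
    exact absurd h4 (by norm_num)
  exact pos_iff_ne_zero.2 h5

lemma isReduced_pos (l : List (Fin 3 × Bool)) (h : ∀ x ∈ l, x.2 = true) :
    FreeGroup.IsReduced l := by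
  induction l with
  | nil => exact IsReduced.nil
  | cons a l ih =>
    have h' := ih (fun x hx => h x (List.mem_cons_of_mem _ hx))
    cases l with
    | nil => exact IsReduced.singleton
    | cons b l =>
      rw [FreeGroup.isReduced_cons_cons]
      exact ⟨fun _ => (h a (by simp)).trans (h b (by simp)).symm, h'⟩

lemma of_pow_eq (i : Fin 3) (n : ℕ) : (FreeGroup.of i : FreeGroup (Fin 3)) ^ n =
    FreeGroup.mk (List.replicate n (i, true)) := by
  induction n with
  | zero => rfl
  | succ n ih => rw [pow_succ', ih, List.replicate_succ, FreeGroup.of, FreeGroup.mul_mk]; rfl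

/-- The free group of rank three is not virtually cyclic. -/
lemma index_zpowers (g : FreeGroup (Fin 3)) : (Subgroup.zpowers g).index = 0 := by
  by_contra hne
  obtain ⟨n, hn0, -, hn⟩ := Subgroup.exists_pow_mem_of_index_ne_zero hne (FreeGroup.of 0)
  obtain ⟨m, hm0, -, hm⟩ := Subgroup.exists_pow_mem_of_index_ne_zero hne (FreeGroup.of 1)
  obtain ⟨i, hi⟩ := Subgroup.mem_zpowers_iff.1 hn
  obtain ⟨j, hj⟩ := Subgroup.mem_zpowers_iff.1 hm
  have hcomm : (FreeGroup.of 0 : FreeGroup (Fin 3)) ^ n * FreeGroup.of 1 ^ m =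
      FreeGroup.of 1 ^ m * FreeGroup.of 0 ^ n := by
    rw [← hi, ← hj, ← zpow_add, ← zpow_add, add_comm]
  rw [of_pow_eq, of_pow_eq, FreeGroup.mul_mk, FreeGroup.mul_mk] at hcomm
  have h1 := congrArg FreeGroup.toWord hcomm
  rw [toWord_mk, toWord_mk, (isReduced_pos _ _).reduce_eq, (isReduced_pos _ _).reduce_eq] at h1
  · obtain ⟨n, rfl⟩ : ∃ n', n = n' + 1 := ⟨n - 1, by omega⟩
    obtain ⟨m, rfl⟩ : ∃ m', m = m' + 1 := ⟨m - 1, by omega⟩
    rw [List.replicate_succ, List.replicate_succ, List.cons_append, List.cons_append] at h1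
    have h2 := (List.cons.inj h1).1
    exact absurd h2 (by decide)
  · intro x hx
    rw [List.mem_append] at hx
    rcases hx with hx | hx <;> rw [List.eq_of_mem_replicate hx]
  · intro x hx
    rw [List.mem_append] at hx
    rcases hx with hx | hx <;> rw [List.eq_of_mem_replicate hx]

end Pool.Agent.R639.CT
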